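import Pool.Agent.K4H9.PP.Tri

set_option autoImplicit false

/-!
Divisibility of cross products and determinants.
-/

namespace Pool.Agent.K4H9.PP

open Finset

/-- the largest coordinate -/
def nm (v : Fin 3 → ℤ) : ℕ := max (max (v 0).natAbs (v 1).natAbs) (v 2).natAbs

lemma natAbs_le_nm (v : Fin 3 → ℤ) (k : Fin 3) : (v k).natAbs ≤ nm v := by
  fin_cases k <;> simp [nm]

lemma exists_nm (v : Fin 3 → ℤ) : ∃ k, (v k).natAbs = nm v := by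
  unfold nm
  rcases le_total (max (v 0).natAbs (v 1).natAbs) (v 2).natAbs with h | h
  · exact ⟨2, (max_eq_right h).symm⟩
  · rcases le_total (v 0).natAbs (v 1).natAbs with h' | h'
    · exact ⟨1, by rw [max_eq_left h, max_eq_right h']⟩
    · exact ⟨0, by rw [max_eq_left h, max_eq_left h']⟩

lemma nm_pos {v : Fin 3 → ℤ} (h : v ≠ 0) : 1 ≤ nm v := by
  by_contra hcon
  apply h
  funext k
  have := natAbs_le_nm v k
  have h0 : (v k).natAbs = 0 := by omega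
  simpa using h0

lemma nm_le {v : Fin 3 → ℤ} {Z : ℕ} (h : ∀ k, |v k| ≤ Z) : nm v ≤ Z := by
  obtain ⟨k, hk⟩ := exists_nm v
  have := h k
  rw [Int.abs_eq_natAbs] at this
  omega

lemma abs_le_nm (v : Fin 3 → ℤ) (k : Fin 3) : |v k| ≤ nm v := by
  have := natAbs_le_nm v k
  rw [Int.abs_eq_natAbs]
  omega

/-- all that we need about lines in general position -/
structure GP {q : ℕ} (ℓ : Fin q → Fin 3 → ℤ) (Θ H : ℕ) : Prop where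
  q3 : 3 ≤ q
  Θ1 : 1 ≤ Θ
  H1 : 1 ≤ H
  bd : ∀ i k, |ℓ i k| ≤ H
  d : ∀ i j k, i ≠ j → i ≠ k → j ≠ k → dt (ℓ i) (ℓ j) (ℓ k) ≠ 0 ∧ dt (ℓ i) (ℓ j) (ℓ k) ∣ Θ
  c : ∀ i j, i ≠ j → ∃ k, cr (ℓ i) (ℓ j) k ≠ 0 ∧ cr (ℓ i) (ℓ j) k ∣ Θ
  l : ∀ i, ∃ k, ℓ i k ≠ 0 ∧ ℓ i k ∣ Θ

/-- an integer or one -/
def nz (a : ℤ) : ℕ := if a = 0 then 1 else a.natAbs

lemma nz_pos (a : ℤ) : 0 < nz a := by
  unfold nz
  split_ifs with h
  · norm_num
  · omega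

lemma dvd_nz {a : ℤ} (h : a ≠ 0) : a ∣ (nz a : ℤ) := by
  unfold nz
  rw [if_neg h]
  exact Int.dvd_natAbs_self

theorem exists_GP {q : ℕ} (hq : 3 ≤ q) (ℓ : Fin q → Fin 3 → ℤ)
    (hd : ∀ i j k, i ≠ j → i ≠ k → j ≠ k → dt (ℓ i) (ℓ j) (ℓ k) ≠ 0) : ∃ Θ H, GP ℓ Θ H := by
  classical
  have hthird : ∀ i j : Fin q, ∃ k, i ≠ k ∧ j ≠ k := by
    intro i j
    by_contra hcon
    push Not at hcon
    have h1 : (univ : Finset (Fin q)) ⊆ {i, j} := by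
      intro k _
      rw [mem_insert, mem_singleton]
      by_cases h : i = k
      · exact Or.inl h.symm
      · exact Or.inr (hcon k h).symm
    have h2 := (Finset.card_le_card h1).trans Finset.card_le_two
    rw [Finset.card_univ, Fintype.card_fin] at h2
    omega
  have hc : ∀ i j, i ≠ j → cr (ℓ i) (ℓ j) ≠ 0 := by
    intro i j hij h
    obtain ⟨k, hik, hjk⟩ := hthird i j
    apply hd k i j hik.symm hjk.symm hij
    unfold dt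
    rw [h]
    simp [dot]
  have hl : ∀ i, ℓ i ≠ 0 := by
    intro i h
    obtain ⟨j, hij, -⟩ := hthird i i
    obtain ⟨k, hik, hjk⟩ := hthird i j
    apply hd i j k hij hik hjk
    rw [h]
    simp [dt_eq]
  set Θ : ℕ := (∏ a : Fin q × Fin q × Fin q, nz (dt (ℓ a.1) (ℓ a.2.1) (ℓ a.2.2))) *
    (∏ a : Fin q × Fin q × Fin 3, nz (cr (ℓ a.1) (ℓ a.2.1) a.2.2)) *
    ∏ a : Fin q × Fin 3, nz (ℓ a.1 a.2) with hΘ
  set H : ℕ := 1 + ∑ a : Fin q × Fin 3, (ℓ a.1 a.2).natAbs with hH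
  refine ⟨Θ, H, hq, ?_, by omega, ?_, ?_, ?_, ?_⟩
  · rw [hΘ]
    refine Nat.mul_pos (Nat.mul_pos ?_ ?_) ?_ <;>
      exact Finset.prod_pos fun a _ => nz_pos _
  · intro i k
    have := Finset.single_le_sum (f := fun a : Fin q × Fin 3 => (ℓ a.1 a.2).natAbs)
      (fun _ _ => Nat.zero_le _) (mem_univ (i, k))
    simp only at this
    rw [Int.abs_eq_natAbs]
    omega
  · intro i j k hij hik hjk
    have h0 := hd i j k hij hik hjk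
    refine ⟨h0, (dvd_nz h0).trans ?_⟩
    have : nz (dt (ℓ i) (ℓ j) (ℓ k)) ∣ Θ := by
      rw [hΘ]
      refine Dvd.dvd.mul_right (Dvd.dvd.mul_right ?_ _) _
      exact Finset.dvd_prod_of_mem (fun a : Fin q × Fin q × Fin q =>
        nz (dt (ℓ a.1) (ℓ a.2.1) (ℓ a.2.2))) (mem_univ (i, j, k))
    exact_mod_cast this
  · intro i j hij
    obtain ⟨k, hk⟩ : ∃ k, cr (ℓ i) (ℓ j) k ≠ 0 := by
      by_contra hcon
      push Not at hcon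
      exact hc i j hij (funext hcon)
    refine ⟨k, hk, (dvd_nz hk).trans ?_⟩
    have : nz (cr (ℓ i) (ℓ j) k) ∣ Θ := by
      rw [hΘ]
      refine Dvd.dvd.mul_right (Dvd.dvd.mul_left ?_ _) _
      exact Finset.dvd_prod_of_mem (fun a : Fin q × Fin q × Fin 3 =>
        nz (cr (ℓ a.1) (ℓ a.2.1) a.2.2)) (mem_univ (i, j, k))
    exact_mod_cast this
  · intro i
    obtain ⟨k, hk⟩ : ∃ k, ℓ i k ≠ 0 := by
      by_contra hcon
      push Not at hcon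
      exact hl i (funext hcon)
    refine ⟨k, hk, (dvd_nz hk).trans ?_⟩
    have : nz (ℓ i k) ∣ Θ := by
      rw [hΘ]
      refine Dvd.dvd.mul_left ?_ _
      exact Finset.dvd_prod_of_mem (fun a : Fin q × Fin 3 => nz (ℓ a.1 a.2)) (mem_univ (i, k))
    exact_mod_cast this

section

variable {q : ℕ} {ℓ : Fin q → Fin 3 → ℤ} {Θ H : ℕ}

lemma GP.c0 (g : GP ℓ Θ H) {i j : Fin q} (hij : i ≠ j) : cr (ℓ i) (ℓ j) ≠ 0 := by
  obtain ⟨k, hk, -⟩ := g.c i j hij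
  intro h
  rw [h] at hk
  exact hk rfl

lemma GP.exists_l (g : GP ℓ Θ H) {p : ℕ} (hp : ¬ p ∣ Θ) (i : Fin q) :
    ∃ k, ¬ (p : ℤ) ∣ ℓ i k := by
  obtain ⟨k, -, hk⟩ := g.l i
  exact ⟨k, fun h => hp (by exact_mod_cast h.trans hk)⟩

lemma GP.exists_c (g : GP ℓ Θ H) {p : ℕ} (hp : ¬ p ∣ Θ) {i j : Fin q} (hij : i ≠ j) :
    ∃ k, ¬ (p : ℤ) ∣ cr (ℓ i) (ℓ j) k := by
  obtain ⟨k, -, hk⟩ := g.c i j hij
  exact ⟨k, fun h => hp (by exact_mod_cast h.trans hk)⟩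

lemma GP.not_dvd_d (g : GP ℓ Θ H) {p : ℕ} (hp : ¬ p ∣ Θ) {i j k : Fin q} (hij : i ≠ j)
    (hik : i ≠ k) (hjk : j ≠ k) : ¬ (p : ℤ) ∣ dt (ℓ i) (ℓ j) (ℓ k) := by
  intro h
  exact hp (by exact_mod_cast h.trans (g.d i j k hij hik hjk).2)

end

/-- `ℓ_k u = u_k ℓ + m u''` -/
lemma cr_mod {u ℓ : Fin 3 → ℤ} {m : ℤ} (h : ∀ j, m ∣ cr u ℓ j) (k : Fin 3) :
    ∃ u'' : Fin 3 → ℤ, ∀ j, ℓ k * u j = u k * ℓ j + m * u'' j := by
  have h0 := h 0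
  have h1 := h 1
  have h2 := h 2
  rw [cr_zero] at h0
  rw [cr_one] at h1
  rw [cr_two] at h2
  obtain ⟨a, ha⟩ := h0
  obtain ⟨b, hb⟩ := h1
  obtain ⟨c, hc⟩ := h2
  have key : ∀ j, m ∣ ℓ k * u j - u k * ℓ j := by
    intro j
    fin_cases k <;> fin_cases j
    · exact ⟨0, by simp; ring⟩
    · exact ⟨-c, by simp only [Fin.zero_eta, Fin.mk_one]; linear_combination -hc⟩
    · exact ⟨b, by simp only [Fin.zero_eta, Fin.reduceFinMk]; linear_combination hb⟩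
    · exact ⟨c, by simp only [Fin.zero_eta, Fin.mk_one]; linear_combination hc⟩
    · exact ⟨0, by simp; ring⟩
    · exact ⟨-a, by simp only [Fin.mk_one, Fin.reduceFinMk]; linear_combination -ha⟩
    · exact ⟨-b, by simp only [Fin.zero_eta, Fin.reduceFinMk]; linear_combination -hb⟩
    · exact ⟨a, by simp only [Fin.mk_one, Fin.reduceFinMk]; linear_combination ha⟩
    · exact ⟨0, by simp; ring⟩
  choose e he using key
  exact ⟨e, fun j => by linear_combination he j⟩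

lemma cr_dvd {v w ℓ : Fin 3 → ℤ} {m : ℤ} (hv : ∀ j, m ∣ cr v ℓ j) (hw : ∀ j, m ∣ cr w ℓ j)
    (k j : Fin 3) : m ∣ (ℓ k) ^ 2 * cr v w j := by
  obtain ⟨v', hv'⟩ := cr_mod hv k
  obtain ⟨w', hw'⟩ := cr_mod hw k
  have key : ∀ a b : Fin 3, m ∣ (ℓ k * v a) * (ℓ k * w b) - (ℓ k * v b) * (ℓ k * w a) := by
    intro a b
    rw [hv' a, hv' b, hw' a, hw' b]
    exact ⟨v k * ℓ a * w' b + w k * ℓ b * v' a + m * v' a * w' b -
      (v k * ℓ b * w' a + w k * ℓ a * v' b + m * v' b * w' a), by ring⟩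
  fin_cases j
  · convert key 1 2 using 1
    change _ * cr v w 0 = _
    rw [cr_zero]; ring
  · convert key 2 0 using 1
    change _ * cr v w 1 = _
    rw [cr_one]; ring
  · convert key 0 1 using 1
    change _ * cr v w 2 = _
    rw [cr_two]; ring

lemma dt_dvd {v w ℓ : Fin 3 → ℤ} {m : ℤ} (hv : ∀ j, m ∣ cr v ℓ j) (hw : ∀ j, m ∣ cr w ℓ j)
    (k : Fin 3) : m ^ 2 ∣ (ℓ k) ^ 2 * dt ℓ v w := by
  obtain ⟨v', hv'⟩ := cr_mod hv k
  obtain ⟨w', hw'⟩ := cr_mod hw k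
  have h1 : (ℓ k) ^ 2 * dt ℓ v w =
      ℓ 0 * ((ℓ k * v 1) * (ℓ k * w 2) - (ℓ k * v 2) * (ℓ k * w 1)) +
      ℓ 1 * ((ℓ k * v 2) * (ℓ k * w 0) - (ℓ k * v 0) * (ℓ k * w 2)) +
      ℓ 2 * ((ℓ k * v 0) * (ℓ k * w 1) - (ℓ k * v 1) * (ℓ k * w 0)) := by
    rw [dt_eq]; ring
  rw [h1, hv' 0, hv' 1, hv' 2, hw' 0, hw' 1, hw' 2]
  exact ⟨dt ℓ v' w', by rw [dt_eq]; ring⟩

lemma dt_dvd3 {u v w ℓ : Fin 3 → ℤ} {m : ℤ} (hu : ∀ j, m ∣ cr u ℓ j) (hv : ∀ j, m ∣ cr v ℓ j)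
    (hw : ∀ j, m ∣ cr w ℓ j) (k : Fin 3) : m ^ 2 ∣ (ℓ k) ^ 3 * dt u v w := by
  obtain ⟨u', hu'⟩ := cr_mod hu k
  obtain ⟨v', hv'⟩ := cr_mod hv k
  obtain ⟨w', hw'⟩ := cr_mod hw k
  have h1 : (ℓ k) ^ 3 * dt u v w =
      (ℓ k * u 0) * ((ℓ k * v 1) * (ℓ k * w 2) - (ℓ k * v 2) * (ℓ k * w 1)) +
      (ℓ k * u 1) * ((ℓ k * v 2) * (ℓ k * w 0) - (ℓ k * v 0) * (ℓ k * w 2)) +
      (ℓ k * u 2) * ((ℓ k * v 0) * (ℓ k * w 1) - (ℓ k * v 1) * (ℓ k * w 0)) := by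
    rw [dt_eq]; ring
  rw [h1, hu' 0, hu' 1, hu' 2, hv' 0, hv' 1, hv' 2, hw' 0, hw' 1, hw' 2]
  exact ⟨u k * dt ℓ v' w' + v k * dt u' ℓ w' + w k * dt u' v' ℓ + m * dt u' v' w', by
    simp only [dt_eq]; ring⟩

/-- two forms -/
lemma dvd_of_two {V a b : Fin 3 → ℤ} {m : ℤ} (ha : ∀ j, m ∣ cr V a j) (hb : ∀ j, m ∣ cr V b j)
    (k j : Fin 3) : m ∣ V k * cr a b j := by
  -- `V_k a = a_k V - m V'`
  obtain ⟨V', hV'⟩ := cr_mod ha k
  have h0 := hb 0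
  have h1 := hb 1
  have h2 := hb 2
  rw [cr_zero] at h0
  rw [cr_one] at h1
  rw [cr_two] at h2
  fin_cases j
  · change m ∣ V k * cr a b 0
    rw [cr_zero]
    have : V k * (a 1 * b 2 - a 2 * b 1) = a k * (V 1 * b 2 - V 2 * b 1) -
        m * (V' 1 * b 2 - V' 2 * b 1) := by linear_combination -(b 2) * hV' 1 + b 1 * hV' 2
    rw [this]
    exact dvd_sub (Dvd.dvd.mul_left h0 _) ⟨_, rfl⟩
  · change m ∣ V k * cr a b 1
    rw [cr_one]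
    have : V k * (a 2 * b 0 - a 0 * b 2) = a k * (V 2 * b 0 - V 0 * b 2) -
        m * (V' 2 * b 0 - V' 0 * b 2) := by linear_combination -(b 0) * hV' 2 + b 2 * hV' 0
    rw [this]
    exact dvd_sub (Dvd.dvd.mul_left h1 _) ⟨_, rfl⟩
  · change m ∣ V k * cr a b 2
    rw [cr_two]
    have : V k * (a 0 * b 1 - a 1 * b 0) = a k * (V 0 * b 1 - V 1 * b 0) -
        m * (V' 0 * b 1 - V' 1 * b 0) := by linear_combination -(b 1) * hV' 0 + b 0 * hV' 1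
    rw [this]
    exact dvd_sub (Dvd.dvd.mul_left h2 _) ⟨_, rfl⟩

/-- three forms -/
lemma dvd_of_dt {Y a b c : Fin 3 → ℤ} {m : ℤ} (ha : ∀ j, m ∣ cr Y a j) (h0 : dt Y b c = 0)
    (k : Fin 3) : m ∣ Y k * dt a b c := by
  obtain ⟨Y', hY'⟩ := cr_mod ha k
  have h1 : Y k * dt a b c = a k * dt Y b c - m * dt Y' b c := by
    simp only [dt_eq]
    linear_combination -(b 1 * c 2 - b 2 * c 1) * hY' 0 - (b 2 * c 0 - b 0 * c 2) * hY' 1 -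
      (b 0 * c 1 - b 1 * c 0) * hY' 2
  rw [h1, h0, mul_zero, zero_sub]
  exact (Dvd.intro _ rfl).neg_right

lemma dvd_dt_left {Y a b : Fin 3 → ℤ} {m : ℤ} (ha : ∀ j, m ∣ cr Y a j) : m ∣ dt Y a b := by
  have h1 : dt Y a b = cr Y a 0 * b 0 + cr Y a 1 * b 1 + cr Y a 2 * b 2 := by
    rw [dt_eq, cr_zero, cr_one, cr_two]; ring
  rw [h1]
  exact dvd_add (dvd_add (Dvd.dvd.mul_right (ha 0) _) (Dvd.dvd.mul_right (ha 1) _))
    (Dvd.dvd.mul_right (ha 2) _)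

lemma dvd_dt_right {Y a b : Fin 3 → ℤ} {m : ℤ} (hb : ∀ j, m ∣ cr Y b j) : m ∣ dt Y a b := by
  have h1 : dt Y a b = -(cr Y b 0 * a 0 + cr Y b 1 * a 1 + cr Y b 2 * a 2) := by
    rw [dt_eq, cr_zero, cr_one, cr_two]; ring
  rw [h1]
  exact (dvd_add (dvd_add (Dvd.dvd.mul_right (hb 0) _) (Dvd.dvd.mul_right (hb 1) _))
    (Dvd.dvd.mul_right (hb 2) _)).neg_right

/-- squarefree divisors -/
lemma sqf_dvd {t : ℕ} (ht : Squarefree t) (e : ℕ) {N : ℤ}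
    (h : ∀ p : ℕ, p.Prime → p ∣ t → ((p : ℤ) ^ e) ∣ N) : ((t : ℤ) ^ e) ∣ N := by
  have h1 : t ^ e ∣ N.natAbs := by
    conv_lhs => rw [← Nat.prod_primeFactors_of_squarefree ht]
    rw [← Finset.prod_pow]
    refine Finset.prod_dvd_of_isRelPrime ?_ ?_
    · intro p hp p' hp' hne
      have hp := Nat.prime_of_mem_primeFactors (Finset.mem_coe.1 hp)
      have hp' := Nat.prime_of_mem_primeFactors (Finset.mem_coe.1 hp')
      exact Nat.coprime_iff_isRelPrime.1 (Nat.Coprime.pow _ _ ((Nat.coprime_primes hp hp').2 hne))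
    · intro p hp
      have hp1 := Nat.prime_of_mem_primeFactors hp
      have hp2 := Nat.dvd_of_mem_primeFactors hp
      have := h p hp1 hp2
      have h3 : ((p ^ e : ℕ) : ℤ) ∣ N := by exact_mod_cast this
      exact Int.natCast_dvd.1 h3
  have h2 : ((t ^ e : ℕ) : ℤ) ∣ N := Int.natCast_dvd.2 h1
  exact_mod_cast h2

/-- cancel a unit -/
lemma dvd_cancel {p : ℕ} (hp : p.Prime) {a N : ℤ} (ha : ¬ (p : ℤ) ∣ a) (e f : ℕ)
    (h : (p : ℤ) ^ e ∣ a ^ f * N) : (p : ℤ) ^ e ∣ N := by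
  have hp' : Prime (p : ℤ) := Nat.prime_iff_prime_int.1 hp
  have hc : IsCoprime ((p : ℤ) ^ e) (a ^ f) :=
    ((hp'.coprime_iff_not_dvd).2 ha).pow
  exact hc.dvd_of_dvd_mul_left h

end Pool.Agent.K4H9.PP
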