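import Mathlib
import Pool.Agent.H353R2.Z2

set_option autoImplicit false

/-!
Elementary counting of tuples of positive integers.
-/

namespace Pool.Agent.K4H9.PP

open Finset

/-- the product of the primes which divide `n` -/
def rd (n : ℕ) : ℕ := ∏ p ∈ n.primeFactors, p

lemma rd_pos (n : ℕ) : 0 < rd n :=
  Finset.prod_pos fun _ hp => (Nat.prime_of_mem_primeFactors hp).pos

lemma rd_dvd {n : ℕ} (_h : n ≠ 0) : rd n ∣ n := Nat.prod_primeFactors_dvd n

lemma rd_primeFactors (n : ℕ) : (rd n).primeFactors = n.primeFactors :=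
  Nat.primeFactors_prod fun _ hp => Nat.prime_of_mem_primeFactors hp

lemma prime_dvd_rd {n p : ℕ} (hn : n ≠ 0) (hp : p.Prime) : p ∣ rd n ↔ p ∣ n := by
  have h1 : p ∈ (rd n).primeFactors ↔ p ∈ n.primeFactors := by rw [rd_primeFactors]
  rw [Nat.mem_primeFactors, Nat.mem_primeFactors] at h1
  constructor
  · intro h
    exact (h1.1 ⟨hp, h, (rd_pos n).ne'⟩).2.1
  · intro h
    exact (h1.2 ⟨hp, h, hn⟩).2.1

lemma rd_squarefree (n : ℕ) : Squarefree (rd n) := by
  rw [Nat.squarefree_iff_prime_squarefree]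
  intro p hp hpp
  have hmem : p ∈ n.primeFactors := by
    rw [← rd_primeFactors, Nat.mem_primeFactors]
    exact ⟨hp, (Dvd.intro _ rfl).trans hpp, (rd_pos n).ne'⟩
  unfold rd at hpp
  rw [← Finset.mul_prod_erase _ _ hmem] at hpp
  have h1 : p ∣ ∏ x ∈ n.primeFactors.erase p, x := Nat.dvd_of_mul_dvd_mul_left hp.pos hpp
  obtain ⟨r, hr, hpr⟩ := (hp.prime.dvd_finsetProd_iff _).1 h1
  rw [mem_erase] at hr
  exact hr.1 ((Nat.prime_dvd_prime_iff_eq hp (Nat.prime_of_mem_primeFactors hr.2)).1 hpr).symm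

lemma card_tuples_eq (q : ℕ) {ε : ℝ} (hε : 0 < ε) : ∃ C : ℝ, 0 < C ∧ ∀ n : ℕ, 1 ≤ n →
    ∀ T : Finset (Fin q → ℕ), (∀ t ∈ T, ∀ l, t l ∣ n) → (T.card : ℝ) ≤ C * (n : ℝ) ^ ε := by
  classical
  obtain ⟨C, hC0, hC⟩ := H353.divisor_bound_real (ε / (q + 1)) (by positivity)
  refine ⟨C ^ q, by positivity, fun n hn T hT => ?_⟩
  have hn1 : (1 : ℝ) ≤ n := by exact_mod_cast hn
  have h1 : T ⊆ Fintype.piFinset fun _ : Fin q => n.divisors := by
    intro t ht
    rw [Fintype.mem_piFinset]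
    intro l
    rw [Nat.mem_divisors]
    exact ⟨hT t ht l, by omega⟩
  have h2 := Finset.card_le_card h1
  rw [Fintype.card_piFinset_const] at h2
  have h3 : (T.card : ℝ) ≤ (n.divisors.card : ℝ) ^ q := by exact_mod_cast h2
  refine h3.trans ?_
  calc (n.divisors.card : ℝ) ^ q ≤ (C * (n : ℝ) ^ (ε / (q + 1))) ^ q :=
        pow_le_pow_left₀ (Nat.cast_nonneg _) (hC n (by omega)) _
    _ = C ^ q * (n : ℝ) ^ (ε / (q + 1) * q) := by
        rw [mul_pow, ← Real.rpow_natCast ((n : ℝ) ^ (ε / (q + 1))), ← Real.rpow_mul (by positivity)]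
    _ ≤ C ^ q * (n : ℝ) ^ ε := by
        refine mul_le_mul_of_nonneg_left ?_ (by positivity)
        refine Real.rpow_le_rpow_of_exponent_le hn1 ?_
        rw [div_mul_eq_mul_div, div_le_iff₀ (by positivity)]
        nlinarith

lemma card_tuples_le (q : ℕ) {ε : ℝ} (hε : 0 < ε) : ∃ C : ℝ, 0 < C ∧ ∀ Z : ℕ, 1 ≤ Z →
    ∀ T : Finset (Fin q → ℕ), (∀ t ∈ T, 1 ≤ ∏ l, t l ∧ ∏ l, t l ≤ Z) →
      (T.card : ℝ) ≤ C * (Z : ℝ) ^ (1 + ε) := by
  classical
  obtain ⟨C, hC0, hC⟩ := card_tuples_eq q hε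
  refine ⟨C, hC0, fun Z hZ T hT => ?_⟩
  have hZ0 : (0 : ℝ) < Z := by exact_mod_cast hZ
  have h1 : T.card = ∑ n ∈ Icc 1 Z, (T.filter fun t => ∏ l, t l = n).card :=
    Finset.card_eq_sum_card_fiberwise fun t ht => by
      rw [Finset.mem_coe, mem_Icc]
      exact hT t ht
  rw [h1]
  push_cast
  calc ∑ n ∈ Icc 1 Z, ((T.filter fun t => ∏ l, t l = n).card : ℝ) ≤
        ∑ n ∈ Icc 1 Z, C * (Z : ℝ) ^ ε := by
        refine Finset.sum_le_sum fun n hn => ?_
        rw [mem_Icc] at hn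
        refine (hC n hn.1 _ fun t ht l => ?_).trans ?_
        · rw [mem_filter] at ht
          rw [← ht.2]
          exact Finset.dvd_prod_of_mem _ (mem_univ l)
        · refine mul_le_mul_of_nonneg_left ?_ hC0.le
          refine Real.rpow_le_rpow (Nat.cast_nonneg _) ?_ hε.le
          exact_mod_cast hn.2
    _ = C * (Z : ℝ) ^ (1 + ε) := by
        rw [Finset.sum_const, Nat.card_Icc, nsmul_eq_mul, Real.rpow_add hZ0, Real.rpow_one]
        have : ((Z + 1 - 1 : ℕ) : ℝ) = Z := by simp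
        rw [this]
        ring

/-- numbers whose prime factors divide `R` -/
lemma card_supp {ε : ℝ} (hε : 0 < ε) : ∃ C : ℝ, 0 < C ∧ ∀ R : ℕ, 1 ≤ R → ∀ X : ℝ, 1 ≤ X →
    ∀ U : Finset ℕ, (∀ n ∈ U, 1 ≤ n ∧ (n : ℝ) ≤ X ∧ n.primeFactors ⊆ R.primeFactors) →
      (U.card : ℝ) ≤ C * (X ^ ε * (R : ℝ) ^ ε) := by
  classical
  obtain ⟨P, hP⟩ := exists_nat_ge ((2 : ℝ) ^ (1 / ε))
  set G : ℝ := (1 - (2 : ℝ) ^ (-ε))⁻¹ with hG
  have h2ε : (2 : ℝ) ^ (-ε) < 1 := by
    rw [Real.rpow_neg (by norm_num)]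
    exact inv_lt_one_of_one_lt₀ (Real.one_lt_rpow (by norm_num) hε)
  have h2ε0 : 0 < (2 : ℝ) ^ (-ε) := by positivity
  have hG1 : 1 ≤ G := by
    rw [hG]
    exact (one_le_inv₀ (by linarith)).2 (by linarith)
  refine ⟨G ^ P, by positivity, fun R hR X hX U hU => ?_⟩
  have hX0 : 0 < X := by linarith
  let f : ℕ →* ℝ :=
    { toFun := fun n => (n : ℝ) ^ (-ε)
      map_one' := by simp
      map_mul' := fun a b => by
        push_cast
        exact Real.mul_rpow (Nat.cast_nonneg _) (Nat.cast_nonneg _) }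
  have hf : ∀ n : ℕ, f n = (n : ℝ) ^ (-ε) := fun n => rfl
  have hfp : ∀ {p : ℕ}, p.Prime → ‖f p‖ < 1 := by
    intro p hp
    rw [hf, Real.norm_of_nonneg (by positivity), Real.rpow_neg (Nat.cast_nonneg _)]
    exact inv_lt_one_of_one_lt₀ (Real.one_lt_rpow (by exact_mod_cast hp.one_lt) hε)
  obtain ⟨-, hsum⟩ :=
    EulerProduct.summable_and_hasSum_factoredNumbers_prod_filter_prime_geometric hfp R.primeFactors
  have hUf : ∀ n ∈ U, n ∈ Nat.factoredNumbers R.primeFactors := by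
    intro n hn
    obtain ⟨h1, -, h3⟩ := hU n hn
    rw [Nat.mem_factoredNumbers_iff_primeFactors_subset]
    exact ⟨by omega, h3⟩
  have h1 : ∑ n ∈ U, f n ≤ ∏ p ∈ R.primeFactors with p.Prime, (1 - f p)⁻¹ := by
    have h2 : ∑ n ∈ U, f n = ∑ n ∈ U.subtype (fun n => n ∈ Nat.factoredNumbers R.primeFactors),
        f (n : ℕ) := by
      rw [Finset.sum_subtype_eq_sum_filter]
      rw [Finset.filter_true_of_mem hUf]
    rw [h2]
    exact sum_le_hasSum _ (fun n _ => by rw [hf]; positivity) hsum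
  have h3 : (U.card : ℝ) ≤ X ^ ε * ∑ n ∈ U, f n := by
    rw [Finset.card_eq_sum_ones, Nat.cast_sum, Finset.mul_sum]
    refine Finset.sum_le_sum fun n hn => ?_
    obtain ⟨h4, h5, -⟩ := hU n hn
    have hn0 : (0 : ℝ) < n := by exact_mod_cast h4
    rw [hf, Real.rpow_neg hn0.le, ← div_eq_mul_inv, Nat.cast_one, le_div_iff₀ (by positivity),
      one_mul]
    exact Real.rpow_le_rpow hn0.le h5 hε.le
  have h6 : ∏ p ∈ R.primeFactors with p.Prime, (1 - f p)⁻¹ ≤ G ^ P * (R : ℝ) ^ ε := by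
    have e1 : (R.primeFactors.filter fun p => p.Prime) = R.primeFactors :=
      Finset.filter_true_of_mem fun p hp => Nat.prime_of_mem_primeFactors hp
    rw [e1]
    have hterm : ∀ p ∈ R.primeFactors, (1 - f p)⁻¹ ≤ (if p < P then G else 1) * (p : ℝ) ^ ε := by
      intro p hp
      have hpp := Nat.prime_of_mem_primeFactors hp
      have hp2 : (2 : ℝ) ≤ p := by exact_mod_cast hpp.two_le
      have hp0 : (0 : ℝ) < p := by linarith
      have hpε : 1 ≤ (p : ℝ) ^ ε := Real.one_le_rpow (by linarith) hε.le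
      rw [hf]
      split_ifs with h
      · have h7 : (p : ℝ) ^ (-ε) ≤ (2 : ℝ) ^ (-ε) :=
          Real.rpow_le_rpow_of_nonpos (by norm_num) hp2 (by linarith)
        have h8 : (1 - (p : ℝ) ^ (-ε))⁻¹ ≤ G := inv_anti₀ (by linarith) (by linarith)
        nlinarith
      · have h9 : (2 : ℝ) ^ (1 / ε) ≤ p := hP.trans (by exact_mod_cast not_lt.1 h)
        have h10 : (2 : ℝ) ≤ (p : ℝ) ^ ε := by
          have := Real.rpow_le_rpow (by positivity) h9 hε.le
          rwa [← Real.rpow_mul (by norm_num), one_div_mul_cancel hε.ne', Real.rpow_one] at this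
        rw [one_mul, Real.rpow_neg hp0.le]
        have h11 : ((p : ℝ) ^ ε)⁻¹ ≤ 2⁻¹ := inv_anti₀ (by norm_num) h10
        calc (1 - ((p : ℝ) ^ ε)⁻¹)⁻¹ ≤ (1 - 2⁻¹ : ℝ)⁻¹ := inv_anti₀ (by norm_num) (by linarith)
          _ = 2 := by norm_num
          _ ≤ _ := h10
    have hpos : ∀ p ∈ R.primeFactors, 0 ≤ (1 - f p)⁻¹ := by
      intro p hp
      have := hfp (Nat.prime_of_mem_primeFactors hp)
      rw [inv_nonneg]
      have := (abs_lt.1 (by simpa using this)).2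
      linarith
    refine (Finset.prod_le_prod hpos hterm).trans ?_
    rw [Finset.prod_mul_distrib]
    refine mul_le_mul ?_ ?_ (Finset.prod_nonneg fun p _ => by positivity) (by positivity)
    · rw [Finset.prod_ite, Finset.prod_const, Finset.prod_const_one, mul_one]
      refine pow_le_pow_right₀ hG1 ?_
      have : (R.primeFactors.filter fun p => p < P) ⊆ Finset.range P := by
        intro p hp
        rw [mem_range]
        exact (mem_filter.1 hp).2
      simpa using Finset.card_le_card this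
    · rw [Real.finsetProd_rpow _ _ fun p _ => Nat.cast_nonneg _]
      refine Real.rpow_le_rpow (Finset.prod_nonneg fun p _ => Nat.cast_nonneg _) ?_ hε.le
      have : rd R ≤ R := Nat.le_of_dvd hR (rd_dvd (by omega))
      have h12 : ((rd R : ℕ) : ℝ) ≤ R := by exact_mod_cast this
      unfold rd at h12
      push_cast at h12
      exact h12
  calc (U.card : ℝ) ≤ X ^ ε * ∑ n ∈ U, f n := h3
    _ ≤ X ^ ε * (G ^ P * (R : ℝ) ^ ε) := by
        refine mul_le_mul_of_nonneg_left (h1.trans h6) (by positivity)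
    _ = _ := by ring

/-- the sum of the inverse radicals -/
theorem sum_inv_rd (q : ℕ) {ε : ℝ} (hε : 0 < ε) : ∃ C : ℝ, 0 < C ∧ ∀ X : ℕ, 1 ≤ X →
    ∑ m ∈ Fintype.piFinset (fun _ : Fin q => Icc 1 X), 1 / (rd (∏ l, m l) : ℝ) ≤
      C * (X : ℝ) ^ ε := by
  classical
  set η : ℝ := ε / (2 * ((q + 1) * (q + 1))) with hη
  have hη0 : 0 < η := by positivity
  obtain ⟨C, hC0, hC⟩ := card_supp hη0
  refine ⟨C ^ q * (1 + q * (2 / ε)), by positivity, fun X hX => ?_⟩
  have hX1 : (1 : ℝ) ≤ X := by exact_mod_cast hX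
  have hX0 : (0 : ℝ) < X := by linarith
  set F := Fintype.piFinset (fun _ : Fin q => Icc 1 X) with hF
  have hmF : ∀ m ∈ F, ∀ l, 1 ≤ m l ∧ m l ≤ X := by
    intro m hm l
    rw [hF, Fintype.mem_piFinset] at hm
    exact mem_Icc.1 (hm l)
  have hprod : ∀ m ∈ F, 1 ≤ ∏ l, m l ∧ ∏ l, m l ≤ X ^ q := by
    intro m hm
    refine ⟨(Finset.prod_pos fun l _ => (hmF m hm l).1 : 0 < ∏ l, m l), ?_⟩
    calc ∏ l, m l ≤ ∏ _l : Fin q, X := Finset.prod_le_prod' fun l _ => (hmF m hm l).2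
      _ = X ^ q := by simp
  have hmaps : ∀ m ∈ F, rd (∏ l, m l) ∈ Icc 1 (X ^ q) := by
    intro m hm
    obtain ⟨h1, h2⟩ := hprod m hm
    rw [mem_Icc]
    exact ⟨rd_pos _, (Nat.le_of_dvd h1 (rd_dvd (by omega))).trans h2⟩
  have hXq : (1 : ℝ) ≤ (X : ℝ) ^ q := one_le_pow₀ hX1
  have hfib : ∀ R ∈ Icc 1 (X ^ q), ∑ m ∈ F with rd (∏ l, m l) = R, 1 / (rd (∏ l, m l) : ℝ) ≤
      C ^ q * (X : ℝ) ^ (ε / 2) * (1 / (R : ℝ)) := by
    intro R hR
    rw [mem_Icc] at hR
    have hR0 : (0 : ℝ) < R := by exact_mod_cast hR.1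
    set T := F.filter fun m => rd (∏ l, m l) = R with hT
    have h1 : ∑ m ∈ T, 1 / (rd (∏ l, m l) : ℝ) = T.card * (1 / (R : ℝ)) := by
      rw [← nsmul_eq_mul, ← Finset.sum_const]
      refine Finset.sum_congr rfl fun m hm => ?_
      rw [hT, mem_filter] at hm
      rw [hm.2]
    rw [h1]
    refine mul_le_mul_of_nonneg_right ?_ (by positivity)
    set U := (Icc 1 X).filter fun n => n.primeFactors ⊆ R.primeFactors with hU
    have h2 : T ⊆ Fintype.piFinset fun _ : Fin q => U := by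
      intro m hm
      rw [hT, mem_filter] at hm
      rw [Fintype.mem_piFinset]
      intro l
      rw [hU, mem_filter, mem_Icc]
      refine ⟨hmF m hm.1 l, ?_⟩
      rw [← hm.2, rd_primeFactors]
      exact Nat.primeFactors_mono (Finset.dvd_prod_of_mem _ (mem_univ l))
        (by have := (hprod m hm.1).1; omega)
    have h3 := Finset.card_le_card h2
    rw [Fintype.card_piFinset_const] at h3
    have h4 := hC R hR.1 X hX1 U (by
      intro n hn
      rw [hU, mem_filter, mem_Icc] at hn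
      exact ⟨hn.1.1, by exact_mod_cast hn.1.2, hn.2⟩)
    have hRX : (R : ℝ) ≤ (X : ℝ) ^ q := by exact_mod_cast hR.2
    have h5 : (U.card : ℝ) ≤ C * (X : ℝ) ^ (η * (q + 1)) := by
      refine h4.trans (mul_le_mul_of_nonneg_left ?_ hC0.le)
      calc (X : ℝ) ^ η * (R : ℝ) ^ η ≤ (X : ℝ) ^ η * ((X : ℝ) ^ q) ^ η :=
            mul_le_mul_of_nonneg_left (Real.rpow_le_rpow hR0.le hRX hη0.le) (by positivity)
        _ = (X : ℝ) ^ (η * (q + 1)) := by
            rw [← Real.rpow_natCast (X : ℝ) q, ← Real.rpow_mul hX0.le, ← Real.rpow_add hX0]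
            congr 1
            ring
    calc (T.card : ℝ) ≤ (U.card : ℝ) ^ q := by exact_mod_cast h3
      _ ≤ (C * (X : ℝ) ^ (η * (q + 1))) ^ q := pow_le_pow_left₀ (Nat.cast_nonneg _) h5 _
      _ = C ^ q * (X : ℝ) ^ (η * (q + 1) * q) := by
          rw [mul_pow, ← Real.rpow_natCast ((X : ℝ) ^ (η * (q + 1))), ← Real.rpow_mul hX0.le]
      _ ≤ C ^ q * (X : ℝ) ^ (ε / 2) := by
          refine mul_le_mul_of_nonneg_left ?_ (by positivity)
          refine Real.rpow_le_rpow_of_exponent_le hX1 ?_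
          rw [hη]
          have hq : (0 : ℝ) ≤ q := Nat.cast_nonneg q
          rw [show ε / (2 * (((q : ℝ) + 1) * (q + 1))) * (q + 1) * q = (ε / 2) * (q / (q + 1)) by
            field_simp]
          have : (q : ℝ) / (q + 1) ≤ 1 := by
            rw [div_le_one (by positivity)]
            linarith
          nlinarith
  have hsum : ∑ m ∈ F, 1 / (rd (∏ l, m l) : ℝ) =
      ∑ R ∈ Icc 1 (X ^ q), ∑ m ∈ F with rd (∏ l, m l) = R, 1 / (rd (∏ l, m l) : ℝ) :=
    (Finset.sum_fiberwise_of_maps_to hmaps _).symm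
  rw [hsum]
  refine (Finset.sum_le_sum hfib).trans ?_
  rw [← Finset.mul_sum]
  have hharm : ∑ R ∈ Icc 1 (X ^ q), (1 / (R : ℝ)) ≤ 1 + q * Real.log X := by
    have h1 := harmonic_le_one_add_log (X ^ q)
    rw [harmonic_eq_sum_Icc] at h1
    push_cast at h1
    rw [Real.log_pow] at h1
    refine le_trans (le_of_eq ?_) h1
    exact Finset.sum_congr rfl fun i _ => by rw [one_div]
  have hlog : Real.log X ≤ (2 / ε) * (X : ℝ) ^ (ε / 2) := by
    have := Real.log_le_rpow_div hX0.le (half_pos hε)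
    rw [div_div_eq_mul_div] at this
    calc Real.log X ≤ (X : ℝ) ^ (ε / 2) * 2 / ε := this
      _ = _ := by ring
  have hXe : 1 ≤ (X : ℝ) ^ (ε / 2) := Real.one_le_rpow hX1 (by positivity)
  have hfin : 1 + q * Real.log X ≤ (1 + q * (2 / ε)) * (X : ℝ) ^ (ε / 2) := by
    have hq : (0 : ℝ) ≤ q := Nat.cast_nonneg q
    nlinarith [mul_le_mul_of_nonneg_left hlog hq]
  calc C ^ q * (X : ℝ) ^ (ε / 2) * ∑ R ∈ Icc 1 (X ^ q), (1 / (R : ℝ)) ≤
        C ^ q * (X : ℝ) ^ (ε / 2) * ((1 + q * (2 / ε)) * (X : ℝ) ^ (ε / 2)) :=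
        mul_le_mul_of_nonneg_left (hharm.trans hfin) (by positivity)
    _ = C ^ q * (1 + q * (2 / ε)) * ((X : ℝ) ^ (ε / 2) * (X : ℝ) ^ (ε / 2)) := by ring
    _ = _ := by rw [← Real.rpow_add hX0, add_halves]

end Pool.Agent.K4H9.PP
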