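import Pool.Agent.K4H9.PP.Up

set_option autoImplicit false

/-!
The lower bounds.
-/

namespace Pool.Agent.K4H9.PP

open Finset

lemma sum_inv_sq (M : ℕ) (hM : 2 ≤ M) :
    ∑ d ∈ Icc 2 M, (1 / (d : ℝ) ^ 2) ≤ 3 / 4 - 1 / (M : ℝ) := by
  induction M, hM using Nat.le_induction with
  | base =>
    rw [Finset.Icc_self, Finset.sum_singleton]
    norm_num
  | succ n hn ih =>
    rw [← Finset.insert_Icc_right_eq_Icc_add_one (by omega), Finset.sum_insert (by simp)]
    have hn0 : (0 : ℝ) < n := by exact_mod_cast (by omega : 0 < n)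
    have h1 : 1 / ((n : ℝ) + 1) ^ 2 ≤ 1 / n - 1 / ((n : ℝ) + 1) := by
      rw [div_sub_div _ _ (by positivity) (by positivity), div_le_div_iff₀ (by positivity) (by positivity)]
      nlinarith
    push_cast
    linarith

/-- pairs of coprime integers -/
lemma coprime_pairs (M : ℕ) : (M : ℝ) ^ 2 / 4 ≤
    (((Ioc 0 M ×ˢ Ioc 0 M).filter fun x => x.1.Coprime x.2).card : ℝ) := by
  classical
  have hM0 : (0 : ℝ) ≤ M := Nat.cast_nonneg M
  set A := (Ioc 0 M ×ˢ Ioc 0 M).filter fun x => x.1.Coprime x.2 with hA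
  set A' := (Ioc 0 M ×ˢ Ioc 0 M).filter fun x => ¬ x.1.Coprime x.2 with hA'
  have h1 : A.card + A'.card = M * M := by
    rw [hA, hA', Finset.card_filter_add_card_filter_not, Finset.card_product, Nat.card_Ioc,
      Nat.sub_zero]
  have h2 : A' ⊆ (Icc 2 M).biUnion fun d =>
      ((Ioc 0 M).filter fun x => d ∣ x) ×ˢ ((Ioc 0 M).filter fun x => d ∣ x) := by
    intro x hx
    rw [hA', mem_filter, mem_product, mem_Ioc, mem_Ioc] at hx
    obtain ⟨⟨⟨h3, h4⟩, h5, h6⟩, h7⟩ := hx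
    rw [mem_biUnion]
    refine ⟨x.1.gcd x.2, ?_, ?_⟩
    · rw [mem_Icc]
      have h8 : x.1.gcd x.2 ≤ x.1 := Nat.gcd_le_left _ h3
      have h9 : 0 < x.1.gcd x.2 := Nat.gcd_pos_of_pos_left _ h3
      unfold Nat.Coprime at h7
      omega
    · rw [mem_product, mem_filter, mem_filter, mem_Ioc, mem_Ioc]
      exact ⟨⟨⟨h3, h4⟩, Nat.gcd_dvd_left _ _⟩, ⟨h5, h6⟩, Nat.gcd_dvd_right _ _⟩
  have h3 : (A'.card : ℝ) ≤ 3 / 4 * (M : ℝ) ^ 2 := by
    have h4 : (A'.card : ℝ) ≤ ∑ d ∈ Icc 2 M, (M : ℝ) ^ 2 * (1 / (d : ℝ) ^ 2) := by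
      have h5 : A'.card ≤ ∑ d ∈ Icc 2 M, (M / d) * (M / d) := by
        refine (Finset.card_le_card h2).trans (Finset.card_biUnion_le.trans ?_)
        refine Finset.sum_le_sum fun d _ => ?_
        rw [Finset.card_product, Nat.Ioc_filter_dvd_card_eq_div]
      have h6 : (A'.card : ℝ) ≤ ∑ d ∈ Icc 2 M, ((M / d : ℕ) : ℝ) * ((M / d : ℕ) : ℝ) := by
        exact_mod_cast h5
      refine h6.trans (Finset.sum_le_sum fun d hd => ?_)
      rw [mem_Icc] at hd
      have hd0 : (0 : ℝ) < d := by exact_mod_cast (by omega : 0 < d)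
      have h7 : ((M / d : ℕ) : ℝ) ≤ (M : ℝ) / d := Nat.cast_div_le
      calc ((M / d : ℕ) : ℝ) * ((M / d : ℕ) : ℝ) ≤ ((M : ℝ) / d) * ((M : ℝ) / d) :=
            mul_le_mul h7 h7 (Nat.cast_nonneg _) (by positivity)
        _ = _ := by field_simp
    rw [← Finset.mul_sum] at h4
    rcases le_or_gt 2 M with hM | hM
    · have h5 := sum_inv_sq M hM
      have h6 : (0 : ℝ) ≤ 1 / M := by positivity
      nlinarith [sq_nonneg (M : ℝ)]
    · have h5 : Icc 2 M = ∅ := Finset.Icc_eq_empty (by omega)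
      rw [h5, Finset.sum_empty, mul_zero] at h4
      nlinarith [sq_nonneg (M : ℝ)]
  have h4 : (A.card : ℝ) + A'.card = (M : ℝ) ^ 2 := by
    rw [sq]
    exact_mod_cast h1
  linarith

/-- divide by the content -/
lemma prim_image {G : ℕ} (hG : 1 ≤ G) (T : Finset (Fin 3 → ℤ)) (hT : ∀ z ∈ T, Cont G z) :
    ∃ T' : Finset (Fin 3 → ℤ), T.card ≤ G * T'.card ∧ ∀ Y ∈ T', Cont 1 Y ∧ ∃ z ∈ T, ∃ t : ℕ,
      1 ≤ t ∧ t ≤ G ∧ z = (t : ℤ) • Y := by
  classical
  have hex : ∀ z ∈ T, ∃ (t : ℕ) (Y : Fin 3 → ℤ), 1 ≤ t ∧ z = (t : ℤ) • Y ∧ Cont 1 Y :=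
    fun z hz => exists_prim (hT z hz).1
  choose! t Y h1 h2 h3 using hex
  have htG : ∀ z ∈ T, t z ≤ G := by
    intro z hz
    have h4 : ((t z : ℕ) : ℤ) ∣ (G : ℤ) := by
      refine (hT z hz).2 _ fun k => ?_
      rw [h2 z hz, Pi.smul_apply, smul_eq_mul, ← h2 z hz]
      exact Dvd.intro _ rfl
    exact Nat.le_of_dvd (by omega) (by exact_mod_cast h4)
  refine ⟨T.image Y, ?_, ?_⟩
  · refine Finset.card_le_mul_card_image_of_maps_to (fun z hz => mem_image_of_mem Y hz) G ?_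
    intro y _
    have h4 : ((T.filter fun z => Y z = y).card) ≤ (Icc 1 G).card := by
      refine Finset.card_le_card_of_injOn t ?_ ?_
      · intro z hz
        have hz' := (mem_filter.1 (Finset.mem_coe.1 hz)).1
        rw [Finset.mem_coe, mem_Icc]
        exact ⟨h1 z hz', htG z hz'⟩
      · intro z hz z' hz' h
        have e1 := mem_filter.1 (Finset.mem_coe.1 hz)
        have e2 := mem_filter.1 (Finset.mem_coe.1 hz')
        rw [h2 z e1.1, h2 z' e2.1, e1.2, e2.2, h]
    rwa [Nat.card_Icc, Nat.add_sub_cancel] at h4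
  · intro y hy
    obtain ⟨z, hz, rfl⟩ := mem_image.1 hy
    exact ⟨h3 z hz, z, hz, t z, h1 z hz, htG z hz, h2 z hz⟩

variable {q : ℕ} {L : Fin q → Fin 3 → ℤ} {Θ H : ℕ}

lemma crL_le (g : GP L Θ H) (i j : Fin q) (k : Fin 3) : |cr (L i) (L j) k| ≤ 2 * H ^ 2 := by
  have := cr_le g (Y := L i) (Z := H) (g.bd i) j k
  calc |cr (L i) (L j) k| ≤ 2 * H * H := this
    _ = _ := by ring

lemma coprime_dvd {u v : ℕ} (h : u.Coprime v) {d e : ℤ} (hu : d ∣ (u : ℤ) * e)
    (hv : d ∣ (v : ℤ) * e) : d ∣ e := by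
  obtain ⟨a, b, hab⟩ := Nat.isCoprime_iff_coprime.2 h
  have h1 : e = a * ((u : ℤ) * e) + b * ((v : ℤ) * e) := by linear_combination -e * hab
  rw [h1]
  exact dvd_add (Dvd.dvd.mul_left hu _) (Dvd.dvd.mul_left hv _)

/-- the first construction -/
theorem lower1 (g : GP L Θ H) {i j k : Fin q} (hij : i ≠ j) (hik : i ≠ k) (hjk : j ≠ k) {κ : ℝ}
    (hκ0 : 0 ≤ κ) (hκ1 : κ ≤ 1) :
    ∃ C m : ℝ, 0 < C ∧ 0 < m ∧ ∀ M : ℕ, 16 * q ≤ M → 1 ≤ M → ∃ T : Finset (Fin 3 → ℤ),
      m * (M : ℝ) ^ (3 - κ) ≤ (T.card : ℝ) ∧ ∀ x ∈ T, Cont 1 x ∧ nm x ≤ 6 * H ^ 2 * M ∧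
      (∀ l, dot x (L l) ≠ 0) ∧
      (rd (∏ l, (dot x (L l)).natAbs) : ℝ) ≤ C * (nm x : ℝ) ^ ((q : ℝ) - κ) := by
  classical
  have hq3 := g.q3
  have hH := g.H1
  set D := dt (L i) (L j) (L k) with hD
  have hD0 : D ≠ 0 := (g.d i j k hij hik hjk).1
  set Dn := D.natAbs with hDn
  have hDn1 : 1 ≤ Dn := by omega
  have hDr : (1 : ℝ) ≤ Dn := by exact_mod_cast hDn1
  have hHr : (1 : ℝ) ≤ H := by exact_mod_cast hH
  refine ⟨12 * H * Dn ^ 2 * (3 * H) ^ (q - 1), 1 / (16 * Dn), by positivity, by positivity,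
    fun M hMq hM1 => ?_⟩
  have hM1r : (1 : ℝ) ≤ M := by exact_mod_cast hM1
  have hM0 : (0 : ℝ) < M := by linarith
  set Y : ℕ := ⌊(M : ℝ) ^ (1 - κ)⌋₊ with hY
  have hYr : 1 ≤ (M : ℝ) ^ (1 - κ) := Real.one_le_rpow hM1r (by linarith)
  have hY1 : 1 ≤ Y := by rw [hY]; exact Nat.le_floor (by exact_mod_cast hYr)
  have hYle : (Y : ℝ) ≤ (M : ℝ) ^ (1 - κ) := Nat.floor_le (by positivity)
  have hYge : (M : ℝ) ^ (1 - κ) / 2 ≤ Y := by
    have h1 := Nat.lt_floor_add_one ((M : ℝ) ^ (1 - κ))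
    rw [← hY] at h1
    have h2 : (1 : ℝ) ≤ Y := by exact_mod_cast hY1
    linarith
  have hYM : Y ≤ M := by
    have h1 : (M : ℝ) ^ (1 - κ) ≤ M := by
      calc (M : ℝ) ^ (1 - κ) ≤ (M : ℝ) ^ (1 : ℝ) :=
            Real.rpow_le_rpow_of_exponent_le hM1r (by linarith)
        _ = M := Real.rpow_one _
    exact_mod_cast hYle.trans h1
  set P : ℕ × ℕ × ℕ → Fin 3 → ℤ := fun x =>
    (x.1 : ℤ) • cr (L j) (L k) + (x.2.1 : ℤ) • cr (L k) (L i) + (x.2.2 : ℤ) • cr (L i) (L j) with hP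
  have hPdot : ∀ x l, dot (P x) (L l) = x.1 * dot (cr (L j) (L k)) (L l) +
      x.2.1 * dot (cr (L k) (L i)) (L l) + x.2.2 * dot (cr (L i) (L j)) (L l) := by
    intro x l
    simp only [hP, dot_add, dot_smul]
  have hPi : ∀ x, dot (P x) (L i) = x.1 * D := by
    intro x
    rw [hPdot, hD]
    simp only [dot, cr_zero, cr_one, cr_two, dt_eq]
    ring
  have hPj : ∀ x, dot (P x) (L j) = x.2.1 * D := by
    intro x
    rw [hPdot, hD]
    simp only [dot, cr_zero, cr_one, cr_two, dt_eq]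
    ring
  have hPk : ∀ x, dot (P x) (L k) = x.2.2 * D := by
    intro x
    rw [hPdot, hD]
    simp only [dot, cr_zero, cr_one, cr_two, dt_eq]
    ring
  set CP := (Ioc 0 M ×ˢ Ioc 0 M).filter fun x => x.1.Coprime x.2 with hCP
  set CQ := CP.filter fun x => M < 4 * max x.1 x.2 with hCQ
  set CR := CP.filter fun x => ¬ M < 4 * max x.1 x.2 with hCR
  have hCQcard : 3 / 16 * (M : ℝ) ^ 2 ≤ CQ.card := by
    have h1 := coprime_pairs M
    rw [← hCP] at h1
    have h2 : CQ.card + CR.card = CP.card := Finset.card_filter_add_card_filter_not _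
    have h3 : CR ⊆ Ioc 0 (M / 4) ×ˢ Ioc 0 (M / 4) := by
      intro x hx
      rw [hCR, mem_filter, hCP, mem_filter, mem_product, mem_Ioc, mem_Ioc] at hx
      obtain ⟨⟨⟨h4, h5⟩, -⟩, h6⟩ := hx
      rw [mem_product, mem_Ioc, mem_Ioc]
      have h7 := le_max_left x.1 x.2
      have h8 := le_max_right x.1 x.2
      omega
    have h4 := Finset.card_le_card h3
    rw [Finset.card_product, Nat.card_Ioc, Nat.sub_zero] at h4
    have h5 : ((M / 4 : ℕ) : ℝ) ≤ (M : ℝ) / 4 := Nat.cast_div_le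
    have h6 : (CR.card : ℝ) ≤ (M : ℝ) ^ 2 / 16 := by
      calc (CR.card : ℝ) ≤ ((M / 4 : ℕ) : ℝ) * ((M / 4 : ℕ) : ℝ) := by exact_mod_cast h4
        _ ≤ ((M : ℝ) / 4) * ((M : ℝ) / 4) := mul_le_mul h5 h5 (Nat.cast_nonneg _) (by positivity)
        _ = _ := by ring
    have h7 : (CQ.card : ℝ) + CR.card = CP.card := by exact_mod_cast h2
    linarith
  set T₀ := (Ioc 0 Y ×ˢ CQ).filter fun x => ∀ l, dot (P x) (L l) ≠ 0 with hT₀
  set T₁ := (Ioc 0 Y ×ˢ CQ).filter fun x => ¬ ∀ l, dot (P x) (L l) ≠ 0 with hT₁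
  have hmemCQ : ∀ x ∈ CQ, 0 < x.1 ∧ x.1 ≤ M ∧ 0 < x.2 ∧ x.2 ≤ M ∧ x.1.Coprime x.2 ∧
      M < 4 * max x.1 x.2 := by
    intro x hx
    rw [hCQ, mem_filter, hCP, mem_filter, mem_product, mem_Ioc, mem_Ioc] at hx
    obtain ⟨⟨⟨⟨h1, h2⟩, h3, h4⟩, h5⟩, h6⟩ := hx
    exact ⟨h1, h2, h3, h4, h5, h6⟩
  have hT₁card : T₁.card ≤ q * (Y * M) := by
    have h1 : T₁ ⊆ (univ : Finset (Fin q)).biUnion fun l =>
        (Ioc 0 Y ×ˢ CQ).filter fun x => dot (P x) (L l) = 0 := by
      intro x hx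
      rw [hT₁, mem_filter] at hx
      obtain ⟨h2, h3⟩ := hx
      push Not at h3
      obtain ⟨l, hl⟩ := h3
      rw [mem_biUnion]
      exact ⟨l, mem_univ _, mem_filter.2 ⟨h2, hl⟩⟩
    refine (Finset.card_le_card h1).trans (Finset.card_biUnion_le.trans ?_)
    have h2 : ∀ l ∈ (univ : Finset (Fin q)),
        ((Ioc 0 Y ×ˢ CQ).filter fun x => dot (P x) (L l) = 0).card ≤ Y * M := by
      intro l _
      by_cases hli : l = i
      · rw [hli]
        have h3 : (Ioc 0 Y ×ˢ CQ).filter (fun x => dot (P x) (L i) = 0) = ∅ := by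
          rw [Finset.filter_eq_empty_iff]
          intro x hx h4
          rw [mem_product, mem_Ioc] at hx
          rw [hPi] at h4
          rcases mul_eq_zero.1 h4 with h5 | h5
          · have := hx.1.1
            have h6 : x.1 = 0 := by exact_mod_cast h5
            omega
          · exact hD0 h5
        rw [h3]
        simp
      by_cases hlj : l = j
      · rw [hlj]
        have h3 : (Ioc 0 Y ×ˢ CQ).filter (fun x => dot (P x) (L j) = 0) = ∅ := by
          rw [Finset.filter_eq_empty_iff]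
          intro x hx h4
          rw [mem_product] at hx
          have h5 := (hmemCQ x.2 hx.2).1
          rw [hPj] at h4
          rcases mul_eq_zero.1 h4 with h6 | h6
          · have h7 : x.2.1 = 0 := by exact_mod_cast h6
            omega
          · exact hD0 h6
        rw [h3]
        simp
      have hγ : dot (cr (L i) (L j)) (L l) ≠ 0 := by
        rw [dot_comm]
        exact (g.d l i j hli hlj hij).1
      have h3 : ((Ioc 0 Y ×ˢ CQ).filter fun x => dot (P x) (L l) = 0).card ≤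
          (Ioc 0 Y ×ˢ Ioc 0 M).card := by
        refine Finset.card_le_card_of_injOn (fun x => (x.1, x.2.1)) ?_ ?_
        · intro x hx
          have hx' := mem_filter.1 (Finset.mem_coe.1 hx)
          rw [mem_product] at hx'
          have h4 := hmemCQ x.2 hx'.1.2
          rw [Finset.mem_coe, mem_product]
          exact ⟨hx'.1.1, mem_Ioc.2 ⟨h4.1, h4.2.1⟩⟩
        · intro x hx y hy h
          have hx' := (mem_filter.1 (Finset.mem_coe.1 hx)).2
          have hy' := (mem_filter.1 (Finset.mem_coe.1 hy)).2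
          simp only [Prod.mk.injEq] at h
          rw [hPdot] at hx' hy'
          have h4 : ((x.2.2 : ℤ) - y.2.2) * dot (cr (L i) (L j)) (L l) = 0 := by
            rw [h.1, h.2] at hx'
            linear_combination hx' - hy'
          have h5 := (mul_eq_zero.1 h4).resolve_right hγ
          have h6 : x.2.2 = y.2.2 := by
            have : (x.2.2 : ℤ) = y.2.2 := by linarith
            exact_mod_cast this
          exact Prod.ext h.1 (Prod.ext h.2 h6)
      rw [Finset.card_product, Nat.card_Ioc, Nat.card_Ioc, Nat.sub_zero, Nat.sub_zero] at h3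
      exact h3
    refine (Finset.sum_le_sum h2).trans ?_
    rw [Finset.sum_const, Finset.card_univ, Fintype.card_fin, smul_eq_mul]
  have hT₀card : (1 / 16) * (M : ℝ) ^ (3 - κ) ≤ T₀.card := by
    have h1 : T₀.card + T₁.card = Y * CQ.card := by
      rw [hT₀, hT₁, Finset.card_filter_add_card_filter_not, Finset.card_product, Nat.card_Ioc,
        Nat.sub_zero]
    have h2 : (T₀.card : ℝ) + T₁.card = Y * CQ.card := by exact_mod_cast h1
    have h3 : (T₁.card : ℝ) ≤ q * (Y * M) := by exact_mod_cast hT₁card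
    have h4 : (16 * q : ℝ) ≤ M := by exact_mod_cast hMq
    have hY0 : (0 : ℝ) ≤ Y := Nat.cast_nonneg Y
    have h5 : (Y : ℝ) * (3 / 16 * (M : ℝ) ^ 2) ≤ Y * CQ.card := mul_le_mul_of_nonneg_left hCQcard hY0
    have h6 : (q : ℝ) * (Y * M) ≤ Y * (1 / 16 * (M : ℝ) ^ 2) := by
      have h7 : (q : ℝ) * M ≤ 1 / 16 * (M : ℝ) ^ 2 := by nlinarith
      calc (q : ℝ) * (Y * M) = Y * (q * M) := by ring
        _ ≤ _ := mul_le_mul_of_nonneg_left h7 hY0
    have h7 : (M : ℝ) ^ (3 - κ) = (M : ℝ) ^ (1 - κ) * (M : ℝ) ^ 2 := by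
      rw [← Real.rpow_natCast (M : ℝ) 2, ← Real.rpow_add hM0]
      congr 1
      push_cast
      ring
    rw [h7]
    have h8 : (M : ℝ) ^ (1 - κ) / 2 * (1 / 8 * (M : ℝ) ^ 2) ≤ Y * (1 / 8 * (M : ℝ) ^ 2) :=
      mul_le_mul_of_nonneg_right hYge (by positivity)
    linarith
  -- the image
  have hinj : Set.InjOn P (T₀ : Set (ℕ × ℕ × ℕ)) := by
    intro x _ y _ h
    have h1 := hPi x
    have h2 := hPj x
    have h3 := hPk x
    rw [h] at h1 h2 h3
    rw [hPi] at h1
    rw [hPj] at h2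
    rw [hPk] at h3
    have e1 : y.1 = x.1 := by exact_mod_cast mul_right_cancel₀ hD0 h1
    have e2 : y.2.1 = x.2.1 := by exact_mod_cast mul_right_cancel₀ hD0 h2
    have e3 : y.2.2 = x.2.2 := by exact_mod_cast mul_right_cancel₀ hD0 h3
    exact (Prod.ext e1 (Prod.ext e2 e3)).symm
  have hmemT : ∀ x ∈ T₀, 0 < x.1 ∧ x.1 ≤ Y ∧ x.2 ∈ CQ ∧ ∀ l, dot (P x) (L l) ≠ 0 := by
    intro x hx
    rw [hT₀, mem_filter, mem_product, mem_Ioc] at hx
    exact ⟨hx.1.1.1, hx.1.1.2, hx.1.2, hx.2⟩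
  obtain ⟨T', hT'card, hT'⟩ := prim_image hDn1 (T₀.image P) (by
    intro z hz
    obtain ⟨x, hx, rfl⟩ := mem_image.1 hz
    obtain ⟨h1, h2, h3, h4⟩ := hmemT x hx
    obtain ⟨h5, h6, h7, h8, h9, h10⟩ := hmemCQ x.2 h3
    refine ⟨?_, fun d hd => ?_⟩
    · intro h0
      apply h4 i
      rw [h0]
      simp [dot]
    · have h11 : ∀ l, d ∣ dot (P x) (L l) := by
        intro l
        unfold dot
        exact dvd_add (dvd_add (Dvd.dvd.mul_right (hd 0) _) (Dvd.dvd.mul_right (hd 1) _))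
          (Dvd.dvd.mul_right (hd 2) _)
      have h12 := h11 j
      have h13 := h11 k
      rw [hPj] at h12
      rw [hPk] at h13
      exact Int.dvd_natAbs.2 (coprime_dvd h9 h12 h13))
  refine ⟨T', ?_, ?_⟩
  · rw [Finset.card_image_of_injOn hinj] at hT'card
    have h1 : (T₀.card : ℝ) ≤ Dn * T'.card := by exact_mod_cast hT'card
    calc 1 / (16 * (Dn : ℝ)) * (M : ℝ) ^ (3 - κ) = (1 / 16 * (M : ℝ) ^ (3 - κ)) / Dn := by
          field_simp
      _ ≤ (Dn * T'.card) / Dn := by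
          refine div_le_div_of_nonneg_right (hT₀card.trans h1) (by positivity)
      _ = _ := by field_simp
  · intro x hx
    obtain ⟨hx1, z, hz, t, ht1, htD, hzx⟩ := hT' x hx
    obtain ⟨y, hy, rfl⟩ := mem_image.1 hz
    obtain ⟨h1, h2, h3, h4⟩ := hmemT y hy
    obtain ⟨h5, h6, h7, h8, h9, h10⟩ := hmemCQ y.2 h3
    have hdotx : ∀ l, dot (P y) (L l) = t * dot x (L l) := by
      intro l
      rw [hzx, dot_smul]
    have hnm : nm (P y) = t * nm x := by
      rw [hzx]
      exact nm_smul _ _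
    have hnmx : nm x ≤ nm (P y) := by
      rw [hnm]
      exact Nat.le_mul_of_pos_left _ ht1
    have hnm2 : nm (P y) ≤ Dn * nm x := by
      rw [hnm]
      exact Nat.mul_le_mul_right _ htD
    have hx0 : ∀ l, dot x (L l) ≠ 0 := by
      intro l h0
      apply h4 l
      rw [hdotx, h0, mul_zero]
    refine ⟨hx1, ?_, hx0, ?_⟩
    · refine hnmx.trans ?_
      have hb : ∀ s, |P y s| ≤ ((6 * H ^ 2 * M : ℕ) : ℤ) := by
        intro s
        have hval : P y s = y.1 * cr (L j) (L k) s + y.2.1 * cr (L k) (L i) s +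
            y.2.2 * cr (L i) (L j) s := by
          simp only [hP, Pi.add_apply, Pi.smul_apply, smul_eq_mul]
        rw [hval]
        have hterm : ∀ (n : ℕ) (a b : Fin q), n ≤ M →
            |(n : ℤ) * cr (L a) (L b) s| ≤ M * (2 * H ^ 2) := by
          intro n a b hn
          rw [abs_mul, abs_of_nonneg (Int.natCast_nonneg n)]
          exact mul_le_mul (by exact_mod_cast hn) (crL_le g a b s) (abs_nonneg _)
            (Int.natCast_nonneg M)
        calc _ ≤ _ := abs_add_three _ _ _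
          _ ≤ (M : ℤ) * (2 * H ^ 2) + M * (2 * H ^ 2) + M * (2 * H ^ 2) :=
              add_le_add (add_le_add (hterm _ j k (h2.trans hYM)) (hterm _ k i h6))
                (hterm _ i j h8)
          _ = _ := by push_cast; ring
      exact nm_le hb
    · -- the lower bound of the height
      have hMx : M ≤ 12 * H * (Dn * nm x) := by
        have hmax : max y.2.1 y.2.2 ≤ 3 * H * nm (P y) := by
          refine max_le ?_ ?_
          · have e1 := dot_le g (abs_le_nm (P y)) j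
            rw [hPj, Int.natAbs_mul, Int.natAbs_natCast] at e1
            exact (Nat.le_mul_of_pos_right _ (by omega)).trans e1
          · have e1 := dot_le g (abs_le_nm (P y)) k
            rw [hPk, Int.natAbs_mul, Int.natAbs_natCast] at e1
            exact (Nat.le_mul_of_pos_right _ (by omega)).trans e1
        calc M ≤ 4 * max y.2.1 y.2.2 := h10.le
          _ ≤ 4 * (3 * H * nm (P y)) := by omega
          _ ≤ 4 * (3 * H * (Dn * nm x)) := by gcongr
          _ = _ := by ring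
      have hx1' : (1 : ℝ) ≤ nm x := by exact_mod_cast nm_pos hx1.1
      have hLi : ((dot x (L i)).natAbs : ℝ) ≤ Y * Dn := by
        have e1 := hdotx i
        rw [hPi] at e1
        have e2 : y.1 * Dn = t * (dot x (L i)).natAbs := by
          have := congrArg Int.natAbs e1
          rwa [Int.natAbs_mul, Int.natAbs_mul, Int.natAbs_natCast, Int.natAbs_natCast] at this
        have e3 : (dot x (L i)).natAbs ≤ Y * Dn := by
          calc (dot x (L i)).natAbs ≤ t * (dot x (L i)).natAbs := Nat.le_mul_of_pos_left _ ht1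
            _ = y.1 * Dn := e2.symm
            _ ≤ _ := Nat.mul_le_mul_right _ h2
        exact_mod_cast e3
      have hYx : (Y : ℝ) ≤ 12 * H * Dn * (nm x : ℝ) ^ (1 - κ) := by
        have e1 : (M : ℝ) ≤ (12 * H * Dn) * nm x := by
          have : (M : ℝ) ≤ 12 * H * (Dn * nm x) := by exact_mod_cast hMx
          linarith
        have e2 : (1 : ℝ) ≤ 12 * H * Dn := by nlinarith
        calc (Y : ℝ) ≤ (M : ℝ) ^ (1 - κ) := hYle
          _ ≤ ((12 * H * Dn) * nm x : ℝ) ^ (1 - κ) :=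
              Real.rpow_le_rpow hM0.le e1 (by linarith)
          _ = (12 * H * Dn : ℝ) ^ (1 - κ) * (nm x : ℝ) ^ (1 - κ) :=
              Real.mul_rpow (by positivity) (by positivity)
          _ ≤ (12 * H * Dn : ℝ) ^ (1 : ℝ) * (nm x : ℝ) ^ (1 - κ) := by
              refine mul_le_mul_of_nonneg_right ?_ (by positivity)
              exact Real.rpow_le_rpow_of_exponent_le e2 (by linarith)
          _ = _ := by rw [Real.rpow_one]
      have hprod0 : ∏ l, (dot x (L l)).natAbs ≠ 0 :=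
        Finset.prod_ne_zero_iff.2 fun l _ => by simpa using hx0 l
      have hrest : ((∏ l ∈ univ.erase i, (dot x (L l)).natAbs : ℕ) : ℝ) ≤
          (3 * H * nm x : ℝ) ^ (q - 1) := by
        have hc : (univ.erase i : Finset (Fin q)).card = q - 1 := by
          rw [Finset.card_erase_of_mem (mem_univ i), Finset.card_univ, Fintype.card_fin]
        push_cast
        rw [← hc, ← Finset.prod_const]
        refine Finset.prod_le_prod (fun l _ => by positivity) fun l _ => ?_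
        have e1 := dot_le g (abs_le_nm x) l
        exact_mod_cast e1
      have hle : ((∏ l, (dot x (L l)).natAbs : ℕ) : ℝ) ≤
          (12 * H * Dn * (nm x : ℝ) ^ (1 - κ) * Dn) * (3 * H * nm x : ℝ) ^ (q - 1) := by
        rw [← Finset.mul_prod_erase univ _ (mem_univ i), Nat.cast_mul]
        refine mul_le_mul (hLi.trans ?_) hrest (Nat.cast_nonneg _) (by positivity)
        exact mul_le_mul_of_nonneg_right hYx (by positivity)
      calc (rd (∏ l, (dot x (L l)).natAbs) : ℝ) ≤ ((∏ l, (dot x (L l)).natAbs : ℕ) : ℝ) := by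
            exact_mod_cast rd_le_self hprod0
        _ ≤ _ := hle
        _ = 12 * H * Dn ^ 2 * (3 * H) ^ (q - 1) * ((nm x : ℝ) ^ (1 - κ) * (nm x : ℝ) ^ (q - 1)) := by
            rw [mul_pow]
            ring
        _ = _ := by
            rw [← Real.rpow_natCast (nm x : ℝ) (q - 1), ← Real.rpow_add (by linarith)]
            congr 2
            rw [Nat.cast_sub (by omega)]
            push_cast
            ring

end Pool.Agent.K4H9.PP
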