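import Pool.Agent.K4H9.PP.Low2

set_option autoImplicit false

/-!
Translation to heights and counting functions.
-/

namespace Pool.Agent.K4H9.PP

open Finset

/-- the value at `x` of the linear form with coefficients `a` -/
def form (a x : Fin 3 → ℤ) : ℤ := ∑ j, a j * x j

/-- the truncated counting function -/
noncomputable def N1 (S : Finset ℕ) (a : ℤ) : ℝ := ∑ p ∈ a.natAbs.primeFactors \ S, Real.log p

/-- the height -/
noncomputable def ht (x : Fin 3 → ℤ) : ℝ := Real.log ((univ.sup fun j => (x j).natAbs : ℕ) : ℝ)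

/-- the exceptions -/
def Exc {q : ℕ} (L : Fin q → Fin 3 → ℤ) (S : Finset ℕ) (κ c B : ℝ) : Set (Fin 3 → ℤ) :=
  {x | univ.gcd x = 1 ∧ (∀ i, form (L i) x ≠ 0) ∧ ht x ≤ Real.log B ∧
    N1 S (∏ i, form (L i) x) ≤ ((q : ℝ) - κ) * ht x + c}

lemma form_eq (a x : Fin 3 → ℤ) : form a x = dot x a := by
  unfold form dot
  rw [Fin.sum_univ_three]
  ring

lemma sup_eq (x : Fin 3 → ℤ) : (univ.sup fun j => (x j).natAbs : ℕ) = nm x := by
  apply le_antisymm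
  · exact Finset.sup_le fun j _ => natAbs_le_nm x j
  · obtain ⟨k, hk⟩ := exists_nm x
    rw [← hk]
    exact Finset.le_sup (f := fun j => (x j).natAbs) (mem_univ k)

lemma ht_eq (x : Fin 3 → ℤ) : ht x = Real.log (nm x) := by
  unfold ht
  rw [sup_eq]

lemma cont_of_gcd {x : Fin 3 → ℤ} (h : univ.gcd x = 1) : Cont 1 x := by
  refine ⟨?_, fun d hd => ?_⟩
  · rintro rfl
    have h1 : univ.gcd (0 : Fin 3 → ℤ) = 0 := by
      rw [Finset.gcd_eq_zero_iff]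
      intro i _
      rfl
    rw [h1] at h
    exact zero_ne_one h
  · have : d ∣ univ.gcd x := Finset.dvd_gcd fun i _ => hd i
    rw [h] at this
    exact_mod_cast this

lemma gcd_of_cont {x : Fin 3 → ℤ} (h : Cont 1 x) : univ.gcd x = 1 := by
  have h1 : univ.gcd x ∣ ((1 : ℕ) : ℤ) := h.2 _ fun k => Finset.gcd_dvd (mem_univ k)
  rw [Nat.cast_one] at h1
  have h2 : normalize (univ.gcd x) = univ.gcd x := Finset.normalize_gcd
  rw [← h2]
  exact normalize_eq_one.2 (isUnit_of_dvd_one h1)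

lemma ht_nonneg {x : Fin 3 → ℤ} (h : Cont 1 x) : 0 ≤ ht x := by
  rw [ht_eq]
  exact Real.log_nonneg (by exact_mod_cast nm_pos h.1)

lemma natAbs_prod {q : ℕ} (L : Fin q → Fin 3 → ℤ) (x : Fin 3 → ℤ) :
    (∏ i, form (L i) x).natAbs = ∏ l, (dot x (L l)).natAbs := by
  have h1 := map_prod Int.natAbsHom (fun i => form (L i) x) univ
  simp only [Int.natAbsHom_apply] at h1
  rw [h1]
  exact Finset.prod_congr rfl fun l _ => by rw [form_eq]

lemma N1_le (S : Finset ℕ) (a : ℤ) : N1 S a ≤ Real.log (rd a.natAbs) := by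
  unfold N1 rd
  rw [Nat.cast_prod, Real.log_prod]
  · refine Finset.sum_le_sum_of_subset_of_nonneg sdiff_subset fun p _ _ => ?_
    exact Real.log_natCast_nonneg p
  · intro p hp
    exact_mod_cast (Nat.prime_of_mem_primeFactors hp).ne_zero

lemma rd_le_exp (S : Finset ℕ) (a : ℤ) :
    (rd a.natAbs : ℝ) ≤ (∏ p ∈ S, (p + 1 : ℕ) : ℕ) * Real.exp (N1 S a) := by
  have h1 : Real.exp (N1 S a) = ((∏ p ∈ a.natAbs.primeFactors \ S, p : ℕ) : ℝ) := by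
    unfold N1
    rw [Real.exp_sum, Nat.cast_prod]
    refine Finset.prod_congr rfl fun p hp => ?_
    rw [Real.exp_log]
    exact_mod_cast (Nat.prime_of_mem_primeFactors (mem_sdiff.1 hp).1).pos
  rw [h1]
  have h2 : rd a.natAbs ≤ (∏ p ∈ S, (p + 1)) * ∏ p ∈ a.natAbs.primeFactors \ S, p := by
    unfold rd
    rw [← Finset.prod_inter_mul_prod_sdiff a.natAbs.primeFactors S (fun p => p)]
    refine Nat.mul_le_mul_right _ ?_
    calc ∏ p ∈ a.natAbs.primeFactors ∩ S, p ≤ ∏ p ∈ a.natAbs.primeFactors ∩ S, (p + 1) :=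
          Finset.prod_le_prod' fun p _ => Nat.le_succ p
      _ ≤ ∏ p ∈ S, (p + 1) :=
          Finset.prod_le_prod_of_subset_of_one_le' inter_subset_right fun p _ _ => by omega
  exact_mod_cast h2

variable {q : ℕ} {L : Fin q → Fin 3 → ℤ}

lemma gp_exists (hq : 3 ≤ q)
    (hL : ∀ i j k, i ≠ j → i ≠ k → j ≠ k → (Matrix.of ![L i, L j, L k]).det ≠ 0) :
    ∃ Θ H, GP L Θ H := by
  refine exists_GP hq L fun i j k hij hik hjk => ?_
  have := hL i j k hij hik hjk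
  rw [dt_det] at this
  exact this

lemma exc_sub (S : Finset ℕ) (κ c B : ℝ) (hB : 1 ≤ B) :
    Exc L S κ c B ⊆ {x | Cont 1 x ∧ nm x ≤ ⌊B⌋₊} := by
  intro x hx
  obtain ⟨h1, h2, h3, h4⟩ := hx
  have hc := cont_of_gcd h1
  refine ⟨hc, ?_⟩
  rw [ht_eq] at h3
  have h5 : (0 : ℝ) < nm x := by exact_mod_cast nm_pos hc.1
  exact Nat.le_floor ((Real.log_le_log_iff h5 (by linarith)).1 h3)

lemma exc_finite (S : Finset ℕ) (κ c B : ℝ) (hB : 1 ≤ B) : (Exc L S κ c B).Finite := by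
  refine ((Fintype.piFinset fun _ : Fin 3 => Icc (-(⌊B⌋₊ : ℤ)) ⌊B⌋₊).finite_toSet).subset ?_
  intro x hx
  obtain ⟨-, h1⟩ := exc_sub S κ c B hB hx
  rw [Finset.mem_coe, Fintype.mem_piFinset]
  intro k
  rw [mem_Icc]
  refine abs_le.1 ((abs_le_nm x k).trans ?_)
  exact_mod_cast h1

lemma rd_of_exc {S : Finset ℕ} {κ c B : ℝ} {x : Fin 3 → ℤ} (hx : x ∈ Exc L S κ c B) {κ' : ℝ}
    (hκ' : κ' ≤ κ) : (rd (∏ l, (dot x (L l)).natAbs) : ℝ) ≤
      ((∏ p ∈ S, (p + 1 : ℕ) : ℕ) * Real.exp (max c 0)) * (nm x : ℝ) ^ ((q : ℝ) - κ') := by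
  obtain ⟨h1, h2, h3, h4⟩ := hx
  have hc := cont_of_gcd h1
  have h5 : (0 : ℝ) < nm x := by exact_mod_cast nm_pos hc.1
  rw [← natAbs_prod]
  refine (rd_le_exp S _).trans ?_
  rw [mul_assoc]
  refine mul_le_mul_of_nonneg_left ?_ (Nat.cast_nonneg _)
  have h6 : N1 S (∏ i, form (L i) x) ≤ max c 0 + ((q : ℝ) - κ') * ht x := by
    have h7 := ht_nonneg hc
    have h8 : ((q : ℝ) - κ) * ht x ≤ ((q : ℝ) - κ') * ht x :=
      mul_le_mul_of_nonneg_right (by linarith) h7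
    have := le_max_left c 0
    linarith
  calc Real.exp (N1 S (∏ i, form (L i) x)) ≤ Real.exp (max c 0 + ((q : ℝ) - κ') * ht x) :=
        Real.exp_le_exp.2 h6
    _ = _ := by
        rw [Real.exp_add, ht_eq, Real.rpow_def_of_pos h5]
        congr 2
        ring

theorem upper_main (hq : 3 ≤ q)
    (hL : ∀ i j k, i ≠ j → i ≠ k → j ≠ k → (Matrix.of ![L i, L j, L k]).det ≠ 0)
    (S : Finset ℕ) {κ : ℝ} (hκ : 0 ≤ κ) (c : ℝ) {δ : ℝ} (hδ : 0 < δ) :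
    ∃ C : ℝ, ∀ B : ℝ, 1 ≤ B → (Exc L S κ c B).Finite ∧
      ((Exc L S κ c B).ncard : ℝ) ≤ C * B ^ (max (3 - κ) 2 + δ) := by
  obtain ⟨Θ, H, g⟩ := gp_exists hq hL
  set κ' := min κ 1 with hκ'
  have hκ'0 : 0 ≤ κ' := le_min hκ zero_le_one
  have hκ'1 : κ' ≤ 1 := min_le_right _ _
  have hexp : 3 - κ' = max (3 - κ) 2 := by
    rw [hκ']
    rcases le_total κ 1 with h | h
    · rw [min_eq_left h, max_eq_left (by linarith)]
    · rw [min_eq_right h, max_eq_right (by linarith)]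
      norm_num
  set Cc : ℝ := (∏ p ∈ S, (p + 1 : ℕ) : ℕ) * Real.exp (max c 0) with hCc
  have hCc1 : 1 ≤ Cc := by
    have h1 : (1 : ℝ) ≤ ((∏ p ∈ S, (p + 1 : ℕ) : ℕ) : ℝ) := by
      have : 1 ≤ ∏ p ∈ S, (p + 1 : ℕ) := Finset.one_le_prod' fun p _ => by omega
      exact_mod_cast this
    have h2 : 1 ≤ Real.exp (max c 0) := Real.one_le_exp (le_max_right _ _)
    calc (1 : ℝ) = 1 * 1 := by norm_num
      _ ≤ _ := mul_le_mul h1 h2 (by norm_num) (by linarith)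
  obtain ⟨C, hC0, hC⟩ := upper g hκ'0 hκ'1 hCc1 hδ
  refine ⟨C, fun B hB => ?_⟩
  have hfin := exc_finite (L := L) S κ c B hB
  refine ⟨hfin, ?_⟩
  have hB1 : 1 ≤ ⌊B⌋₊ := Nat.le_floor (by exact_mod_cast hB)
  rw [Set.ncard_eq_toFinset_card _ hfin]
  have h1 := hC ⌊B⌋₊ hB1 hfin.toFinset (by
    intro x hx
    rw [Set.Finite.mem_toFinset] at hx
    obtain ⟨h2, h3⟩ := exc_sub S κ c B hB hx
    refine ⟨h2, h3, fun l => ?_, rd_of_exc hx (min_le_left _ _)⟩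
    have := hx.2.1 l
    rwa [form_eq] at this)
  refine h1.trans ?_
  rw [hexp]
  refine mul_le_mul_of_nonneg_left ?_ hC0.le
  refine Real.rpow_le_rpow (Nat.cast_nonneg _) (Nat.floor_le (by linarith)) ?_
  have := le_max_right (3 - κ) 2
  linarith

lemma mem_exc {S : Finset ℕ} {κ c B C : ℝ} (hC : 0 < C) (hc : Real.log C ≤ c)
    {x : Fin 3 → ℤ} (hx : Cont 1 x) (hxB : (nm x : ℝ) ≤ B) (hx0 : ∀ l, dot x (L l) ≠ 0) {κ' : ℝ}
    (hκ' : κ ≤ κ')
    (hrd : (rd (∏ l, (dot x (L l)).natAbs) : ℝ) ≤ C * (nm x : ℝ) ^ ((q : ℝ) - κ')) :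
    x ∈ Exc L S κ c B := by
  have h5 : (0 : ℝ) < nm x := by exact_mod_cast nm_pos hx.1
  refine ⟨gcd_of_cont hx, fun i => by rw [form_eq]; exact hx0 i, ?_, ?_⟩
  · rw [ht_eq]
    exact Real.log_le_log h5 hxB
  · refine (N1_le S _).trans ?_
    rw [natAbs_prod]
    have h6 : (0 : ℝ) < rd (∏ l, (dot x (L l)).natAbs) := by exact_mod_cast rd_pos _
    have h7 := Real.log_le_log h6 hrd
    rw [Real.log_mul hC.ne' (by positivity), Real.log_rpow h5, ← ht_eq] at h7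
    have h8 : ((q : ℝ) - κ') * ht x ≤ ((q : ℝ) - κ) * ht x :=
      mul_le_mul_of_nonneg_right (by linarith) (ht_nonneg hx)
    linarith

theorem lower_main (hq : 4 ≤ q)
    (hL : ∀ i j k, i ≠ j → i ≠ k → j ≠ k → (Matrix.of ![L i, L j, L k]).det ≠ 0)
    (S : Finset ℕ) {κ : ℝ} (hκ : 0 ≤ κ) (hκ2 : κ ≤ 2) :
    ∃ c₀ : ℝ, ∀ c : ℝ, c₀ ≤ c → ∃ m : ℝ, 0 < m ∧ ∃ B₀ : ℝ, 1 ≤ B₀ ∧ ∀ B : ℝ, B₀ ≤ B →
      m * B ^ (max (3 - κ) 2) ≤ ((Exc L S κ c B).ncard : ℝ) := by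
  obtain ⟨Θ, H, g⟩ := gp_exists (by omega) hL
  have hH := g.H1
  have hHr : (1 : ℝ) ≤ H := by exact_mod_cast hH
  set i0 : Fin q := ⟨0, by omega⟩
  set i1 : Fin q := ⟨1, by omega⟩
  set i2 : Fin q := ⟨2, by omega⟩
  set i3 : Fin q := ⟨3, by omega⟩
  -- one statement for both ranges
  obtain ⟨C, m, κ', hC, hm, hκκ', e, he0, he, hT⟩ : ∃ C m κ' : ℝ, 0 < C ∧ 0 < m ∧ κ ≤ κ' ∧
      ∃ e : ℝ, 0 ≤ e ∧ e = max (3 - κ) 2 ∧ ∀ M : ℕ, 16 * q ≤ M → ∃ T : Finset (Fin 3 → ℤ),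
      m * (M : ℝ) ^ e ≤ (T.card : ℝ) ∧ ∀ x ∈ T, Cont 1 x ∧ nm x ≤ 6 * H ^ 2 * M ∧
      (∀ l, dot x (L l) ≠ 0) ∧
      (rd (∏ l, (dot x (L l)).natAbs) : ℝ) ≤ C * (nm x : ℝ) ^ ((q : ℝ) - κ') := by
    rcases le_total κ 1 with h | h
    · obtain ⟨C, m, hC, hm, hT⟩ := lower1 g (i := i0) (j := i1) (k := i2) (by simp [i0, i1])
        (by simp [i0, i2]) (by simp [i1, i2]) hκ h
      exact ⟨C, m, κ, hC, hm, le_rfl, 3 - κ, by linarith, by rw [max_eq_left (by linarith)],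
        fun M hM => hT M hM (by omega)⟩
    · obtain ⟨C, m, hC, hm, hT⟩ := lower2 g (i := i0) (j := i1) (k := i2) (m := i3)
        (by simp [i0, i1]) (by simp [i0, i2]) (by simp [i0, i3]) (by simp [i1, i2])
        (by simp [i1, i3]) (by simp [i2, i3])
      refine ⟨C, m, 2, hC, hm, hκ2, 2, by norm_num, by rw [max_eq_right (by linarith)],
        fun M hM => ?_⟩
      have := hT M (by omega) (by omega)
      simpa only [Real.rpow_two] using this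
  refine ⟨Real.log C, fun c hc => ?_⟩
  refine ⟨m * (1 / (12 * H ^ 2)) ^ e, by positivity, 12 * H ^ 2 * (16 * q + 1), ?_,
    fun B hB => ?_⟩
  · have hq0 : (0 : ℝ) ≤ q := Nat.cast_nonneg q
    nlinarith [mul_nonneg hq0 (sq_nonneg (H : ℝ))]
  have hq0 : (0 : ℝ) ≤ q := Nat.cast_nonneg q
  have hB1 : 1 ≤ B := by
    refine le_trans ?_ hB
    nlinarith [mul_nonneg hq0 (sq_nonneg (H : ℝ))]
  have hH2 : (0 : ℝ) < 6 * H ^ 2 := by positivity
  set M : ℕ := ⌊B / (6 * H ^ 2)⌋₊ with hM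
  have hMle : (M : ℝ) ≤ B / (6 * H ^ 2) := Nat.floor_le (by positivity)
  have hMlt : B / (6 * H ^ 2) < M + 1 := Nat.lt_floor_add_one _
  have hBM : 2 * (16 * q + 1) ≤ B / (6 * (H : ℝ) ^ 2) := by
    rw [le_div_iff₀ hH2]
    linarith
  have hMge : B / (12 * H ^ 2) ≤ M := by
    have e1 : B / (12 * (H : ℝ) ^ 2) = (B / (6 * H ^ 2)) / 2 := by
      field_simp
      norm_num
    rw [e1]
    linarith
  have hMq : 16 * q ≤ M := by
    have : (16 * q : ℝ) ≤ M := by linarith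
    exact_mod_cast this
  obtain ⟨T, hT1, hT2⟩ := hT M hMq
  have hsub : (T : Set (Fin 3 → ℤ)) ⊆ Exc L S κ c B := by
    intro x hx
    obtain ⟨h1, h2, h3, h4⟩ := hT2 x hx
    refine mem_exc hC hc h1 ?_ h3 hκκ' h4
    calc (nm x : ℝ) ≤ 6 * H ^ 2 * M := by exact_mod_cast h2
      _ ≤ 6 * H ^ 2 * (B / (6 * H ^ 2)) := by gcongr
      _ = B := by field_simp
  have hcard : (T.card : ℝ) ≤ ((Exc L S κ c B).ncard : ℝ) := by
    have := Set.ncard_le_ncard hsub (exc_finite S κ c B hB1)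
    rw [Set.ncard_coe_finset] at this
    exact_mod_cast this
  refine le_trans ?_ (hT1.trans hcard)
  rw [← he, mul_assoc, ← Real.mul_rpow (by positivity) (by linarith)]
  refine mul_le_mul_of_nonneg_left ?_ hm.le
  refine Real.rpow_le_rpow (by positivity) ?_ he0
  calc 1 / (12 * (H : ℝ) ^ 2) * B = B / (12 * (H : ℝ) ^ 2) := by ring
    _ ≤ (M : ℝ) := hMge

end Pool.Agent.K4H9.PP
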