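import Pool.Agent.K4H9.PP.Z

set_option autoImplicit false

/-!
The upper bound: from the height and the truncated counting function to boxes.
-/

namespace Pool.Agent.K4H9.PP

open Finset

lemma dot_comm (x y : Fin 3 → ℤ) : dot x y = dot y x := by
  unfold dot
  ring

/-- coordinates -/
def zz (a b c x : Fin 3 → ℤ) : Fin 3 → ℤ := ![dot x a, dot x b, dot x c]

/-- the form `l` in the coordinates given by the forms `a, b, c` -/
def ll (a b c l : Fin 3 → ℤ) : Fin 3 → ℤ := ![dt l b c, dt l c a, dt l a b]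

lemma dot_zz_ll (a b c l x : Fin 3 → ℤ) : dot (zz a b c x) (ll a b c l) = dt a b c * dot x l := by
  simp only [dot, zz, ll, dt_eq, Matrix.cons_val_zero, Matrix.cons_val_one, Matrix.cons_val]
  ring

lemma dt_ll (a b c l l' l'' : Fin 3 → ℤ) :
    dt (ll a b c l) (ll a b c l') (ll a b c l'') = dt l l' l'' * (dt a b c) ^ 2 := by
  have h1 : (dt a b c) ^ 2 = dt (cr b c) (cr c a) (cr a b) := by
    simp only [dt_eq, cr_zero, cr_one, cr_two]
    ring
  rw [h1, det_mul]
  simp only [dt_eq, ll, Matrix.cons_val_zero, Matrix.cons_val_one, Matrix.cons_val, dot, cr_zero,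
    cr_one, cr_two]
  ring

lemma rd_mul_le (a b : ℕ) : rd (a * b) ≤ rd a * rd b := by
  classical
  by_cases ha : a = 0
  · subst ha
    rw [zero_mul]
    have : rd 0 = 1 := by simp [rd]
    rw [this, one_mul]
    exact rd_pos b
  by_cases hb : b = 0
  · subst hb
    rw [mul_zero]
    have : rd 0 = 1 := by simp [rd]
    rw [this, mul_one]
    exact rd_pos a
  unfold rd
  rw [Nat.primeFactors_mul ha hb, ← Finset.prod_union_inter]
  refine Nat.le_mul_of_pos_right _ ?_
  exact Finset.prod_pos fun p hp => (Nat.prime_of_mem_primeFactors (mem_inter.1 hp).1).pos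

lemma rd_mono {a b : ℕ} (hab : a ∣ b) (hb : b ≠ 0) : rd a ≤ rd b := by
  unfold rd
  exact Finset.prod_le_prod_of_subset_of_one_le' (Nat.primeFactors_mono hab hb)
    fun p hp _ => (Nat.prime_of_mem_primeFactors hp).pos

lemma rd_le_self {a : ℕ} (ha : a ≠ 0) : rd a ≤ a :=
  Nat.le_of_dvd (Nat.pos_of_ne_zero ha) (rd_dvd ha)

lemma rd_pow {a n : ℕ} (hn : n ≠ 0) : rd (a ^ n) = rd a := by
  unfold rd
  rw [Nat.primeFactors_pow _ hn]

lemma cont_zz {a b c x : Fin 3 → ℤ} (hd : dt a b c ≠ 0) (hx : Cont 1 x) :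
    Cont (dt a b c).natAbs (zz a b c x) := by
  have hk : ∀ k, x k * dt a b c = zz a b c x 0 * cr b c k + zz a b c x 1 * cr c a k +
      zz a b c x 2 * cr a b k := by
    intro k
    rw [cramer a b c x k, dot_comm a x, dot_comm b x, dot_comm c x]
    rfl
  refine ⟨?_, fun d hdz => ?_⟩
  · intro h
    apply hx.1
    funext k
    have h1 := hk k
    rw [h] at h1
    simp only [Pi.zero_apply, zero_mul, add_zero] at h1
    exact (mul_eq_zero.1 h1).resolve_right hd
  · have h1 : ∀ k, d ∣ x k * dt a b c := by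
      intro k
      rw [hk k]
      exact dvd_add (dvd_add (Dvd.dvd.mul_right (hdz 0) _) (Dvd.dvd.mul_right (hdz 1) _))
        (Dvd.dvd.mul_right (hdz 2) _)
    obtain ⟨e, D, hD0, heD, hDz⟩ := bezout x hx.1
    have h2 : D ∣ ((1 : ℕ) : ℤ) := hx.2 D hDz
    have h3 : d ∣ D * dt a b c := by
      rw [← heD]
      have : dot e x * dt a b c = e 0 * (x 0 * dt a b c) + e 1 * (x 1 * dt a b c) +
          e 2 * (x 2 * dt a b c) := by
        unfold dot
        ring
      rw [this]
      exact dvd_add (dvd_add (Dvd.dvd.mul_left (h1 0) _) (Dvd.dvd.mul_left (h1 1) _))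
        (Dvd.dvd.mul_left (h1 2) _)
    have h4 : D * dt a b c ∣ dt a b c := by
      have := mul_dvd_mul_right h2 (dt a b c)
      rwa [Nat.cast_one, one_mul] at this
    exact Int.dvd_natAbs.2 (h3.trans h4)

lemma zz_inj {a b c x y : Fin 3 → ℤ} (hd : dt a b c ≠ 0) (h : zz a b c x = zz a b c y) : x = y := by
  funext k
  have h1 : dot a x = dot a y := by rw [dot_comm a x, dot_comm a y]; exact congrFun h 0
  have h2 : dot b x = dot b y := by rw [dot_comm b x, dot_comm b y]; exact congrFun h 1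
  have h3 : dot c x = dot c y := by rw [dot_comm c x, dot_comm c y]; exact congrFun h 2
  have h4 := cramer a b c x k
  rw [h1, h2, h3, ← cramer a b c y k] at h4
  exact mul_right_cancel₀ hd h4

variable {q : ℕ} {L : Fin q → Fin 3 → ℤ} {Θ H : ℕ}

lemma nm_bound (g : GP L Θ H) {x : Fin 3 → ℤ} {i j k : Fin q} (hij : i ≠ j) (hik : i ≠ k)
    (hjk : j ≠ k) {A : ℕ} (hi : (dot x (L i)).natAbs ≤ A) (hj : (dot x (L j)).natAbs ≤ A)
    (hk : (dot x (L k)).natAbs ≤ A) : nm x ≤ 6 * H ^ 2 * A := by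
  obtain ⟨m, hm⟩ := exists_nm x
  have h0 := (g.d i j k hij hik hjk).1
  have h1 := cramer (L i) (L j) (L k) x m
  have hH : (0 : ℤ) ≤ H := Int.natCast_nonneg H
  have hcr : ∀ r s : Fin q, |cr (L r) (L s) m| ≤ 2 * H ^ 2 := by
    intro r s
    have := cr_le g (Y := L r) (Z := H) (g.bd r) s m
    calc |cr (L r) (L s) m| ≤ 2 * H * H := this
      _ = _ := by ring
  have hdot : ∀ r, (dot x (L r)).natAbs ≤ A → |dot (L r) x| ≤ A := by
    intro r hr
    rw [dot_comm, Int.abs_eq_natAbs]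
    exact_mod_cast hr
  have hterm : ∀ r s t : Fin q, (dot x (L r)).natAbs ≤ A →
      |dot (L r) x * cr (L s) (L t) m| ≤ A * (2 * H ^ 2) := by
    intro r s t hr
    rw [abs_mul]
    exact mul_le_mul (hdot r hr) (hcr s t) (abs_nonneg _) (Int.natCast_nonneg A)
  have h2 : |x m| ≤ |x m * dt (L i) (L j) (L k)| := by
    rw [abs_mul]
    exact le_mul_of_one_le_right (abs_nonneg _) (Int.one_le_abs h0)
  have h3 : |x m * dt (L i) (L j) (L k)| ≤ 6 * H ^ 2 * A := by
    rw [h1]
    calc _ ≤ _ := abs_add_three _ _ _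
      _ ≤ (A : ℤ) * (2 * H ^ 2) + A * (2 * H ^ 2) + A * (2 * H ^ 2) :=
          add_le_add (add_le_add (hterm i j k hi) (hterm j k i hj)) (hterm k i j hk)
      _ = _ := by ring
  have h4 : (nm x : ℤ) ≤ 6 * H ^ 2 * A := by
    rw [← hm, ← Int.abs_eq_natAbs]
    exact h2.trans h3
  exact_mod_cast h4

/-- one box -/
lemma boxcount (g : GP L Θ H) {κ : ℝ} (hκ0 : 0 ≤ κ) (hκ1 : κ ≤ 1) {Cc : ℝ} (hCc : 1 ≤ Cc)
    {i j : Fin q} (hij : i ≠ j) {ε : ℝ} (hε : 0 < ε) :
    ∃ C : ℝ, 0 < C ∧ ∀ n a a' : ℕ, ∀ T : Finset (Fin 3 → ℤ), (∀ x ∈ T, Cont 1 x ∧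
      2 ^ n ≤ nm x ∧ nm x < 2 ^ (n + 1) ∧ 2 ^ a ≤ (dot x (L i)).natAbs ∧
      (dot x (L i)).natAbs < 2 ^ (a + 1) ∧ 2 ^ a' ≤ (dot x (L j)).natAbs ∧
      (dot x (L j)).natAbs < 2 ^ (a' + 1) ∧
      (∀ l, l ≠ i → l ≠ j → nm x ≤ 6 * H ^ 2 * (dot x (L l)).natAbs) ∧
      (∀ l, dot x (L l) ≠ 0) ∧
      (rd (∏ l, (dot x (L l)).natAbs) : ℝ) ≤ Cc * (nm x : ℝ) ^ ((q : ℝ) - κ)) →
      (T.card : ℝ) ≤ C * ((2 : ℝ) ^ n) ^ (3 - κ + ε) := by
  classical
  have hq3 := g.q3
  obtain ⟨k, hik, hjk⟩ : ∃ k : Fin q, i ≠ k ∧ j ≠ k := by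
    by_contra hcon
    push Not at hcon
    have h1 : (univ : Finset (Fin q)) ⊆ {i, j} := by
      intro k _
      rw [mem_insert, mem_singleton]
      by_cases h : i = k
      · exact Or.inl h.symm
      · exact Or.inr (hcon k h).symm
    have h2 := (Finset.card_le_card h1).trans Finset.card_le_two
    rw [Finset.card_univ, Fintype.card_fin] at h2
    omega
  set D := dt (L i) (L j) (L k) with hD
  have hD0 : D ≠ 0 := (g.d i j k hij hik hjk).1
  set ℓ : Fin q → Fin 3 → ℤ := fun l => ll (L i) (L j) (L k) (L l) with hℓ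
  obtain ⟨Θ', H', g'⟩ := exists_GP hq3 ℓ (by
    intro r s t hrs hrt hst
    rw [hℓ]
    simp only
    rw [dt_ll]
    exact mul_ne_zero (g.d r s t hrs hrt hst).1 (pow_ne_zero _ hD0))
  obtain ⟨C, hC0, hC⟩ := zthm g' (c := D.natAbs) (by omega) hε
  have hH := g.H1
  have hHr : (1 : ℝ) ≤ H := by exact_mod_cast hH
  set c' : ℝ := 1 / (Cc * 2 ^ q * (6 * H ^ 2) ^ q * (3 * H)) with hc'
  have hc'0 : 0 < c' := by positivity
  have hq0 : (0 : ℝ) ≤ q := Nat.cast_nonneg q
  refine ⟨(C * (12 * H : ℝ) ^ ε + 27) * (48 * H / c'), by positivity, fun n a a' T hT => ?_⟩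
  set y : ℝ := (2 : ℝ) ^ n with hy
  have hy1 : 1 ≤ y := one_le_pow₀ (by norm_num)
  have hy0 : 0 < y := by linarith
  rcases T.eq_empty_or_nonempty with h0 | ⟨x0, hx0⟩
  · rw [h0, Finset.card_empty, Nat.cast_zero]
    positivity
  set BZ : ℕ := 12 * H * 2 ^ n with hBZ
  have hBZ1 : 1 ≤ BZ := by
    have : 0 < 12 * H * 2 ^ n := by positivity
    exact this
  have hBZr : (BZ : ℝ) = 12 * H * y := by rw [hBZ, hy]; push_cast; ring
  set b : Fin 3 → ℕ := ![2 ^ (a + 1), 2 ^ (a' + 1), BZ] with hb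
  have hdotle : ∀ x ∈ T, ∀ l, (dot x (L l)).natAbs < 6 * H * 2 ^ n := by
    intro x hx l
    obtain ⟨-, -, h2, -⟩ := hT x hx
    have h3 := dot_le g (B := nm x) (abs_le_nm x) l
    calc (dot x (L l)).natAbs ≤ 3 * H * nm x := h3
      _ < 3 * H * 2 ^ (n + 1) := by
          refine Nat.mul_lt_mul_of_pos_left h2 (by positivity)
      _ = _ := by ring
  have hbB : ∀ s, 1 ≤ b s ∧ b s ≤ BZ := by
    obtain ⟨-, -, -, h3, -, h4, -⟩ := hT x0 hx0
    intro s
    fin_cases s
    · change 1 ≤ 2 ^ (a + 1) ∧ 2 ^ (a + 1) ≤ BZ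
      refine ⟨Nat.one_le_two_pow, ?_⟩
      have := hdotle x0 hx0 i
      calc 2 ^ (a + 1) = 2 * 2 ^ a := by ring
        _ ≤ 2 * (6 * H * 2 ^ n) := by omega
        _ = BZ := by rw [hBZ]; ring
    · change 1 ≤ 2 ^ (a' + 1) ∧ 2 ^ (a' + 1) ≤ BZ
      refine ⟨Nat.one_le_two_pow, ?_⟩
      have := hdotle x0 hx0 j
      calc 2 ^ (a' + 1) = 2 * 2 ^ a' := by ring
        _ ≤ 2 * (6 * H * 2 ^ n) := by omega
        _ = BZ := by rw [hBZ]; ring
    · exact ⟨hBZ1, le_refl _⟩
  set A : ℝ := (2 : ℝ) ^ a * (2 : ℝ) ^ a' with hA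
  have hA0 : 0 < A := by positivity
  have hprodb : ((∏ s, b s : ℕ) : ℝ) = 48 * H * (A * y) := by
    rw [Fin.prod_univ_three]
    have e0 : b 0 = 2 ^ (a + 1) := rfl
    have e1 : b 1 = 2 ^ (a' + 1) := rfl
    have e2 : b 2 = BZ := rfl
    rw [e0, e1, e2]
    push_cast
    rw [hBZr, hA]
    ring
  set K : ℝ := c' * A * y ^ (κ - 2) with hK
  have hK0 : 0 < K := by positivity
  have hbK : ((∏ s, b s : ℕ) : ℝ) / K = (48 * H / c') * y ^ (3 - κ) := by
    rw [hprodb, hK]
    have h1 : y ^ (3 - κ) = y / y ^ (κ - 2) := by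
      rw [eq_div_iff (by positivity), ← Real.rpow_add hy0]
      norm_num
    rw [h1]
    field_simp
  -- the image
  set T' := T.image (zz (L i) (L j) (L k)) with hT'
  have hcard : T'.card = T.card := Finset.card_image_of_injective _ fun x y h => zz_inj hD0 h
  have hbox : ∀ z ∈ T', ∀ s, |z s| ≤ b s := by
    intro z hz s
    obtain ⟨x, hx, rfl⟩ := mem_image.1 hz
    obtain ⟨-, -, -, -, h3, -, h4, -⟩ := hT x hx
    fin_cases s
    · change |dot x (L i)| ≤ ((2 ^ (a + 1) : ℕ) : ℤ)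
      rw [Int.abs_eq_natAbs]
      exact_mod_cast h3.le
    · change |dot x (L j)| ≤ ((2 ^ (a' + 1) : ℕ) : ℤ)
      rw [Int.abs_eq_natAbs]
      exact_mod_cast h4.le
    · change |dot x (L k)| ≤ (BZ : ℤ)
      rw [Int.abs_eq_natAbs]
      have h5 := hdotle x hx k
      have h6 : (dot x (L k)).natAbs ≤ BZ := by
        rw [hBZ]
        nlinarith
      exact_mod_cast h6
  have hyκ : y ^ κ ≤ y := by
    calc y ^ κ ≤ y ^ (1 : ℝ) := Real.rpow_le_rpow_of_exponent_le hy1 hκ1
      _ = y := Real.rpow_one y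
  have hc'3 : c' * (3 * H) ≤ 1 := by
    rw [hc', div_mul_eq_mul_div, one_mul, div_le_one (by positivity)]
    have h1 : (1 : ℝ) ≤ Cc * 2 ^ q * (6 * H ^ 2) ^ q := by
      have h2 : (1 : ℝ) ≤ 2 ^ q := one_le_pow₀ (by norm_num)
      have h3 : (1 : ℝ) ≤ (6 * (H : ℝ) ^ 2) ^ q := one_le_pow₀ (by nlinarith)
      calc (1 : ℝ) = 1 * 1 * 1 := by norm_num
        _ ≤ _ := mul_le_mul (mul_le_mul hCc h2 (by norm_num) (by linarith)) h3 (by norm_num)
            (by positivity)
    calc (3 * H : ℝ) = 1 * (3 * H) := by ring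
      _ ≤ _ := mul_le_mul_of_nonneg_right h1 (by positivity)
  rcases lt_or_ge K 1 with hK1 | hK1
  · -- trivial
    have h1 : T' ⊆ Fintype.piFinset fun s => Icc (-(b s : ℤ)) (b s) := by
      intro z hz
      rw [Fintype.mem_piFinset]
      intro s
      rw [mem_Icc]
      exact abs_le.1 (hbox z hz s)
    have h2 := Finset.card_le_card h1
    rw [Fintype.card_piFinset] at h2
    have h3 : ∏ s, (Icc (-(b s : ℤ)) (b s)).card ≤ ∏ s, 3 * b s := by
      refine Finset.prod_le_prod' fun s _ => ?_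
      rw [Int.card_Icc]
      have := (hbB s).1
      omega
    have h4 : ∏ s, 3 * b s = 27 * ∏ s, b s := by
      rw [Finset.prod_mul_distrib, Finset.prod_const, Finset.card_univ, Fintype.card_fin]
      norm_num
    have h5 : (T.card : ℝ) ≤ 27 * ((∏ s, b s : ℕ) : ℝ) := by
      rw [← hcard]
      have := (h2.trans h3).trans (le_of_eq h4)
      exact_mod_cast this
    have h6 : ((∏ s, b s : ℕ) : ℝ) ≤ ((∏ s, b s : ℕ) : ℝ) / K := by
      rw [le_div_iff₀ hK0]
      have : (0 : ℝ) ≤ ((∏ s, b s : ℕ) : ℝ) := Nat.cast_nonneg _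
      nlinarith
    calc (T.card : ℝ) ≤ 27 * (((∏ s, b s : ℕ) : ℝ) / K) := h5.trans (by linarith)
      _ = 27 * (48 * H / c') * y ^ (3 - κ) := by rw [hbK]; ring
      _ ≤ 27 * (48 * H / c') * y ^ (3 - κ + ε) := by
          refine mul_le_mul_of_nonneg_left ?_ (by positivity)
          exact Real.rpow_le_rpow_of_exponent_le hy1 (by linarith)
      _ ≤ (C * (12 * H : ℝ) ^ ε + 27) * (48 * H / c') * y ^ (3 - κ + ε) := by
          refine mul_le_mul_of_nonneg_right ?_ (by positivity)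
          refine mul_le_mul_of_nonneg_right ?_ (by positivity)
          have : 0 ≤ C * (12 * H : ℝ) ^ ε := by positivity
          linarith
  · have hKb : K * (BZ : ℝ) ^ 2 ≤ ((∏ s, b s : ℕ) : ℝ) := by
      rw [hprodb, hBZr, hK]
      have h1 : y ^ (κ - 2) * y ^ 2 = y ^ κ := by
        rw [← Real.rpow_natCast y 2, ← Real.rpow_add hy0]
        norm_num
      calc c' * A * y ^ (κ - 2) * (12 * H * y) ^ 2 =
            48 * H * A * ((c' * (3 * H)) * (y ^ (κ - 2) * y ^ 2)) := by ring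
        _ ≤ 48 * H * A * (1 * y) := by
            rw [h1]
            gcongr
        _ = _ := by ring
    have hmain := hC BZ hBZ1 b hbB K hK1 hKb T' (by
      intro z hz
      refine ⟨?_, hbox z hz, ?_, ?_⟩
      · obtain ⟨x, hx, rfl⟩ := mem_image.1 hz
        exact cont_zz hD0 (hT x hx).1
      · obtain ⟨x, hx, rfl⟩ := mem_image.1 hz
        intro l
        rw [hℓ]
        simp only
        rw [dot_zz_ll]
        exact mul_ne_zero hD0 ((hT x hx).2.2.2.2.2.2.2.2.1 l)
      · obtain ⟨x, hx, rfl⟩ := mem_image.1 hz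
        obtain ⟨h1, h2, h3, h4, h5, h6, h7, h8, h9, h10⟩ := hT x hx
        have e1 : ∏ l, (dot (zz (L i) (L j) (L k) x) (ℓ l)).natAbs =
            D.natAbs ^ q * ∏ l, (dot x (L l)).natAbs := by
          rw [hℓ]
          simp only [dot_zz_ll, Int.natAbs_mul]
          rw [Finset.prod_mul_distrib, Finset.prod_const, Finset.card_univ, Fintype.card_fin]
        rw [e1]
        set P := ∏ l, (dot x (L l)).natAbs with hP
        have hDn : D.natAbs ≠ 0 := by simpa using hD0
        have h11 : rd (D.natAbs ^ q * P) ≤ D.natAbs * rd P := by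
          refine (rd_mul_le _ _).trans ?_
          rw [rd_pow (by omega)]
          exact Nat.mul_le_mul_right _ (rd_le_self hDn)
        have h12 : D.natAbs * P ≤ D.natAbs ^ q * P := by
          refine Nat.mul_le_mul_right _ ?_
          exact Nat.le_self_pow (by omega) _
        -- the main inequality
        have h13 : K * (rd P : ℝ) ≤ (P : ℝ) := by
          have hPlow : A * (y / (6 * H ^ 2)) ^ (q - 2) ≤ (P : ℝ) := by
            rw [hP, ← Finset.mul_prod_erase univ _ (mem_univ i),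
              ← Finset.mul_prod_erase (univ.erase i) _ (mem_erase.2 ⟨hij.symm, mem_univ j⟩)]
            push_cast
            have e2 : (2 : ℝ) ^ a ≤ (((dot x (L i)).natAbs : ℕ) : ℝ) := by exact_mod_cast h4
            have e3 : (2 : ℝ) ^ a' ≤ (((dot x (L j)).natAbs : ℕ) : ℝ) := by exact_mod_cast h6
            have hcardE : ((univ.erase i).erase j).card = q - 2 := by
              rw [Finset.card_erase_of_mem (mem_erase.2 ⟨hij.symm, mem_univ j⟩),
                Finset.card_erase_of_mem (mem_univ i), Finset.card_univ, Fintype.card_fin]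
              omega
            have e4 : (y / (6 * H ^ 2)) ^ (q - 2) ≤
                ∏ l ∈ (univ.erase i).erase j, (((dot x (L l)).natAbs : ℕ) : ℝ) := by
              rw [← hcardE, ← Finset.prod_const]
              refine Finset.prod_le_prod (fun l _ => by positivity) fun l hl => ?_
              rw [mem_erase, mem_erase] at hl
              have e5 := h8 l hl.2.1 hl.1
              rw [div_le_iff₀ (by positivity)]
              have e6 : y ≤ (nm x : ℝ) := by rw [hy]; exact_mod_cast h2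
              have e7 : (nm x : ℝ) ≤ 6 * H ^ 2 * (((dot x (L l)).natAbs : ℕ) : ℝ) := by
                exact_mod_cast e5
              calc y ≤ 6 * H ^ 2 * (((dot x (L l)).natAbs : ℕ) : ℝ) := e6.trans e7
                _ = _ := by ring
            rw [hA]
            simp only [Nat.cast_natAbs, Int.cast_abs] at e2 e3 e4 ⊢
            calc (2 : ℝ) ^ a * 2 ^ a' * (y / (6 * H ^ 2)) ^ (q - 2) =
                  2 ^ a * (2 ^ a' * (y / (6 * H ^ 2)) ^ (q - 2)) := by ring
              _ ≤ _ := by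
                  refine mul_le_mul e2 (mul_le_mul e3 e4 (by positivity) (by positivity))
                    (by positivity) (by positivity)
          have hqκ : 0 ≤ (q : ℝ) - κ := by
            have : (3 : ℝ) ≤ q := by exact_mod_cast hq3
            linarith
          have hnmy : (nm x : ℝ) ^ ((q : ℝ) - κ) ≤ 2 ^ q * y ^ ((q : ℝ) - κ) := by
            have e5 : (nm x : ℝ) ≤ 2 * y := by
              have : (nm x : ℝ) ≤ (2 : ℝ) ^ (n + 1) := by exact_mod_cast h3.le
              rw [hy]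
              calc (nm x : ℝ) ≤ (2 : ℝ) ^ (n + 1) := this
                _ = _ := by ring
            calc (nm x : ℝ) ^ ((q : ℝ) - κ) ≤ (2 * y) ^ ((q : ℝ) - κ) :=
                  Real.rpow_le_rpow (Nat.cast_nonneg _) e5 hqκ
              _ = 2 ^ ((q : ℝ) - κ) * y ^ ((q : ℝ) - κ) := Real.mul_rpow (by norm_num) hy0.le
              _ ≤ 2 ^ (q : ℝ) * y ^ ((q : ℝ) - κ) := by
                  refine mul_le_mul_of_nonneg_right ?_ (by positivity)
                  exact Real.rpow_le_rpow_of_exponent_le (by norm_num) (by linarith)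
              _ = _ := by rw [Real.rpow_natCast]
          have hsq : y ^ (κ - 2) * y ^ ((q : ℝ) - κ) = y ^ (q - 2) := by
            rw [← Real.rpow_add hy0, ← Real.rpow_natCast y (q - 2)]
            congr 1
            rw [Nat.cast_sub (by omega)]
            push_cast
            ring
          have hden : (6 * (H : ℝ) ^ 2) ^ (q - 2) ≤ (6 * (H : ℝ) ^ 2) ^ q :=
            pow_le_pow_right₀ (by nlinarith) (by omega)
          have hcc : c' * (Cc * 2 ^ q) ≤ 1 / (6 * (H : ℝ) ^ 2) ^ (q - 2) := by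
            rw [hc', div_mul_eq_mul_div, one_mul, div_le_div_iff₀ (by positivity) (by positivity),
              one_mul]
            calc Cc * 2 ^ q * (6 * (H : ℝ) ^ 2) ^ (q - 2) ≤
                  Cc * 2 ^ q * (6 * (H : ℝ) ^ 2) ^ q := by gcongr
              _ = Cc * 2 ^ q * (6 * (H : ℝ) ^ 2) ^ q * 1 := by ring
              _ ≤ Cc * 2 ^ q * (6 * (H : ℝ) ^ 2) ^ q * (3 * H) := by
                  refine mul_le_mul_of_nonneg_left (by linarith) (by positivity)
          calc K * (rd P : ℝ) ≤ (c' * A * y ^ (κ - 2)) * (Cc * (2 ^ q * y ^ ((q : ℝ) - κ))) := by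
                rw [hK]
                refine mul_le_mul_of_nonneg_left (h10.trans ?_) (by positivity)
                gcongr
            _ = A * (c' * (Cc * 2 ^ q)) * (y ^ (κ - 2) * y ^ ((q : ℝ) - κ)) := by ring
            _ ≤ A * (1 / (6 * (H : ℝ) ^ 2) ^ (q - 2)) * (y ^ (κ - 2) * y ^ ((q : ℝ) - κ)) := by
                gcongr
            _ = A * (y / (6 * H ^ 2)) ^ (q - 2) := by
                rw [hsq, div_pow]
                ring
            _ ≤ (P : ℝ) := hPlow
        calc K * (rd (D.natAbs ^ q * P) : ℝ) ≤ K * ((D.natAbs * rd P : ℕ) : ℝ) := by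
              refine mul_le_mul_of_nonneg_left ?_ hK0.le
              exact_mod_cast h11
          _ = (D.natAbs : ℝ) * (K * (rd P : ℝ)) := by push_cast; ring
          _ ≤ (D.natAbs : ℝ) * (P : ℝ) := by gcongr
          _ ≤ ((D.natAbs ^ q * P : ℕ) : ℝ) := by exact_mod_cast h12)
    rw [hcard, hbK, hBZr] at hmain
    calc (T.card : ℝ) ≤ C * (12 * H * y) ^ ε * (48 * H / c' * y ^ (3 - κ)) := hmain
      _ = C * (12 * H : ℝ) ^ ε * (48 * H / c') * (y ^ (3 - κ) * y ^ ε) := by
          rw [Real.mul_rpow (by positivity) hy0.le]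
          ring
      _ = C * (12 * H : ℝ) ^ ε * (48 * H / c') * y ^ (3 - κ + ε) := by
          rw [← Real.rpow_add hy0]
      _ ≤ (C * (12 * H : ℝ) ^ ε + 27) * (48 * H / c') * y ^ (3 - κ + ε) := by
          refine mul_le_mul_of_nonneg_right ?_ (by positivity)
          refine mul_le_mul_of_nonneg_right ?_ (by positivity)
          linarith

end Pool.Agent.K4H9.PP
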