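import Pool.Agent.K4H9.PP.Sum

set_option autoImplicit false

/-!
Minimal tuples of divisors, and the determinant of three vectors of the lattice.
-/

namespace Pool.Agent.K4H9.PP

open Finset

lemma rd_mul_prime {p n : ℕ} (hp : p.Prime) (hn : n ≠ 0) :
    (p ∣ n → rd (p * n) = rd n) ∧ (¬ p ∣ n → rd (p * n) = p * rd n) := by
  classical
  have h1 : (p * n).primeFactors = insert p n.primeFactors := by
    rw [Nat.primeFactors_mul hp.ne_zero hn, hp.primeFactors]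
    rfl
  constructor
  · intro h
    have h2 : p ∈ n.primeFactors := Nat.mem_primeFactors.2 ⟨hp, h, hn⟩
    unfold rd
    rw [h1, Finset.insert_eq_of_mem h2]
  · intro h
    have h2 : p ∉ n.primeFactors := fun h3 => h (Nat.dvd_of_mem_primeFactors h3)
    unfold rd
    rw [h1, Finset.prod_insert h2]

/-- a tuple of divisors with the smallest product -/
lemma exists_min {q : ℕ} {a : Fin q → ℕ} (ha : ∀ l, a l ≠ 0) {K : ℝ} (_hK : 1 ≤ K)
    (h : K * (rd (∏ l, a l) : ℝ) ≤ ((∏ l, a l : ℕ) : ℝ)) :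
    ∃ m : Fin q → ℕ, (∀ l, m l ∣ a l) ∧ (∏ l, m l) ≠ 0 ∧
      K * (rd (∏ l, m l) : ℝ) ≤ ((∏ l, m l : ℕ) : ℝ) ∧
      ∀ p : ℕ, p.Prime → p ∣ ∏ l, m l → p ^ 2 ∣ ∏ l, m l ∧
        ((∏ l, m l : ℕ) : ℝ) ≤ K * (rd (∏ l, m l) : ℝ) * p := by
  classical
  set F : Finset (Fin q → ℕ) := (Fintype.piFinset fun l => (a l).divisors).filter
    fun m => K * (rd (∏ l, m l) : ℝ) ≤ ((∏ l, m l : ℕ) : ℝ) with hF
  have hne : F.Nonempty := ⟨a, by
    rw [hF, mem_filter, Fintype.mem_piFinset]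
    exact ⟨fun l => Nat.mem_divisors.2 ⟨dvd_rfl, ha l⟩, h⟩⟩
  obtain ⟨m, hmF, hmin⟩ := Finset.exists_min_image F (fun m => ∏ l, m l) hne
  rw [hF, mem_filter, Fintype.mem_piFinset] at hmF
  obtain ⟨hm1, hm2⟩ := hmF
  have hmd : ∀ l, m l ∣ a l := fun l => (Nat.mem_divisors.1 (hm1 l)).1
  have hml0 : ∀ l, m l ≠ 0 := fun l h0 => ha l (by
    have := hmd l
    rw [h0] at this
    exact Nat.eq_zero_of_zero_dvd this)
  have hm0 : ∏ l, m l ≠ 0 := Finset.prod_ne_zero_iff.2 fun l _ => hml0 l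
  refine ⟨m, hmd, hm0, hm2, fun p hp hpm => ?_⟩
  obtain ⟨l, -, n, hn⟩ := (hp.prime.dvd_finsetProd_iff _).1 hpm
  set m' := Function.update m l n with hm'
  have hprod : ∏ x, m x = p * ∏ x, m' x := by
    rw [← Finset.mul_prod_erase univ m (mem_univ l), ← Finset.mul_prod_erase univ m' (mem_univ l), hn]
    have h1 : m' l = n := by rw [hm']; simp
    have h2 : ∏ x ∈ univ.erase l, m' x = ∏ x ∈ univ.erase l, m x := by
      refine Finset.prod_congr rfl fun x hx => ?_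
      rw [hm', Function.update_of_ne (mem_erase.1 hx).1]
    rw [h1, h2, mul_assoc]
  have hm'0 : ∏ x, m' x ≠ 0 := by
    intro h0
    apply hm0
    rw [hprod, h0, mul_zero]
  have hlt : ∏ x, m' x < ∏ x, m x := by
    rw [hprod]
    have := hp.two_le
    have h3 : 0 < ∏ x, m' x := Nat.pos_of_ne_zero hm'0
    nlinarith
  have hnot : ¬ K * (rd (∏ l, m' l) : ℝ) ≤ ((∏ l, m' l : ℕ) : ℝ) := by
    intro h1
    have h2 : m' ∈ F := by
      rw [hF, mem_filter, Fintype.mem_piFinset]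
      refine ⟨fun x => ?_, h1⟩
      rw [Nat.mem_divisors]
      refine ⟨?_, ha x⟩
      by_cases hx : x = l
      · subst hx
        rw [hm', Function.update_self]
        exact (Dvd.intro_left _ hn.symm).trans (hmd x)
      · rw [hm', Function.update_of_ne hx]
        exact hmd x
    have := hmin m' h2
    omega
  have hp0 : (0 : ℝ) < p := by exact_mod_cast hp.pos
  by_cases hpd : p ∣ ∏ x, m' x
  · have h1 := (rd_mul_prime hp hm'0).1 hpd
    rw [← hprod] at h1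
    refine ⟨?_, ?_⟩
    · rw [hprod, sq]
      exact Nat.mul_dvd_mul_left p hpd
    · rw [h1]
      push Not at hnot
      calc ((∏ l, m l : ℕ) : ℝ) = p * ((∏ l, m' l : ℕ) : ℝ) := by rw [hprod]; push_cast; ring
        _ ≤ p * (K * (rd (∏ l, m' l) : ℝ)) := by gcongr
        _ = _ := by ring
  · exfalso
    have h1 := (rd_mul_prime hp hm'0).2 hpd
    rw [← hprod] at h1
    apply hnot
    rw [h1, hprod] at hm2
    push_cast at hm2
    have h2 : p * (K * (rd (∏ l, m' l) : ℝ)) ≤ p * ((∏ l, m' l : ℕ) : ℝ) := by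
      push_cast
      linarith
    exact le_of_mul_le_mul_left h2 hp0

/-- the radical of a minimal tuple is small -/
lemma rd_le_of_min {q : ℕ} {m : Fin q → ℕ} (hm0 : ∏ l, m l ≠ 0) {K : ℝ} (hK : 1 ≤ K)
    (h : ∀ p : ℕ, p.Prime → p ∣ ∏ l, m l → p ^ 2 ∣ ∏ l, m l ∧
        ((∏ l, m l : ℕ) : ℝ) ≤ K * (rd (∏ l, m l) : ℝ) * p) {X : ℕ} (hX1 : 1 ≤ X)
    (hX : ∀ l, m l ≤ X) : (rd (∏ l, m l) : ℝ) ≤ max (X : ℝ) (K ^ 2) := by
  set P := ∏ l, m l with hP
  set R := rd P with hR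
  have hRsq : Squarefree R := rd_squarefree _
  have hR0 : (0 : ℝ) < R := by exact_mod_cast rd_pos P
  have hX1' : (1 : ℝ) ≤ X := by exact_mod_cast hX1
  by_cases hR1 : R = 1
  · rw [hR1]
    push_cast
    exact hX1'.trans (le_max_left _ _)
  set p₀ := R.minFac with hp₀
  have hp₀p : p₀.Prime := Nat.minFac_prime hR1
  have hp₀R : p₀ ∣ R := Nat.minFac_dvd R
  have hp₀P : p₀ ∣ P := hp₀R.trans (rd_dvd hm0)
  obtain ⟨-, hle⟩ := h p₀ hp₀p hp₀P
  have hR2 : R ^ 2 ∣ P := by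
    have h1 : ((R : ℕ) : ℤ) ^ 2 ∣ (P : ℤ) := by
      refine sqf_dvd hRsq 2 fun p hp hpR => ?_
      have := (h p hp (hpR.trans (rd_dvd hm0))).1
      exact_mod_cast this
    exact_mod_cast h1
  have h2 : (R : ℝ) ^ 2 ≤ K * R * p₀ := by
    have h3 : R ^ 2 ≤ P := Nat.le_of_dvd (Nat.pos_of_ne_zero hm0) hR2
    have h4 : (R : ℝ) ^ 2 ≤ (P : ℝ) := by exact_mod_cast h3
    exact h4.trans hle
  have h3 : (R : ℝ) ≤ K * p₀ := by
    have : (R : ℝ) * R ≤ (K * p₀) * R := by nlinarith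
    exact le_of_mul_le_mul_right this hR0
  obtain ⟨r, hr⟩ := hp₀R
  by_cases hr1 : r = 1
  · rw [hr1, mul_one] at hr
    obtain ⟨l, -, hl⟩ := (hp₀p.prime.dvd_finsetProd_iff _).1 hp₀P
    have hml0 : m l ≠ 0 := fun h0 => hm0 (Finset.prod_eq_zero (mem_univ l) h0)
    have h4 : R ≤ X := by
      rw [hr]
      exact (Nat.le_of_dvd (Nat.pos_of_ne_zero hml0) hl).trans (hX l)
    have h5 : (R : ℝ) ≤ X := by exact_mod_cast h4
    exact h5.trans (le_max_left _ _)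
  · have h4 : p₀ ≤ r := by
      obtain ⟨p, hp, hpr⟩ := Nat.exists_prime_and_dvd hr1
      have h5 : p₀ ≤ p := Nat.minFac_le_of_dvd hp.two_le (hpr.trans (Dvd.intro_left _ hr.symm))
      have h6 : r ≠ 0 := by
        rintro rfl
        rw [mul_zero] at hr
        exact hRsq.ne_zero hr
      exact h5.trans (Nat.le_of_dvd (Nat.pos_of_ne_zero h6) hpr)
    have h5 : (p₀ : ℝ) * p₀ ≤ R := by
      have : p₀ * p₀ ≤ R := by
        conv_rhs => rw [hr]
        exact Nat.mul_le_mul_left _ h4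
      exact_mod_cast this
    have h6 : (R : ℝ) ^ 2 ≤ K ^ 2 * R := by
      calc (R : ℝ) ^ 2 ≤ (K * p₀) ^ 2 := pow_le_pow_left₀ hR0.le h3 2
        _ = K ^ 2 * (p₀ * p₀) := by ring
        _ ≤ K ^ 2 * R := by gcongr
    have h7 : (R : ℝ) ≤ K ^ 2 := by
      have : (R : ℝ) * R ≤ K ^ 2 * R := by rw [← sq]; exact h6
      exact le_of_mul_le_mul_right this hR0
    exact h7.trans (le_max_right _ _)

variable {q : ℕ} {ℓ : Fin q → Fin 3 → ℤ} {Θ H : ℕ}

lemma det_mul (u v w a b c : Fin 3 → ℤ) :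
    dt a b c * dt u v w =
      dot u a * (dot v b * dot w c - dot v c * dot w b) -
      dot u b * (dot v a * dot w c - dot v c * dot w a) +
      dot u c * (dot v a * dot w b - dot v b * dot w a) := by
  simp only [dt_eq, dot]
  ring

/-- the product of the tuple divides the determinant -/
lemma prod_dvd (g : GP ℓ Θ H) {c : ℕ} (hc : 1 ≤ c) {m : Fin q → ℕ} (hm0 : ∏ l, m l ≠ 0)
    {T : Set (Fin 3 → ℤ)} (hT : ∀ z ∈ T, ∀ l, (m l : ℤ) ∣ dot z (ℓ l)) {z₀ : Fin 3 → ℤ}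
    (hz₀ : z₀ ∈ T) (hz₀c : Cont c z₀) {u v w : Fin 3 → ℤ} (hu : u ∈ Submodule.span ℤ T)
    (hv : v ∈ Submodule.span ℤ T) (hw : w ∈ Submodule.span ℤ T) (hD : dt u v w ≠ 0) :
    ∏ l, m l ∣ (Θ * c) ^ q * (dt u v w).natAbs := by
  classical
  have hΘ := g.Θ1
  set N := (Θ * c) ^ q * (dt u v w).natAbs with hN
  have hN0 : N ≠ 0 := by
    have : (dt u v w).natAbs ≠ 0 := by simpa using hD
    positivity
  rw [← Nat.factorization_prime_le_iff_dvd hm0 hN0]
  intro p hp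
  rw [← hp.pow_dvd_iff_le_factorization hN0]
  have hml0 : ∀ l, m l ≠ 0 := fun l h0 => hm0 (Finset.prod_eq_zero (mem_univ l) h0)
  set a : Fin q → ℕ := fun l => (m l).factorization p with ha
  have hfac : (∏ l, m l).factorization p = ∑ l, a l := by
    rw [Nat.factorization_prod fun l _ => hml0 l, Finset.sum_apply']
  rw [hfac, ← Finset.prod_pow_eq_pow_sum]
  have hpa : ∀ l, p ^ a l ∣ m l := fun l => Nat.ordProj_dvd (m l) p
  have hq3 := g.q3
  obtain ⟨i, -, hi⟩ := Finset.exists_max_image univ a ⟨⟨0, by omega⟩, mem_univ _⟩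
  have hne : (univ.erase i).Nonempty := by
    rw [← Finset.card_pos, Finset.card_erase_of_mem (mem_univ i), Finset.card_univ,
      Fintype.card_fin]
    omega
  obtain ⟨j, hjm, hj⟩ := Finset.exists_max_image (univ.erase i) a hne
  have hij : j ≠ i := (mem_erase.1 hjm).1
  have hspan : ∀ l, ∀ x ∈ Submodule.span ℤ T, (m l : ℤ) ∣ dot x (ℓ l) := fun l =>
    span_dot fun z hz => hT z hz l
  -- the third and the following exponents
  have hthird : ∀ l ∈ (univ.erase i).erase j, p ^ a l ∣ Θ * c := by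
    intro l hl
    rw [mem_erase, mem_erase] at hl
    obtain ⟨hlj, hli, -⟩ := hl
    have h1 : a l ≤ a i := hi l (mem_univ l)
    have h2 : a l ≤ a j := hj l (mem_erase.2 ⟨hli, mem_univ l⟩)
    have hd : ∀ x, a l ≤ a x → ((p ^ a l : ℕ) : ℤ) ∣ dot z₀ (ℓ x) := by
      intro x hx
      have h3 : p ^ a l ∣ m x := (pow_dvd_pow p hx).trans (hpa x)
      exact (Int.natCast_dvd_natCast.2 h3).trans (hT z₀ hz₀ x)
    have hcom : ∀ x y : Fin 3 → ℤ, dot x y = dot y x := by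
      intro x y
      unfold dot
      ring
    have h3 : ∀ k, ((p ^ a l : ℕ) : ℤ) ∣ z₀ k * dt (ℓ i) (ℓ j) (ℓ l) := by
      intro k
      rw [cramer (ℓ i) (ℓ j) (ℓ l) z₀ k, hcom (ℓ i), hcom (ℓ j), hcom (ℓ l)]
      exact dvd_add (dvd_add (Dvd.dvd.mul_right (hd i h1) _) (Dvd.dvd.mul_right (hd j h2) _))
        (Dvd.dvd.mul_right (hd l le_rfl) _)
    obtain ⟨e, D, hD0, heD, hDz⟩ := bezout z₀ hz₀c.1
    have hDc : D ∣ (c : ℤ) := hz₀c.2 D hDz
    have h4 : ((p ^ a l : ℕ) : ℤ) ∣ D * dt (ℓ i) (ℓ j) (ℓ l) := by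
      rw [← heD]
      have : dot e z₀ * dt (ℓ i) (ℓ j) (ℓ l) = e 0 * (z₀ 0 * dt (ℓ i) (ℓ j) (ℓ l)) +
          e 1 * (z₀ 1 * dt (ℓ i) (ℓ j) (ℓ l)) + e 2 * (z₀ 2 * dt (ℓ i) (ℓ j) (ℓ l)) := by
        unfold dot
        ring
      rw [this]
      exact dvd_add (dvd_add (Dvd.dvd.mul_left (h3 0) _) (Dvd.dvd.mul_left (h3 1) _))
        (Dvd.dvd.mul_left (h3 2) _)
    have h5 : ((p ^ a l : ℕ) : ℤ) ∣ ((Θ * c : ℕ) : ℤ) := by
      push_cast
      rw [mul_comm (Θ : ℤ)]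
      push_cast at h4
      exact h4.trans (mul_dvd_mul hDc (g.d i j l hij.symm hli.symm hlj.symm).2)
    exact_mod_cast h5
  -- the two largest exponents
  obtain ⟨k, hk⟩ : ((univ.erase i).erase j).Nonempty := by
    rw [← Finset.card_pos, Finset.card_erase_of_mem hjm, Finset.card_erase_of_mem (mem_univ i),
      Finset.card_univ, Fintype.card_fin]
    omega
  rw [mem_erase, mem_erase] at hk
  obtain ⟨hkj, hki, -⟩ := hk
  have htwo : p ^ a i * p ^ a j ∣ Θ * (dt u v w).natAbs := by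
    have hA : ∀ x ∈ Submodule.span ℤ T, ((p ^ a i : ℕ) : ℤ) ∣ dot x (ℓ i) := fun x hx =>
      (Int.natCast_dvd_natCast.2 (hpa i)).trans (hspan i x hx)
    have hB : ∀ x ∈ Submodule.span ℤ T, ((p ^ a j : ℕ) : ℤ) ∣ dot x (ℓ j) := fun x hx =>
      (Int.natCast_dvd_natCast.2 (hpa j)).trans (hspan j x hx)
    obtain ⟨u1, hu1⟩ := hA u hu
    obtain ⟨v1, hv1⟩ := hA v hv
    obtain ⟨w1, hw1⟩ := hA w hw
    obtain ⟨u2, hu2⟩ := hB u hu
    obtain ⟨v2, hv2⟩ := hB v hv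
    obtain ⟨w2, hw2⟩ := hB w hw
    have h1 : ((p ^ a i : ℕ) : ℤ) * ((p ^ a j : ℕ) : ℤ) ∣ dt (ℓ i) (ℓ j) (ℓ k) * dt u v w := by
      rw [det_mul, hu1, hv1, hw1, hu2, hv2, hw2]
      exact ⟨u1 * (v2 * dot w (ℓ k) - dot v (ℓ k) * w2) - u2 * (v1 * dot w (ℓ k) -
        dot v (ℓ k) * w1) + dot u (ℓ k) * (v1 * w2 - v2 * w1), by ring⟩
    have h2 : dt (ℓ i) (ℓ j) (ℓ k) * dt u v w ∣ ((Θ * (dt u v w).natAbs : ℕ) : ℤ) := by
      push_cast
      rw [← Int.natCast_natAbs]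
      exact mul_dvd_mul (g.d i j k hij.symm hki.symm hkj.symm).2 Int.dvd_natAbs_self
    exact_mod_cast h1.trans h2
  rw [← Finset.mul_prod_erase univ _ (mem_univ i), ← Finset.mul_prod_erase (univ.erase i) _ hjm,
    ← mul_assoc]
  have hrest : ∏ x ∈ (univ.erase i).erase j, p ^ a x ∣ (Θ * c) ^ (q - 2) := by
    have hcard : ((univ.erase i).erase j).card = q - 2 := by
      rw [Finset.card_erase_of_mem hjm, Finset.card_erase_of_mem (mem_univ i),
        Finset.card_univ, Fintype.card_fin]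
      omega
    rw [← hcard, ← Finset.prod_const]
    exact Finset.prod_dvd_prod_of_dvd _ _ hthird
  refine (mul_dvd_mul htwo hrest).trans ?_
  rw [hN]
  have e1 : (Θ * c) ^ q = (Θ * c) ^ (q - 2) * (Θ * c) ^ 2 := by
    rw [← pow_add]
    congr 1
    omega
  rw [e1]
  exact ⟨Θ * c ^ 2, by ring⟩

end Pool.Agent.K4H9.PP
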