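import Pool.Agent.K4H9.PP.Div

set_option autoImplicit false

/-!
Fibres: integer points in a box with cross products divisible by squares of primes.
-/

namespace Pool.Agent.K4H9.PP

open Finset

lemma span_dvd {T : Set (Fin 3 → ℤ)} (f : (Fin 3 → ℤ) → ℤ) (hadd : ∀ x y, f (x + y) = f x + f y)
    (hs : ∀ (c : ℤ) x, f (c • x) = c * f x) {m : ℤ} (h : ∀ x ∈ T, m ∣ f x) :
    ∀ x ∈ Submodule.span ℤ T, m ∣ f x := by
  intro x hx
  induction hx using Submodule.span_induction with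
  | mem x hx => exact h x hx
  | zero =>
    have : f 0 = 0 := by
      have := hs 0 0
      simpa using this
    rw [this]
    exact dvd_zero _
  | add x y _ _ hx hy => rw [hadd]; exact dvd_add hx hy
  | smul c x _ hx => rw [hs]; exact Dvd.dvd.mul_left hx _

lemma cr_add (x y ℓ : Fin 3 → ℤ) (k : Fin 3) : cr (x + y) ℓ k = cr x ℓ k + cr y ℓ k := by
  fin_cases k
  · change cr _ _ 0 = cr _ _ 0 + cr _ _ 0
    simp only [cr_zero, Pi.add_apply]; ring
  · change cr _ _ 1 = cr _ _ 1 + cr _ _ 1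
    simp only [cr_one, Pi.add_apply]; ring
  · change cr _ _ 2 = cr _ _ 2 + cr _ _ 2
    simp only [cr_two, Pi.add_apply]; ring

lemma cr_smul (c : ℤ) (x ℓ : Fin 3 → ℤ) (k : Fin 3) : cr (c • x) ℓ k = c * cr x ℓ k := by
  fin_cases k
  · change cr _ _ 0 = c * cr _ _ 0
    simp only [cr_zero, Pi.smul_apply, smul_eq_mul]; ring
  · change cr _ _ 1 = c * cr _ _ 1
    simp only [cr_one, Pi.smul_apply, smul_eq_mul]; ring
  · change cr _ _ 2 = c * cr _ _ 2
    simp only [cr_two, Pi.smul_apply, smul_eq_mul]; ring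

lemma span_cr {T : Set (Fin 3 → ℤ)} {ℓ : Fin 3 → ℤ} {m : ℤ} (h : ∀ x ∈ T, ∀ k, m ∣ cr x ℓ k) :
    ∀ x ∈ Submodule.span ℤ T, ∀ k, m ∣ cr x ℓ k := fun x hx k =>
  span_dvd (fun x => cr x ℓ k) (fun x y => cr_add x y ℓ k) (fun c x => cr_smul c x ℓ k)
    (fun x hx => h x hx k) x hx

lemma dot_add (x y W : Fin 3 → ℤ) : dot (x + y) W = dot x W + dot y W := by
  simp only [dot, Pi.add_apply]; ring

lemma dot_smul (c : ℤ) (x W : Fin 3 → ℤ) : dot (c • x) W = c * dot x W := by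
  simp only [dot, Pi.smul_apply, smul_eq_mul]; ring

lemma span_dot {T : Set (Fin 3 → ℤ)} {W : Fin 3 → ℤ} {m : ℤ} (h : ∀ x ∈ T, m ∣ dot x W) :
    ∀ x ∈ Submodule.span ℤ T, m ∣ dot x W :=
  span_dvd (fun x => dot x W) (fun x y => dot_add x y W) (fun c x => dot_smul c x W) h

/-- Cramer -/
lemma cramer (u v w W : Fin 3 → ℤ) (k : Fin 3) :
    W k * dt u v w = dot u W * cr v w k + dot v W * cr w u k + dot w W * cr u v k := by
  fin_cases k
  · change W 0 * _ = _ * cr _ _ 0 + _ * cr _ _ 0 + _ * cr _ _ 0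
    simp only [cr_zero, dt_eq, dot]; ring
  · change W 1 * _ = _ * cr _ _ 1 + _ * cr _ _ 1 + _ * cr _ _ 1
    simp only [cr_one, dt_eq, dot]; ring
  · change W 2 * _ = _ * cr _ _ 2 + _ * cr _ _ 2 + _ * cr _ _ 2
    simp only [cr_two, dt_eq, dot]; ring

/-- the greatest common divisor of the coordinates divides `g` -/
def Cont (g : ℕ) (z : Fin 3 → ℤ) : Prop := z ≠ 0 ∧ ∀ d : ℤ, (∀ k, d ∣ z k) → d ∣ g

lemma Cont.prime {z : Fin 3 → ℤ} (h : Cont 1 z) {p : ℕ} (hp : p.Prime) : ¬ ∀ k, (p : ℤ) ∣ z k := by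
  intro hk
  have h1 : ((p : ℕ) : ℤ) ∣ ((1 : ℕ) : ℤ) := h.2 p hk
  have h2 : p ∣ 1 := by exact_mod_cast h1
  exact hp.one_lt.ne' (Nat.dvd_one.1 h2)

lemma bezout (z : Fin 3 → ℤ) (hz : z ≠ 0) : ∃ (a : Fin 3 → ℤ) (D : ℤ), D ≠ 0 ∧ dot a z = D ∧
    ∀ k, D ∣ z k := by
  refine ⟨![(z 0).gcdA (z 1) * (((z 0).gcd (z 1) : ℤ)).gcdA (z 2),
    (z 0).gcdB (z 1) * (((z 0).gcd (z 1) : ℤ)).gcdA (z 2),
    (((z 0).gcd (z 1) : ℤ)).gcdB (z 2)], (((z 0).gcd (z 1) : ℤ)).gcd (z 2), ?_, ?_, ?_⟩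
  · intro h
    apply hz
    have h1 : (((z 0).gcd (z 1) : ℤ)).gcd (z 2) = 0 := by exact_mod_cast h
    rw [Int.gcd_eq_zero_iff] at h1
    obtain ⟨h2, h3⟩ := h1
    have h4 : (z 0).gcd (z 1) = 0 := by exact_mod_cast h2
    rw [Int.gcd_eq_zero_iff] at h4
    funext k
    fin_cases k
    · exact h4.1
    · exact h4.2
    · exact h3
  · have h1 := Int.gcd_eq_gcd_ab (z 0) (z 1)
    have h2 := Int.gcd_eq_gcd_ab ((z 0).gcd (z 1) : ℤ) (z 2)
    rw [h2]
    simp only [dot, Matrix.cons_val_zero, Matrix.cons_val_one, Matrix.cons_val]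
    linear_combination -(((z 0).gcd (z 1) : ℤ)).gcdA (z 2) * h1
  · intro k
    have h0 : ((((z 0).gcd (z 1) : ℤ)).gcd (z 2) : ℤ) ∣ ((z 0).gcd (z 1) : ℤ) := Int.gcd_dvd_left ..
    fin_cases k
    · exact h0.trans (Int.gcd_dvd_left ..)
    · exact h0.trans (Int.gcd_dvd_right ..)
    · exact Int.gcd_dvd_right ..

/-- parallel vectors -/
lemma par_card {g : ℕ} (hg : 1 ≤ g) (T : Finset (Fin 3 → ℤ)) (hT : ∀ z ∈ T, Cont g z)
    (hp : ∀ u ∈ T, ∀ v ∈ T, cr u v = 0) : T.card ≤ 2 * g := by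
  classical
  rcases T.eq_empty_or_nonempty with h0 | ⟨z0, hz0⟩
  · rw [h0]; simp
  obtain ⟨a, D, hD, haD, hDz⟩ := bezout z0 (hT z0 hz0).1
  choose Y hY using hDz
  have hrel : ∀ z ∈ T, ∀ k, z k = dot a z * Y k := by
    intro z hz k
    have h1 := hp z0 hz0 z hz
    have e0 : cr z0 z 0 = 0 := by rw [h1]; rfl
    have e1 : cr z0 z 1 = 0 := by rw [h1]; rfl
    have e2 : cr z0 z 2 = 0 := by rw [h1]; rfl
    rw [cr_zero] at e0
    rw [cr_one] at e1
    rw [cr_two] at e2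
    have hd : D = a 0 * z0 0 + a 1 * z0 1 + a 2 * z0 2 := haD.symm
    apply mul_left_cancel₀ hD
    have h2 : D * z k = z0 k * dot a z := by
      unfold dot
      rw [hd]
      fin_cases k
      · simp only [Fin.zero_eta]; linear_combination -(a 1) * e2 + a 2 * e1
      · simp only [Fin.mk_one]; linear_combination (a 0) * e2 - a 2 * e0
      · simp only [Fin.reduceFinMk]; linear_combination -(a 0) * e1 + a 1 * e0
    rw [h2, hY k]
    ring
  have hmaps : ∀ z ∈ T, dot a z ∈ (Icc (-(g : ℤ)) g).erase 0 := by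
    intro z hz
    have hdv : dot a z ∣ g := by
      refine (hT z hz).2 _ fun k => ?_
      rw [hrel z hz k]
      exact Dvd.intro _ rfl
    have hg0 : (0 : ℤ) < g := by exact_mod_cast hg
    rw [mem_erase, mem_Icc]
    refine ⟨?_, ?_⟩
    · intro h
      rw [h] at hdv
      have := zero_dvd_iff.1 hdv
      omega
    · have h1 := Int.le_of_dvd hg0 hdv
      have h2 := Int.le_of_dvd hg0 ((neg_dvd).2 hdv)
      constructor <;> omega
  have hinj : Set.InjOn (fun z => dot a z) (T : Set (Fin 3 → ℤ)) := by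
    intro z hz z' hz' h
    funext k
    rw [hrel z hz k, hrel z' hz' k]
    simp only at h
    rw [h]
  have h3 := Finset.card_le_card_of_injOn _ hmaps hinj
  rw [Finset.card_erase_of_mem (by rw [mem_Icc]; omega), Int.card_Icc] at h3
  omega

variable {q : ℕ} {ℓ : Fin q → Fin 3 → ℤ} {Θ H : ℕ}

/-- the first kind of fibre -/
lemma fibA (g : GP ℓ Θ H) {M Z : ℕ} (hZ : 1 ≤ Z) {i j : Fin q} (hij : i ≠ j) {a b : ℕ}
    (hsq : Squarefree (a * b)) (hco : (a * b).Coprime Θ) (hZM : Z < M * (a * b))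
    (T : Finset (Fin 3 → ℤ)) (hT : ∀ Y ∈ T, Cont 1 Y ∧ (∀ k, |Y k| ≤ Z) ∧
      dt Y (ℓ i) (ℓ j) = 0 ∧ (∀ p : ℕ, p.Prime → p ∣ a → ∀ k, (p : ℤ) ^ 2 ∣ cr Y (ℓ i) k) ∧
      (∀ p : ℕ, p.Prime → p ∣ b → ∀ k, (p : ℤ) ^ 2 ∣ cr Y (ℓ j) k)) :
    T.card ≤ 2 + 729 * M ^ 2 := by
  have hnd : ∀ p : ℕ, p.Prime → p ∣ a * b → ¬ p ∣ Θ := by
    intro p hp h h'
    exact hp.one_lt.ne' (Nat.dvd_one.1 (hco ▸ Nat.dvd_gcd h h'))
  rcases tri T (fun _ => Z) (fun _ => hZ) (fun z hz k => (hT z hz).2.1 k) with h | h | h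
  · have := par_card (le_refl 1) T (fun z hz => (hT z hz).1) h
    omega
  · obtain ⟨v, w, hv, hw, hV, -, hcard⟩ := h
    have hdiv : ∀ k, ((a * b : ℕ) : ℤ) ^ 2 ∣ cr v w k := by
      intro k
      refine sqf_dvd hsq 2 fun p hp hpab => ?_
      have hpΘ := hnd p hp hpab
      rcases (hp.dvd_mul).1 hpab with hpa | hpb
      · obtain ⟨k', hk'⟩ := g.exists_l hpΘ i
        have hspan := span_cr (T := (T : Set (Fin 3 → ℤ))) (ℓ := ℓ i) (m := (p : ℤ) ^ 2)
          fun Y hY => (hT Y hY).2.2.2.1 p hp hpa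
        exact dvd_cancel hp hk' 2 2 (cr_dvd (hspan v hv) (hspan w hw) k' k)
      · obtain ⟨k', hk'⟩ := g.exists_l hpΘ j
        have hspan := span_cr (T := (T : Set (Fin 3 → ℤ))) (ℓ := ℓ j) (m := (p : ℤ) ^ 2)
          fun Y hY => (hT Y hY).2.2.2.2 p hp hpb
        exact dvd_cancel hp hk' 2 2 (cr_dvd (hspan v hv) (hspan w hw) k' k)
    obtain ⟨k, hk⟩ : ∃ k, cr v w k ≠ 0 := by
      by_contra hcon
      push Not at hcon
      exact hV (funext hcon)
    have h1 := hcard k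
    rw [Fin.prod_univ_three] at h1
    have h2 : (a * b) ^ 2 ≤ (cr v w k).natAbs := by
      have h3 := hdiv k
      have h4 : (a * b) ^ 2 ∣ (cr v w k).natAbs := by
        rw [← Int.natCast_dvd]
        exact_mod_cast h3
      exact Nat.le_of_dvd (by omega) h4
    have h5 : Z ^ 2 ≤ M ^ 2 * (a * b) ^ 2 := by
      rw [← mul_pow]
      exact Nat.pow_le_pow_left hZM.le 2
    have h6 : T.card * Z ^ 3 ≤ (729 * M ^ 2) * Z ^ 3 := by
      calc T.card * Z ^ 3 = T.card * Z ^ 2 * Z := by ring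
        _ ≤ T.card * (M ^ 2 * (a * b) ^ 2) * Z := by gcongr
        _ ≤ T.card * (M ^ 2 * (cr v w k).natAbs) * Z := by gcongr
        _ = M ^ 2 * (T.card * (cr v w k).natAbs * Z) := by ring
        _ ≤ M ^ 2 * (729 * (Z * Z * Z)) := by gcongr
        _ = _ := by ring
    have := Nat.le_of_mul_le_mul_right h6 (by positivity)
    omega
  · exfalso
    obtain ⟨u, v, w, hu, hv, hw, hD, -⟩ := h
    have hW : ∀ x ∈ Submodule.span ℤ (T : Set (Fin 3 → ℤ)), dot x (cr (ℓ i) (ℓ j)) = 0 := by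
      intro x hx
      have := span_dot (T := (T : Set (Fin 3 → ℤ))) (W := cr (ℓ i) (ℓ j)) (m := 0)
        (fun Y hY => zero_dvd_iff.2 (hT Y hY).2.2.1) x hx
      exact zero_dvd_iff.1 this
    obtain ⟨k, hk⟩ : ∃ k, cr (ℓ i) (ℓ j) k ≠ 0 := by
      by_contra hcon
      push Not at hcon
      exact g.c0 hij (funext hcon)
    have h1 := cramer u v w (cr (ℓ i) (ℓ j)) k
    rw [hW u hu, hW v hv, hW w hw] at h1
    simp only [zero_mul, add_zero] at h1
    exact (mul_ne_zero hk hD) h1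

/-- the second kind of fibre -/
lemma fibB (g : GP ℓ Θ H) {M Z C₁ : ℕ} (hZ : 1 ≤ Z) (t : Fin q → ℕ)
    (hsq : Squarefree (∏ l, t l)) (hco : (∏ l, t l).Coprime Θ)
    (hZM : Z < M * ((∏ l, t l) * (∏ l, t l).minFac)) (hC₁ : Z ^ 3 ≤ C₁ * (∏ l, t l) ^ 4)
    (h3 : ∃ i j k, i ≠ j ∧ i ≠ k ∧ j ≠ k ∧ t i ≠ 1 ∧ t j ≠ 1 ∧ t k ≠ 1)
    (T : Finset (Fin 3 → ℤ)) (hT : ∀ Y ∈ T, Cont 1 Y ∧ (∀ k, |Y k| ≤ Z) ∧
      (∀ l, ∀ p : ℕ, p.Prime → p ∣ t l → ∀ k, (p : ℤ) ^ 2 ∣ cr Y (ℓ l) k)) :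
    T.card ≤ 2 + 729 * C₁ + 2187 * H * M ^ 2 := by
  set s := ∏ l, t l with hs
  have hs0 : s ≠ 0 := hsq.ne_zero
  have hnd : ∀ p : ℕ, p.Prime → p ∣ s → ¬ p ∣ Θ := by
    intro p hp h h'
    exact hp.one_lt.ne' (Nat.dvd_one.1 (hco ▸ Nat.dvd_gcd h h'))
  have hspan : ∀ l, ∀ p : ℕ, p.Prime → p ∣ t l → ∀ x ∈ Submodule.span ℤ (T : Set (Fin 3 → ℤ)),
      ∀ k, (p : ℤ) ^ 2 ∣ cr x (ℓ l) k := by
    intro l p hp hpt
    exact span_cr (T := (T : Set (Fin 3 → ℤ))) (ℓ := ℓ l) (m := (p : ℤ) ^ 2)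
      fun Y hY => (hT Y hY).2.2 l p hp hpt
  have hps : ∀ p : ℕ, p.Prime → p ∣ s → ∃ l, p ∣ t l := by
    intro p hp hps
    obtain ⟨l, -, hl⟩ := (hp.prime.dvd_finsetProd_iff _).1 hps
    exact ⟨l, hl⟩
  rcases tri T (fun _ => Z) (fun _ => hZ) (fun z hz k => (hT z hz).2.1 k) with h | h | h
  · have := par_card (le_refl 1) T (fun z hz => (hT z hz).1) h
    omega
  · obtain ⟨v, w, hv, hw, hV, -, hcard⟩ := h
    have hdiv : ∀ k, (s : ℤ) ^ 2 ∣ cr v w k := by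
      intro k
      refine sqf_dvd hsq 2 fun p hp hpab => ?_
      have hpΘ := hnd p hp hpab
      obtain ⟨l, hl⟩ := hps p hp hpab
      obtain ⟨k', hk'⟩ := g.exists_l hpΘ l
      exact dvd_cancel hp hk' 2 2 (cr_dvd (hspan l p hp hl v hv) (hspan l p hp hl w hw) k' k)
    choose P hP using hdiv
    have hP0 : P ≠ 0 := by
      rintro rfl
      apply hV
      funext k
      rw [hP k]
      simp
    obtain ⟨l, hl1, hlP⟩ : ∃ l, t l ≠ 1 ∧ dot (ℓ l) P ≠ 0 := by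
      obtain ⟨i, j, k, hij, hik, hjk, hi, hj, hk⟩ := h3
      by_contra hcon
      push Not at hcon
      apply hP0
      funext m
      have h1 := cramer (ℓ i) (ℓ j) (ℓ k) P m
      rw [hcon i hi, hcon j hj, hcon k hk] at h1
      simp only [zero_mul, add_zero] at h1
      exact (mul_eq_zero.1 h1).resolve_right (g.d i j k hij hik hjk).1
    obtain ⟨p, hp, hpt⟩ := Nat.exists_prime_and_dvd hl1
    have hpsd : p ∣ s := hpt.trans (Finset.dvd_prod_of_mem t (mem_univ l))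
    have hpΘ := hnd p hp hpsd
    obtain ⟨k', hk'⟩ := g.exists_l hpΘ l
    have h4 : ((p : ℤ) ^ 2) ^ 2 ∣ dt (ℓ l) v w := by
      have := dt_dvd (hspan l p hp hpt v hv) (hspan l p hp hpt w hw) k'
      rw [← pow_mul] at this ⊢
      exact dvd_cancel hp hk' _ 2 this
    have h5 : dt (ℓ l) v w = (s : ℤ) ^ 2 * dot (ℓ l) P := by
      unfold dt dot
      rw [hP 0, hP 1, hP 2]
      ring
    have h6 : (p : ℤ) ^ 2 ∣ dot (ℓ l) P := by
      obtain ⟨r, hr⟩ := hpsd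
      have hpr : ¬ p ∣ r := by
        intro hpr
        have : p * p ∣ s := by
          rw [hr]
          exact Nat.mul_dvd_mul_left p hpr
        exact hp.one_lt.ne' (Nat.isUnit_iff.1 (hsq p this))
      rw [h5, hr] at h4
      have h7 : (p : ℤ) ^ 2 ∣ (r : ℤ) ^ 2 * dot (ℓ l) P := by
        have hp0 : ((p : ℤ) ^ 2) ≠ 0 := by
          have := hp.pos
          positivity
        obtain ⟨e, he⟩ := h4
        refine ⟨e, mul_left_cancel₀ hp0 ?_⟩
        push_cast at he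
        linear_combination he
      refine dvd_cancel hp (a := (r : ℤ)) ?_ 2 2 h7
      intro h8
      exact hpr (by exact_mod_cast h8)
    -- the sizes
    have hmin : s.minFac ≤ p := Nat.minFac_le_of_dvd hp.two_le hpsd
    have h7 : p ^ 2 ≤ 3 * H * nm P := by
      have h8 : (p : ℤ) ^ 2 ≤ |dot (ℓ l) P| := by
        have : |((p : ℤ) ^ 2)| ≤ |dot (ℓ l) P| := Int.le_of_dvd (abs_pos.2 hlP)
          ((abs_dvd_abs _ _).2 h6)
        rwa [abs_of_nonneg (by positivity)] at this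
      have h9 : |dot (ℓ l) P| ≤ 3 * H * nm P := by
        unfold dot
        have hb := fun k => mul_le_mul (g.bd l k) (abs_le_nm P k) (abs_nonneg _)
          (Int.natCast_nonneg H)
        calc |ℓ l 0 * P 0 + ℓ l 1 * P 1 + ℓ l 2 * P 2| ≤
              |ℓ l 0 * P 0| + |ℓ l 1 * P 1| + |ℓ l 2 * P 2| := abs_add_three _ _ _
          _ = |ℓ l 0| * |P 0| + |ℓ l 1| * |P 1| + |ℓ l 2| * |P 2| := by
              rw [abs_mul, abs_mul, abs_mul]
          _ ≤ H * nm P + H * nm P + H * nm P := add_le_add (add_le_add (hb 0) (hb 1)) (hb 2)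
          _ = _ := by ring
      exact_mod_cast h8.trans h9
    obtain ⟨k, hk⟩ := exists_nm P
    have h8 := hcard k
    rw [Fin.prod_univ_three, hP k, Int.natAbs_mul, hk, Int.natAbs_pow, Int.natAbs_natCast] at h8
    have h10 : Z ^ 2 ≤ M ^ 2 * (s ^ 2 * p ^ 2) := by
      rw [← mul_pow, ← mul_pow]
      refine Nat.pow_le_pow_left (hZM.le.trans ?_) 2
      gcongr
    have h11 : T.card * Z ^ 3 ≤ (2187 * H * M ^ 2) * Z ^ 3 := by
      calc T.card * Z ^ 3 = T.card * Z ^ 2 * Z := by ring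
        _ ≤ T.card * (M ^ 2 * (s ^ 2 * p ^ 2)) * Z := by gcongr
        _ ≤ T.card * (M ^ 2 * (s ^ 2 * (3 * H * nm P))) * Z := by gcongr
        _ = 3 * H * M ^ 2 * (T.card * (s ^ 2 * nm P) * Z) := by ring
        _ ≤ 3 * H * M ^ 2 * (729 * (Z * Z * Z)) := by gcongr
        _ = _ := by ring
    have := Nat.le_of_mul_le_mul_right h11 (by positivity)
    omega
  · obtain ⟨u, v, w, hu, hv, hw, hD, hcard⟩ := h
    have hdiv : (s : ℤ) ^ 4 ∣ dt u v w := by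
      refine sqf_dvd hsq 4 fun p hp hpab => ?_
      have hpΘ := hnd p hp hpab
      obtain ⟨l, hl⟩ := hps p hp hpab
      obtain ⟨k', hk'⟩ := g.exists_l hpΘ l
      have := dt_dvd3 (hspan l p hp hl u hu) (hspan l p hp hl v hv) (hspan l p hp hl w hw) k'
      rw [← pow_mul] at this
      exact dvd_cancel hp hk' _ 3 this
    have h1 : s ^ 4 ≤ (dt u v w).natAbs := by
      have h4 : s ^ 4 ∣ (dt u v w).natAbs := by
        rw [← Int.natCast_dvd]
        exact_mod_cast hdiv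
      exact Nat.le_of_dvd (by omega) h4
    rw [Fin.prod_univ_three] at hcard
    have h2 : T.card * s ^ 4 ≤ (729 * C₁) * s ^ 4 := by
      calc T.card * s ^ 4 ≤ T.card * (dt u v w).natAbs := by gcongr
        _ ≤ 729 * (Z * Z * Z) := hcard
        _ = 729 * Z ^ 3 := by ring
        _ ≤ 729 * (C₁ * s ^ 4) := by gcongr
        _ = _ := by ring
    have := Nat.le_of_mul_le_mul_right h2 (by positivity)
    omega

end Pool.Agent.K4H9.PP
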