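import Pool.Agent.K4H9.PP.Low

set_option autoImplicit false

/-!
The lower bound on the line through two double points.
-/

namespace Pool.Agent.K4H9.PP

open Finset

variable {q : ℕ} {L : Fin q → Fin 3 → ℤ} {Θ H : ℕ}

theorem lower2 (g : GP L Θ H) {i j k m : Fin q} (hij : i ≠ j) (hik : i ≠ k) (him : i ≠ m)
    (hjk : j ≠ k) (hjm : j ≠ m) (hkm : k ≠ m) :
    ∃ C μ : ℝ, 0 < C ∧ 0 < μ ∧ ∀ M : ℕ, 8 * q ≤ M → 1 ≤ M → ∃ T : Finset (Fin 3 → ℤ),
      μ * (M : ℝ) ^ 2 ≤ (T.card : ℝ) ∧ ∀ x ∈ T, Cont 1 x ∧ nm x ≤ 6 * H ^ 2 * M ∧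
      (∀ l, dot x (L l) ≠ 0) ∧
      (rd (∏ l, (dot x (L l)).natAbs) : ℝ) ≤ C * (nm x : ℝ) ^ ((q : ℝ) - 2) := by
  classical
  have hq3 := g.q3
  have hH := g.H1
  have hq4 : 4 ≤ q := by
    have h1 : ({i, j, k, m} : Finset (Fin q)).card = 4 := by
      rw [Finset.card_insert_of_notMem (by simp [hij, hik, him]),
        Finset.card_insert_of_notMem (by simp [hjk, hjm]), Finset.card_pair hkm]
    have h2 := Finset.card_le_univ ({i, j, k, m} : Finset (Fin q))
    rw [Fintype.card_fin] at h2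
    omega
  have hHr : (1 : ℝ) ≤ H := by exact_mod_cast hH
  set A : Fin 3 → ℤ := cr (L i) (L j) with hA
  set A' : Fin 3 → ℤ := cr (L k) (L m) with hA'
  have hAi : dot A (L i) = 0 := by
    simp only [hA, dot, cr_zero, cr_one, cr_two]; ring
  have hAj : dot A (L j) = 0 := by
    simp only [hA, dot, cr_zero, cr_one, cr_two]; ring
  have hA'k : dot A' (L k) = 0 := by
    simp only [hA', dot, cr_zero, cr_one, cr_two]; ring
  have hA'm : dot A' (L m) = 0 := by
    simp only [hA', dot, cr_zero, cr_one, cr_two]; ring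
  have hAne : ∀ l, l ≠ i → l ≠ j → dot A (L l) ≠ 0 := by
    intro l hli hlj
    rw [dot_comm]
    exact (g.d l i j hli hlj hij).1
  have hA'ne : ∀ l, l ≠ k → l ≠ m → dot A' (L l) ≠ 0 := by
    intro l hlk hlm
    rw [dot_comm]
    exact (g.d l k m hlk hlm hkm).1
  set a₀ := dot A' (L i) with ha₀
  set a₁ := dot A' (L j) with ha₁
  set a₂ := dot A (L k) with ha₂
  set a₃ := dot A (L m) with ha₃
  have ha₀0 : a₀ ≠ 0 := hA'ne i hik him
  have ha₁0 : a₁ ≠ 0 := hA'ne j hjk hjm
  have ha₂0 : a₂ ≠ 0 := hAne k hik.symm hjk.symm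
  have ha₃0 : a₃ ≠ 0 := hAne m him.symm hjm.symm
  set E : ℕ := (a₀ * a₂).natAbs with hE
  have hE1 : 1 ≤ E := by
    have := mul_ne_zero ha₀0 ha₂0
    omega
  have hEr : (1 : ℝ) ≤ E := by exact_mod_cast hE1
  set F : ℕ := (a₀ * a₁ * a₂ * a₃).natAbs with hF
  have hF0 : F ≠ 0 := by
    have := mul_ne_zero (mul_ne_zero (mul_ne_zero ha₀0 ha₁0) ha₂0) ha₃0
    omega
  have hFr : (0 : ℝ) < F := by exact_mod_cast Nat.pos_of_ne_zero hF0
  refine ⟨F * (3 * H * E) ^ (q - 2), 1 / (8 * E), by positivity, by positivity,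
    fun M hMq hM1 => ?_⟩
  have hM1r : (1 : ℝ) ≤ M := by exact_mod_cast hM1
  have hM0 : (0 : ℝ) < M := by linarith
  set P : ℕ × ℕ → Fin 3 → ℤ := fun x => (x.1 : ℤ) • A + (x.2 : ℤ) • A' with hP
  have hPdot : ∀ x l, dot (P x) (L l) = x.1 * dot A (L l) + x.2 * dot A' (L l) := by
    intro x l
    simp only [hP, dot_add, dot_smul]
  have hPi : ∀ x, dot (P x) (L i) = x.2 * a₀ := by
    intro x
    rw [hPdot, hAi]
    ring
  have hPj : ∀ x, dot (P x) (L j) = x.2 * a₁ := by
    intro x
    rw [hPdot, hAj]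
    ring
  have hPk : ∀ x, dot (P x) (L k) = x.1 * a₂ := by
    intro x
    rw [hPdot, hA'k]
    ring
  have hPm : ∀ x, dot (P x) (L m) = x.1 * a₃ := by
    intro x
    rw [hPdot, hA'm]
    ring
  set CP := (Ioc 0 M ×ˢ Ioc 0 M).filter fun x => x.1.Coprime x.2 with hCP
  have hmemCP : ∀ x ∈ CP, 0 < x.1 ∧ x.1 ≤ M ∧ 0 < x.2 ∧ x.2 ≤ M ∧ x.1.Coprime x.2 := by
    intro x hx
    rw [hCP, mem_filter, mem_product, mem_Ioc, mem_Ioc] at hx
    obtain ⟨⟨⟨h1, h2⟩, h3, h4⟩, h5⟩ := hx
    exact ⟨h1, h2, h3, h4, h5⟩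
  set T₀ := CP.filter fun x => ∀ l, dot (P x) (L l) ≠ 0 with hT₀
  set T₁ := CP.filter fun x => ¬ ∀ l, dot (P x) (L l) ≠ 0 with hT₁
  have hT₁card : T₁.card ≤ q * M := by
    have h1 : T₁ ⊆ (univ : Finset (Fin q)).biUnion fun l =>
        CP.filter fun x => dot (P x) (L l) = 0 := by
      intro x hx
      rw [hT₁, mem_filter] at hx
      obtain ⟨h2, h3⟩ := hx
      push Not at h3
      obtain ⟨l, hl⟩ := h3
      rw [mem_biUnion]
      exact ⟨l, mem_univ _, mem_filter.2 ⟨h2, hl⟩⟩
    refine (Finset.card_le_card h1).trans (Finset.card_biUnion_le.trans ?_)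
    have hempty : ∀ l, (∀ x ∈ CP, dot (P x) (L l) ≠ 0) →
        (CP.filter fun x => dot (P x) (L l) = 0).card ≤ M := by
      intro l hl
      have h3 : (CP.filter fun x => dot (P x) (L l) = 0) = ∅ := by
        rw [Finset.filter_eq_empty_iff]
        exact hl
      rw [h3]
      simp
    have h2 : ∀ l ∈ (univ : Finset (Fin q)), (CP.filter fun x => dot (P x) (L l) = 0).card ≤ M := by
      intro l _
      by_cases hlk : l = k
      · rw [hlk]
        refine hempty k fun x hx => ?_
        rw [hPk]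
        refine mul_ne_zero ?_ ha₂0
        have := (hmemCP x hx).1
        exact_mod_cast this.ne'
      by_cases hlm : l = m
      · rw [hlm]
        refine hempty m fun x hx => ?_
        rw [hPm]
        refine mul_ne_zero ?_ ha₃0
        have := (hmemCP x hx).1
        exact_mod_cast this.ne'
      have hγ : dot A' (L l) ≠ 0 := hA'ne l hlk hlm
      have h3 : (CP.filter fun x => dot (P x) (L l) = 0).card ≤ (Ioc 0 M).card := by
        refine Finset.card_le_card_of_injOn (fun x => x.1) ?_ ?_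
        · intro x hx
          have hx' := mem_filter.1 (Finset.mem_coe.1 hx)
          have h4 := hmemCP x hx'.1
          rw [Finset.mem_coe]
          exact mem_Ioc.2 ⟨h4.1, h4.2.1⟩
        · intro x hx y hy h
          have hx' := (mem_filter.1 (Finset.mem_coe.1 hx)).2
          have hy' := (mem_filter.1 (Finset.mem_coe.1 hy)).2
          simp only at h
          rw [hPdot] at hx' hy'
          have h4 : ((x.2 : ℤ) - y.2) * dot A' (L l) = 0 := by
            rw [h] at hx'
            linear_combination hx' - hy'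
          have h5 := (mul_eq_zero.1 h4).resolve_right hγ
          have h6 : x.2 = y.2 := by
            have : (x.2 : ℤ) = y.2 := by linarith
            exact_mod_cast this
          exact Prod.ext h h6
      rw [Nat.card_Ioc, Nat.sub_zero] at h3
      exact h3
    refine (Finset.sum_le_sum h2).trans ?_
    rw [Finset.sum_const, Finset.card_univ, Fintype.card_fin, smul_eq_mul]
  have hT₀card : (1 / 8) * (M : ℝ) ^ 2 ≤ T₀.card := by
    have h1 : T₀.card + T₁.card = CP.card := Finset.card_filter_add_card_filter_not _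
    have h2 : (T₀.card : ℝ) + T₁.card = CP.card := by exact_mod_cast h1
    have h3 : (T₁.card : ℝ) ≤ q * M := by exact_mod_cast hT₁card
    have h4 : (8 * q : ℝ) ≤ M := by exact_mod_cast hMq
    have h5 := coprime_pairs M
    rw [← hCP] at h5
    nlinarith
  have hinj : Set.InjOn P (T₀ : Set (ℕ × ℕ)) := by
    intro x _ y _ h
    have h1 := hPi x
    have h2 := hPk x
    rw [h] at h1 h2
    rw [hPi] at h1
    rw [hPk] at h2
    have e1 : y.2 = x.2 := by exact_mod_cast mul_right_cancel₀ ha₀0 h1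
    have e2 : y.1 = x.1 := by exact_mod_cast mul_right_cancel₀ ha₂0 h2
    exact (Prod.ext e2 e1).symm
  have hmemT : ∀ x ∈ T₀, x ∈ CP ∧ ∀ l, dot (P x) (L l) ≠ 0 := by
    intro x hx
    rw [hT₀, mem_filter] at hx
    exact hx
  obtain ⟨T', hT'card, hT'⟩ := prim_image hE1 (T₀.image P) (by
    intro z hz
    obtain ⟨x, hx, rfl⟩ := mem_image.1 hz
    obtain ⟨h1, h4⟩ := hmemT x hx
    obtain ⟨h5, h6, h7, h8, h9⟩ := hmemCP x h1
    refine ⟨?_, fun d hd => ?_⟩
    · intro h0
      apply h4 i
      rw [h0]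
      simp [dot]
    · have h11 : ∀ l, d ∣ dot (P x) (L l) := by
        intro l
        unfold dot
        exact dvd_add (dvd_add (Dvd.dvd.mul_right (hd 0) _) (Dvd.dvd.mul_right (hd 1) _))
          (Dvd.dvd.mul_right (hd 2) _)
      have h12 := h11 i
      have h13 := h11 k
      rw [hPi] at h12
      rw [hPk] at h13
      refine Int.dvd_natAbs.2 (coprime_dvd h9 ?_ ?_)
      · have : (x.1 : ℤ) * (a₀ * a₂) = ((x.1 : ℤ) * a₂) * a₀ := by ring
        rw [this]
        exact Dvd.dvd.mul_right h13 _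
      · have : (x.2 : ℤ) * (a₀ * a₂) = ((x.2 : ℤ) * a₀) * a₂ := by ring
        rw [this]
        exact Dvd.dvd.mul_right h12 _)
  refine ⟨T', ?_, ?_⟩
  · rw [Finset.card_image_of_injOn hinj] at hT'card
    have h1 : (T₀.card : ℝ) ≤ E * T'.card := by exact_mod_cast hT'card
    calc 1 / (8 * (E : ℝ)) * (M : ℝ) ^ 2 = (1 / 8 * (M : ℝ) ^ 2) / (E : ℝ) := by
          field_simp
      _ ≤ ((E : ℝ) * (T'.card : ℝ)) / (E : ℝ) := by
          refine div_le_div_of_nonneg_right (hT₀card.trans h1) (by positivity)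
      _ = _ := by field_simp
  · intro x hx
    obtain ⟨hx1, z, hz, t, ht1, htD, hzx⟩ := hT' x hx
    obtain ⟨y, hy, rfl⟩ := mem_image.1 hz
    obtain ⟨h3, h4⟩ := hmemT y hy
    obtain ⟨h5, h6, h7, h8, h9⟩ := hmemCP y h3
    have hdotx : ∀ l, dot (P y) (L l) = t * dot x (L l) := by
      intro l
      rw [hzx, dot_smul]
    have hnm : nm (P y) = t * nm x := by
      rw [hzx]
      exact nm_smul _ _
    have hnmx : nm x ≤ nm (P y) := by
      rw [hnm]
      exact Nat.le_mul_of_pos_left _ ht1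
    have hnm2 : nm (P y) ≤ E * nm x := by
      rw [hnm]
      exact Nat.mul_le_mul_right _ htD
    have hx0 : ∀ l, dot x (L l) ≠ 0 := by
      intro l h0
      apply h4 l
      rw [hdotx, h0, mul_zero]
    refine ⟨hx1, ?_, hx0, ?_⟩
    · refine hnmx.trans ?_
      have hb : ∀ s, |P y s| ≤ ((6 * H ^ 2 * M : ℕ) : ℤ) := by
        intro s
        have hval : P y s = y.1 * cr (L i) (L j) s + y.2 * cr (L k) (L m) s := by
          simp only [hP, hA, hA', Pi.add_apply, Pi.smul_apply, smul_eq_mul]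
        rw [hval]
        have hterm : ∀ (n : ℕ) (a b : Fin q), n ≤ M →
            |(n : ℤ) * cr (L a) (L b) s| ≤ M * (2 * H ^ 2) := by
          intro n a b hn
          rw [abs_mul, abs_of_nonneg (Int.natCast_nonneg n)]
          exact mul_le_mul (by exact_mod_cast hn) (crL_le g a b s) (abs_nonneg _)
            (Int.natCast_nonneg M)
        calc _ ≤ _ := abs_add_le _ _
          _ ≤ (M : ℤ) * (2 * H ^ 2) + M * (2 * H ^ 2) :=
              add_le_add (hterm _ i j h6) (hterm _ k m h8)
          _ ≤ (M : ℤ) * (2 * H ^ 2) + M * (2 * H ^ 2) + M * (2 * H ^ 2) := by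
              have : (0 : ℤ) ≤ (M : ℤ) * (2 * H ^ 2) := by positivity
              linarith
          _ = _ := by push_cast; ring
      exact nm_le hb
    · set N : ℕ := 3 * H * (E * nm x) with hN
      have hlin : ∀ l, (dot (P y) (L l)).natAbs ≤ N := by
        intro l
        exact (dot_le g (abs_le_nm (P y)) l).trans (Nat.mul_le_mul_left _ hnm2)
      have hy1 : y.1 ≤ N := by
        have e1 := hlin k
        rw [hPk, Int.natAbs_mul, Int.natAbs_natCast] at e1
        exact (Nat.le_mul_of_pos_right _ (by omega)).trans e1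
      have hy2 : y.2 ≤ N := by
        have e1 := hlin i
        rw [hPi, Int.natAbs_mul, Int.natAbs_natCast] at e1
        exact (Nat.le_mul_of_pos_right _ (by omega)).trans e1
      have hx1' : (1 : ℝ) ≤ nm x := by exact_mod_cast nm_pos hx1.1
      have hprod0 : ∏ l, (dot (P y) (L l)).natAbs ≠ 0 :=
        Finset.prod_ne_zero_iff.2 fun l _ => by simpa using h4 l
      have hdvd : ∏ l, (dot x (L l)).natAbs ∣ ∏ l, (dot (P y) (L l)).natAbs := by
        refine Finset.prod_dvd_prod_of_dvd _ _ fun l _ => ?_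
        rw [hdotx l, Int.natAbs_mul]
        exact Dvd.intro_left _ rfl
      set R4 := (((univ.erase i).erase j).erase k).erase m with hR4
      have hsplit : ∏ l, (dot (P y) (L l)).natAbs = ((y.1 * y.2) ^ 2 * F) *
          ∏ l ∈ R4, (dot (P y) (L l)).natAbs := by
        rw [← Finset.mul_prod_erase univ _ (mem_univ i),
          ← Finset.mul_prod_erase (univ.erase i) _ (mem_erase.2 ⟨hij.symm, mem_univ j⟩),
          ← Finset.mul_prod_erase ((univ.erase i).erase j) _
            (mem_erase.2 ⟨hjk.symm, mem_erase.2 ⟨hik.symm, mem_univ k⟩⟩),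
          ← Finset.mul_prod_erase (((univ.erase i).erase j).erase k) _
            (mem_erase.2 ⟨hkm.symm, mem_erase.2 ⟨hjm.symm, mem_erase.2 ⟨him.symm, mem_univ m⟩⟩⟩)]
        rw [hPi, hPj, hPk, hPm, hF]
        simp only [Int.natAbs_mul, Int.natAbs_natCast]
        ring
      have hR4card : R4.card = q - 4 := by
        rw [hR4, Finset.card_erase_of_mem
            (mem_erase.2 ⟨hkm.symm, mem_erase.2 ⟨hjm.symm, mem_erase.2 ⟨him.symm, mem_univ m⟩⟩⟩),
          Finset.card_erase_of_mem (mem_erase.2 ⟨hjk.symm, mem_erase.2 ⟨hik.symm, mem_univ k⟩⟩),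
          Finset.card_erase_of_mem (mem_erase.2 ⟨hij.symm, mem_univ j⟩),
          Finset.card_erase_of_mem (mem_univ i), Finset.card_univ, Fintype.card_fin]
        omega
      have hrd : rd (∏ l, (dot x (L l)).natAbs) ≤ (N * N) * F * N ^ (q - 4) := by
        refine (rd_mono hdvd hprod0).trans ?_
        rw [hsplit]
        refine (rd_mul_le _ _).trans ?_
        have e1 : rd ((y.1 * y.2) ^ 2 * F) ≤ (N * N) * F := by
          refine (rd_mul_le _ _).trans ?_
          rw [rd_pow (by norm_num)]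
          refine Nat.mul_le_mul ?_ (rd_le_self hF0)
          exact (rd_le_self (Nat.mul_ne_zero h5.ne' h7.ne')).trans (Nat.mul_le_mul hy1 hy2)
        have e2 : rd (∏ l ∈ R4, (dot (P y) (L l)).natAbs) ≤ N ^ (q - 4) := by
          refine (rd_le_self ?_).trans ?_
          · exact Finset.prod_ne_zero_iff.2 fun l _ => by simpa using h4 l
          · rw [← hR4card, ← Finset.prod_const]
            exact Finset.prod_le_prod' fun l _ => hlin l
        exact Nat.mul_le_mul e1 e2
      have hfin : (N * N) * F * N ^ (q - 4) = F * N ^ (q - 2) := by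
        have : q - 2 = (q - 4) + 2 := by omega
        rw [this, pow_add]
        ring
      rw [hfin] at hrd
      calc (rd (∏ l, (dot x (L l)).natAbs) : ℝ) ≤ ((F * N ^ (q - 2) : ℕ) : ℝ) := by
            exact_mod_cast hrd
        _ = F * (3 * H * E) ^ (q - 2) * (nm x : ℝ) ^ (q - 2) := by
            rw [hN]
            push_cast
            rw [← mul_assoc, mul_pow]
            ring
        _ = _ := by
            rw [← Real.rpow_natCast (nm x : ℝ) (q - 2)]
            congr 2
            rw [Nat.cast_sub (by omega)]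
            push_cast
            ring

end Pool.Agent.K4H9.PP
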