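import Mathlib

set_option autoImplicit false

/-!
Packing: the number of points of a lattice in a box which contains a basis of the space.
-/

namespace Pool.Agent.K4H9.PP

open Finset Module

/-- representatives of all classes in a box -/
lemma exists_rep {n : ℕ} (Λ : Submodule ℤ (Fin n → ℤ)) (P : Fin n → Fin n → ℤ)
    (hP : ∀ i, P i ∈ Λ) (hPd : (Matrix.of P).det ≠ 0) (b : Fin n → ℕ)
    (hPb : ∀ i j, |P i j| ≤ b j) (x : Fin n → ℤ) :
    ∃ r : Fin n → ℤ, x - r ∈ Λ ∧ ∀ j, |r j| ≤ n * b j := by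
  classical
  set PQ : Matrix (Fin n) (Fin n) ℚ := (Matrix.of P).map (Int.cast : ℤ → ℚ) with hPQ
  have hdet : PQ.det ≠ 0 := by
    have : PQ.det = ((Matrix.of P).det : ℚ) := by
      rw [hPQ]
      exact (Int.cast_det _).symm
    rw [this]
    exact_mod_cast hPd
  set xq : Fin n → ℚ := fun j => (x j : ℚ) with hxq
  set α : Fin n → ℚ := Matrix.vecMul xq PQ⁻¹ with hα
  have hαP : Matrix.vecMul α PQ = xq := by
    rw [hα, Matrix.vecMul_vecMul, Matrix.nonsing_inv_mul _ (isUnit_iff_ne_zero.2 hdet),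
      Matrix.vecMul_one]
  have hαj : ∀ j, ∑ i, α i * (P i j : ℚ) = x j := by
    intro j
    have := congrFun hαP j
    simpa [Matrix.vecMul, dotProduct, hPQ, hxq] using this
  refine ⟨x - ∑ i, ⌊α i⌋ • P i, ?_, fun j => ?_⟩
  · have : x - (x - ∑ i, ⌊α i⌋ • P i) = ∑ i, ⌊α i⌋ • P i := by abel
    rw [this]
    exact Submodule.sum_mem _ fun i _ => Submodule.smul_mem _ _ (hP i)
  · have h1 : (((x - ∑ i, ⌊α i⌋ • P i) j : ℤ) : ℚ) = ∑ i, Int.fract (α i) * (P i j : ℚ) := by
      simp only [Pi.sub_apply, Finset.sum_apply, Pi.smul_apply, smul_eq_mul]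
      push_cast
      rw [← hαj j, ← Finset.sum_sub_distrib]
      refine Finset.sum_congr rfl fun i _ => ?_
      rw [← sub_mul, Int.fract]
    have h2 : |(((x - ∑ i, ⌊α i⌋ • P i) j : ℤ) : ℚ)| ≤ n * b j := by
      rw [h1]
      refine (Finset.abs_sum_le_sum_abs _ _).trans ?_
      calc ∑ i, |Int.fract (α i) * (P i j : ℚ)| ≤ ∑ i : Fin n, (b j : ℚ) := by
            refine Finset.sum_le_sum fun i _ => ?_
            rw [abs_mul, abs_of_nonneg (Int.fract_nonneg _)]
            have h3 : |(P i j : ℚ)| ≤ b j := by exact_mod_cast hPb i j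
            calc Int.fract (α i) * |(P i j : ℚ)| ≤ 1 * |(P i j : ℚ)| :=
                  mul_le_mul_of_nonneg_right (Int.fract_lt_one _).le (abs_nonneg _)
              _ ≤ _ := by rw [one_mul]; exact h3
        _ = n * b j := by
            rw [Finset.sum_const, Finset.card_univ, Fintype.card_fin, nsmul_eq_mul]
    exact_mod_cast h2

theorem pack {n : ℕ} (A : Fin n → Fin n → ℤ) (hA : (Matrix.of A).det ≠ 0)
    (T : Finset (Fin n → ℤ)) (hT : ∀ z ∈ T, z ∈ Submodule.span ℤ (Set.range A))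
    (P : Fin n → Fin n → ℤ) (hP : ∀ i, P i ∈ Submodule.span ℤ (Set.range A))
    (hPd : (Matrix.of P).det ≠ 0) (b : Fin n → ℕ) (hTb : ∀ z ∈ T, ∀ j, |z j| ≤ b j)
    (hPb : ∀ i j, |P i j| ≤ b j) :
    T.card * (Matrix.of A).det.natAbs ≤ ∏ j, (2 * ((n + 1) * b j) + 1) := by
  classical
  have hli : LinearIndependent ℤ A := by
    have := Matrix.linearIndependent_rows_of_det_ne_zero (A := Matrix.of A) hA
    exact this
  set Λ : Submodule ℤ (Fin n → ℤ) := Submodule.span ℤ (Set.range A) with hΛ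
  set bΛ : Basis (Fin n) ℤ Λ := Basis.span hli with hbΛ
  have hcard : (Matrix.of A).det.natAbs = Nat.card ((Fin n → ℤ) ⧸ Λ) := by
    rw [← Submodule.natAbs_det_basis_change (Pi.basisFun ℤ (Fin n)) Λ bΛ]
    congr 1
    have h1 : ((↑) ∘ bΛ : Fin n → Fin n → ℤ) = A := by
      funext i
      rw [Function.comp_apply]
      exact congrArg Subtype.val (Basis.span_apply hli i)
    rw [h1, Pi.basisFun_det]
    rfl
  rw [hcard]
  by_cases h0 : Nat.card ((Fin n → ℤ) ⧸ Λ) = 0
  · rw [h0, mul_zero]; exact Nat.zero_le _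
  have hfin : Finite ((Fin n → ℤ) ⧸ Λ) := Nat.finite_of_card_ne_zero h0
  let _ : Fintype ((Fin n → ℤ) ⧸ Λ) := Fintype.ofFinite _
  have hrep : ∀ g : (Fin n → ℤ) ⧸ Λ, ∃ r : Fin n → ℤ, Submodule.Quotient.mk r = g ∧
      ∀ j, |r j| ≤ n * b j := by
    intro g
    obtain ⟨x, rfl⟩ := Submodule.Quotient.mk_surjective Λ g
    obtain ⟨r, hr1, hr2⟩ := exists_rep Λ P hP hPd b hPb x
    exact ⟨r, ((Submodule.Quotient.eq Λ).2 hr1).symm, hr2⟩
  choose σ hσ1 hσ2 using hrep
  rw [Nat.card_eq_fintype_card, ← Finset.card_univ, ← Finset.card_product]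
  set box : Finset (Fin n → ℤ) := Fintype.piFinset fun j =>
    Finset.Icc (-(((n + 1) * b j : ℕ) : ℤ)) (((n + 1) * b j : ℕ) : ℤ) with hbox
  have hboxc : box.card = ∏ j, (2 * ((n + 1) * b j) + 1) := by
    rw [hbox, Fintype.card_piFinset]
    refine Finset.prod_congr rfl fun j _ => ?_
    rw [Int.card_Icc]
    omega
  rw [← hboxc]
  refine Finset.card_le_card_of_injOn (fun p => p.1 + σ p.2) ?_ ?_
  · rintro ⟨z, g⟩ hp
    have hz : z ∈ T := (Finset.mem_product.1 hp).1
    simp only [hbox, Finset.mem_coe, Fintype.mem_piFinset, Finset.mem_Icc, Pi.add_apply]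
    intro j
    have h1 := hTb z hz j
    have h2 := hσ2 g j
    have h3 : |z j + σ g j| ≤ ((n + 1) * b j : ℕ) := by
      refine (abs_add_le _ _).trans ?_
      push_cast
      linarith
    exact abs_le.1 h3
  · rintro ⟨z, g⟩ hp ⟨z', g'⟩ hp' heq
    have hz : z ∈ T := (Finset.mem_product.1 hp).1
    have hz' : z' ∈ T := (Finset.mem_product.1 hp').1
    simp only at heq
    have h1 : g = g' := by
      rw [← hσ1 g, ← hσ1 g', Submodule.Quotient.eq]
      have : σ g - σ g' = z' - z := by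
        have := heq
        rw [← sub_eq_zero] at this ⊢
        rw [← this]
        abel
      rw [this]
      exact Submodule.sub_mem _ (hT z' hz') (hT z hz)
    subst h1
    simpa using heq

end Pool.Agent.K4H9.PP
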