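import Pool.Agent.K4H9.PP.Pack

set_option autoImplicit false

/-!
Finite sets of integer points in a box, by rank.
-/

namespace Pool.Agent.K4H9.PP

open Finset Module

/-- cross product -/
def cr (u v : Fin 3 → ℤ) : Fin 3 → ℤ :=
  ![u 1 * v 2 - u 2 * v 1, u 2 * v 0 - u 0 * v 2, u 0 * v 1 - u 1 * v 0]

/-- scalar product -/
def dot (u v : Fin 3 → ℤ) : ℤ := u 0 * v 0 + u 1 * v 1 + u 2 * v 2

/-- determinant -/
def dt (u v w : Fin 3 → ℤ) : ℤ := dot u (cr v w)

lemma cr_zero (u v : Fin 3 → ℤ) : cr u v 0 = u 1 * v 2 - u 2 * v 1 := rfl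
lemma cr_one (u v : Fin 3 → ℤ) : cr u v 1 = u 2 * v 0 - u 0 * v 2 := rfl
lemma cr_two (u v : Fin 3 → ℤ) : cr u v 2 = u 0 * v 1 - u 1 * v 0 := rfl

lemma dt_eq (u v w : Fin 3 → ℤ) : dt u v w = u 0 * (v 1 * w 2 - v 2 * w 1) +
    u 1 * (v 2 * w 0 - v 0 * w 2) + u 2 * (v 0 * w 1 - v 1 * w 0) := rfl

lemma dt_det (P : Fin 3 → Fin 3 → ℤ) : (Matrix.of P).det = dt (P 0) (P 1) (P 2) := by
  rw [Matrix.det_fin_three, dt_eq]
  simp only [Matrix.of_apply]
  ring

lemma cr_ext {u v : Fin 3 → ℤ} (h0 : cr u v 0 = 0) (h1 : cr u v 1 = 0) (h2 : cr u v 2 = 0) :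
    cr u v = 0 := by
  funext k
  fin_cases k
  · exact h0
  · exact h1
  · exact h2

lemma dt_span {T : Set (Fin 3 → ℤ)} (h : ∀ u ∈ T, ∀ v ∈ T, ∀ w ∈ T, dt u v w = 0) :
    ∀ u ∈ Submodule.span ℤ T, ∀ v ∈ Submodule.span ℤ T, ∀ w ∈ Submodule.span ℤ T,
      dt u v w = 0 := by
  have h1 : ∀ u ∈ T, ∀ v ∈ T, ∀ w ∈ Submodule.span ℤ T, dt u v w = 0 := by
    intro u hu v hv w hw
    induction hw using Submodule.span_induction with
    | mem w hw => exact h u hu v hv w hw
    | zero => simp [dt_eq]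
    | add x y _ _ hx hy =>
      have : dt u v (x + y) = dt u v x + dt u v y := by
        simp only [dt_eq, Pi.add_apply]; ring
      rw [this, hx, hy, add_zero]
    | smul c x _ hx =>
      have : dt u v (c • x) = c * dt u v x := by
        simp only [dt_eq, Pi.smul_apply, smul_eq_mul]; ring
      rw [this, hx, mul_zero]
  have h2 : ∀ u ∈ T, ∀ v ∈ Submodule.span ℤ T, ∀ w ∈ Submodule.span ℤ T, dt u v w = 0 := by
    intro u hu v hv w hw
    induction hv using Submodule.span_induction with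
    | mem v hv => exact h1 u hu v hv w hw
    | zero => simp [dt_eq]
    | add x y _ _ hx hy =>
      have : dt u (x + y) w = dt u x w + dt u y w := by
        simp only [dt_eq, Pi.add_apply]; ring
      rw [this, hx, hy, add_zero]
    | smul c x _ hx =>
      have : dt u (c • x) w = c * dt u x w := by
        simp only [dt_eq, Pi.smul_apply, smul_eq_mul]; ring
      rw [this, hx, mul_zero]
  intro u hu v hv w hw
  induction hu using Submodule.span_induction with
  | mem u hu => exact h2 u hu v hv w hw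
  | zero => simp [dt_eq]
  | add x y _ _ hx hy =>
    have : dt (x + y) v w = dt x v w + dt y v w := by
      simp only [dt_eq, Pi.add_apply]; ring
    rw [this, hx, hy, add_zero]
  | smul c x _ hx =>
    have : dt (c • x) v w = c * dt x v w := by
      simp only [dt_eq, Pi.smul_apply, smul_eq_mul]; ring
    rw [this, hx, mul_zero]

/-- the two coordinates different from `k` -/
def oth (k : Fin 3) : Fin 2 → Fin 3 := ![![1, 2, 0] k, ![2, 0, 1] k]

/-- forget the coordinate `k` -/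
def prj (k : Fin 3) : (Fin 3 → ℤ) →ₗ[ℤ] (Fin 2 → ℤ) where
  toFun z := fun j => z (oth k j)
  map_add' _ _ := rfl
  map_smul' _ _ := rfl

lemma prj_det (k : Fin 3) (v w : Fin 3 → ℤ) :
    (Matrix.of ![prj k v, prj k w]).det = cr v w k := by
  rw [Matrix.det_fin_two]
  fin_cases k <;> simp [prj, oth, cr] <;> ring

theorem tri (T : Finset (Fin 3 → ℤ)) (b : Fin 3 → ℕ) (hb : ∀ j, 1 ≤ b j)
    (hTb : ∀ z ∈ T, ∀ j, |z j| ≤ b j) :
    (∀ u ∈ T, ∀ v ∈ T, cr u v = 0) ∨
    (∃ v w, v ∈ Submodule.span ℤ (T : Set (Fin 3 → ℤ)) ∧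
      w ∈ Submodule.span ℤ (T : Set (Fin 3 → ℤ)) ∧ cr v w ≠ 0 ∧
      (∀ z ∈ T, dot z (cr v w) = 0) ∧
      ∀ k, T.card * (cr v w k).natAbs * b k ≤ 729 * ∏ j, b j) ∨
    (∃ u v w, u ∈ Submodule.span ℤ (T : Set (Fin 3 → ℤ)) ∧
      v ∈ Submodule.span ℤ (T : Set (Fin 3 → ℤ)) ∧
      w ∈ Submodule.span ℤ (T : Set (Fin 3 → ℤ)) ∧ dt u v w ≠ 0 ∧
      T.card * (dt u v w).natAbs ≤ 729 * ∏ j, b j) := by
  classical
  set Λ : Submodule ℤ (Fin 3 → ℤ) := Submodule.span ℤ (T : Set (Fin 3 → ℤ)) with hΛ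
  have hTΛ : ∀ z ∈ T, z ∈ Λ := fun z hz => Submodule.subset_span hz
  obtain ⟨n, bN⟩ := Submodule.basisOfPid (Pi.basisFun ℤ (Fin 3)) Λ
  set f : Fin n → Fin 3 → ℤ := fun i => (bN i : Fin 3 → ℤ) with hf
  have hfΛ : ∀ i, f i ∈ Λ := fun i => (bN i).2
  have hli : LinearIndependent ℤ f := by
    have := bN.linearIndependent.map' Λ.subtype (Submodule.ker_subtype Λ)
    exact this
  have hn3 : n ≤ 3 := by
    have := hli.fintype_card_le_finrank
    simpa using this
  have hsum : ∀ z ∈ Λ, ∃ c : Fin n → ℤ, z = ∑ i, c i • f i := by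
    intro z hz
    refine ⟨fun i => bN.repr ⟨z, hz⟩ i, ?_⟩
    have := congrArg Subtype.val (bN.sum_repr ⟨z, hz⟩)
    simp only [Submodule.coe_sum, Submodule.coe_smul] at this
    exact this.symm
  by_cases hpar : ∀ u ∈ T, ∀ v ∈ T, cr u v = 0
  · exact Or.inl hpar
  right
  push Not at hpar
  obtain ⟨u0, hu0, v0, hv0, huv⟩ := hpar
  interval_cases n
  · exfalso
    obtain ⟨c, hc⟩ := hsum u0 (hTΛ u0 hu0)
    have h0 : u0 = 0 := by rw [hc]; simp
    apply huv
    rw [h0]
    exact cr_ext (by simp [cr]) (by simp [cr]) (by simp [cr])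
  · exfalso
    obtain ⟨c, hc⟩ := hsum u0 (hTΛ u0 hu0)
    obtain ⟨d, hd⟩ := hsum v0 (hTΛ v0 hv0)
    rw [Fin.sum_univ_one] at hc hd
    apply huv
    rw [hc, hd]
    refine cr_ext ?_ ?_ ?_
    · simp only [cr_zero, Pi.smul_apply, smul_eq_mul]; ring
    · simp only [cr_one, Pi.smul_apply, smul_eq_mul]; ring
    · simp only [cr_two, Pi.smul_apply, smul_eq_mul]; ring
  · left
    have hrel : ∀ z z' : Fin 3 → ℤ, z ∈ Λ → z' ∈ Λ → ∃ e : ℤ, ∀ k,
        cr z z' k = e * cr (f 0) (f 1) k := by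
      intro z z' hz hz'
      obtain ⟨c, hc⟩ := hsum z hz
      obtain ⟨d, hd⟩ := hsum z' hz'
      rw [Fin.sum_univ_two] at hc hd
      refine ⟨c 0 * d 1 - c 1 * d 0, fun k => ?_⟩
      rw [hc, hd]
      fin_cases k
      · change cr _ _ 0 = _ * cr _ _ 0
        simp only [cr_zero, Pi.add_apply, Pi.smul_apply, smul_eq_mul]; ring
      · change cr _ _ 1 = _ * cr _ _ 1
        simp only [cr_one, Pi.add_apply, Pi.smul_apply, smul_eq_mul]; ring
      · change cr _ _ 2 = _ * cr _ _ 2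
        simp only [cr_two, Pi.add_apply, Pi.smul_apply, smul_eq_mul]; ring
    obtain ⟨e, he⟩ := hrel u0 v0 (hTΛ u0 hu0) (hTΛ v0 hv0)
    have hV0 : cr (f 0) (f 1) ≠ 0 := by
      intro h
      apply huv
      funext k
      rw [he k, h]
      simp
    have he0 : e ≠ 0 := by
      rintro rfl
      apply huv
      funext k
      rw [he k, zero_mul]
      rfl
    refine ⟨f 0, f 1, hfΛ 0, hfΛ 1, hV0, fun z hz => ?_, fun k => ?_⟩
    · obtain ⟨c, hc⟩ := hsum z (hTΛ z hz)
      rw [Fin.sum_univ_two] at hc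
      rw [hc]
      simp only [dot, cr_zero, cr_one, cr_two, Pi.add_apply, Pi.smul_apply, smul_eq_mul]
      ring
    · by_cases hk : cr (f 0) (f 1) k = 0
      · rw [hk]; simp
      have hA : (Matrix.of ![prj k (f 0), prj k (f 1)]).det ≠ 0 := by rw [prj_det]; exact hk
      have hrange : ∀ z ∈ Λ, prj k z ∈ Submodule.span ℤ (Set.range ![prj k (f 0), prj k (f 1)]) := by
        intro z hz
        obtain ⟨c, hc⟩ := hsum z hz
        rw [Fin.sum_univ_two] at hc
        rw [hc, map_add, map_smul, map_smul]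
        refine Submodule.add_mem _ (Submodule.smul_mem _ _ (Submodule.subset_span ⟨0, rfl⟩))
          (Submodule.smul_mem _ _ (Submodule.subset_span ⟨1, rfl⟩))
      have hinj : Set.InjOn (prj k) (T : Set (Fin 3 → ℤ)) := by
        intro z hz z' hz' heq
        obtain ⟨c, hc⟩ := hsum z (hTΛ z hz)
        obtain ⟨d, hd⟩ := hsum z' (hTΛ z' hz')
        have h1 : ∑ i, (c i - d i) • ![prj k (f 0), prj k (f 1)] i = 0 := by
          rw [Fin.sum_univ_two]
          simp only [Matrix.cons_val_zero, Matrix.cons_val_one]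
          rw [hc, hd, Fin.sum_univ_two, Fin.sum_univ_two] at heq
          simp only [map_add, map_smul] at heq
          rw [← sub_eq_zero] at heq
          rw [← heq]
          simp only [sub_smul]
          abel
        have hli2 : LinearIndependent ℤ ![prj k (f 0), prj k (f 1)] :=
          Matrix.linearIndependent_rows_of_det_ne_zero
            (A := Matrix.of ![prj k (f 0), prj k (f 1)]) hA
        have h2 := Fintype.linearIndependent_iff.1 hli2 _ h1
        rw [hc, hd]
        refine Finset.sum_congr rfl fun i _ => ?_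
        rw [sub_eq_zero.1 (h2 i)]
      have hp := pack ![prj k (f 0), prj k (f 1)] hA (T.image (prj k)) (by
        intro z hz
        obtain ⟨y, hy, rfl⟩ := Finset.mem_image.1 hz
        exact hrange y (hTΛ y hy)) ![prj k u0, prj k v0] (by
        intro i
        fin_cases i
        · exact hrange u0 (hTΛ u0 hu0)
        · exact hrange v0 (hTΛ v0 hv0)) (by
        rw [prj_det, he k]
        exact mul_ne_zero he0 hk) (fun j => b (oth k j)) (by
        intro z hz j
        obtain ⟨y, hy, rfl⟩ := Finset.mem_image.1 hz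
        exact hTb y hy _) (by
        intro i j
        fin_cases i
        · exact hTb u0 hu0 _
        · exact hTb v0 hv0 _)
      rw [Finset.card_image_of_injOn hinj, prj_det] at hp
      have h3 : ∏ j, (2 * ((2 + 1) * b (oth k j)) + 1) ≤ 729 * (b (oth k 0) * b (oth k 1)) := by
        rw [Fin.prod_univ_two]
        have q0 := hb (oth k 0)
        have q1 := hb (oth k 1)
        nlinarith [Nat.mul_le_mul q0 q1]
      have h4 : b (oth k 0) * b (oth k 1) * b k = ∏ j, b j := by
        rw [Fin.prod_univ_three]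
        fin_cases k
        · simp [oth]; ring
        · simp [oth]; ring
        · simp [oth]
      calc T.card * (cr (f 0) (f 1) k).natAbs * b k ≤
          729 * (b (oth k 0) * b (oth k 1)) * b k := Nat.mul_le_mul_right _ (hp.trans h3)
        _ = 729 * ∏ j, b j := by rw [← h4]; ring
  · right
    have hdet : dt (f 0) (f 1) (f 2) ≠ 0 := by
      intro h0
      rw [← dt_det f] at h0
      obtain ⟨c, hc0, hc⟩ := Matrix.exists_vecMul_eq_zero_iff.2 h0
      apply hc0
      have h1 : ∑ i, c i • f i = 0 := by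
        funext j
        have := congrFun hc j
        simpa [Matrix.vecMul, dotProduct, Finset.sum_apply] using this
      funext i
      exact Fintype.linearIndependent_iff.1 hli c h1 i
    obtain ⟨p0, hp0, p1, hp1, p2, hp2, hpd⟩ : ∃ p0 ∈ T, ∃ p1 ∈ T, ∃ p2 ∈ T, dt p0 p1 p2 ≠ 0 := by
      by_contra hcon
      push Not at hcon
      exact hdet (dt_span (T := (T : Set (Fin 3 → ℤ))) (fun u hu v hv w hw => hcon u hu v hv w hw)
        _ (hfΛ 0) _ (hfΛ 1) _ (hfΛ 2))
    refine ⟨f 0, f 1, f 2, hfΛ 0, hfΛ 1, hfΛ 2, hdet, ?_⟩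
    have hA : (Matrix.of f).det ≠ 0 := by rw [dt_det]; exact hdet
    have hrange : ∀ z ∈ Λ, z ∈ Submodule.span ℤ (Set.range f) := by
      intro z hz
      obtain ⟨c, hc⟩ := hsum z hz
      rw [hc]
      exact Submodule.sum_mem _ fun i _ => Submodule.smul_mem _ _ (Submodule.subset_span ⟨i, rfl⟩)
    have hp := pack f hA T (fun z hz => hrange z (hTΛ z hz)) ![p0, p1, p2] (by
      intro i
      fin_cases i
      · exact hrange p0 (hTΛ p0 hp0)
      · exact hrange p1 (hTΛ p1 hp1)
      · exact hrange p2 (hTΛ p2 hp2)) (by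
      rw [dt_det]
      exact hpd) b hTb (by
      intro i j
      fin_cases i
      · exact hTb p0 hp0 _
      · exact hTb p1 hp1 _
      · exact hTb p2 hp2 _)
    rw [dt_det] at hp
    refine hp.trans ?_
    rw [Fin.prod_univ_three, Fin.prod_univ_three]
    have q0 := hb 0
    have q1 := hb 1
    have q2 := hb 2
    have e0 : 2 * ((3 + 1) * b 0) + 1 ≤ 9 * b 0 := by omega
    have e1 : 2 * ((3 + 1) * b 1) + 1 ≤ 9 * b 1 := by omega
    have e2 : 2 * ((3 + 1) * b 2) + 1 ≤ 9 * b 2 := by omega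
    calc _ ≤ 9 * b 0 * (9 * b 1) * (9 * b 2) := Nat.mul_le_mul (Nat.mul_le_mul e0 e1) e2
      _ = _ := by ring

end Pool.Agent.K4H9.PP
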