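import Pool.Agent.K4H9.PP.Red

set_option autoImplicit false

/-!
The upper bound.
-/

namespace Pool.Agent.K4H9.PP

open Finset

variable {q : ℕ} {L : Fin q → Fin 3 → ℤ} {Θ H : ℕ}

theorem upper (g : GP L Θ H) {κ : ℝ} (hκ0 : 0 ≤ κ) (hκ1 : κ ≤ 1) {Cc : ℝ} (hCc : 1 ≤ Cc)
    {δ : ℝ} (hδ : 0 < δ) :
    ∃ C : ℝ, 0 < C ∧ ∀ B : ℕ, 1 ≤ B → ∀ T : Finset (Fin 3 → ℤ), (∀ x ∈ T, Cont 1 x ∧
      nm x ≤ B ∧ (∀ l, dot x (L l) ≠ 0) ∧
      (rd (∏ l, (dot x (L l)).natAbs) : ℝ) ≤ Cc * (nm x : ℝ) ^ ((q : ℝ) - κ)) →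
      (T.card : ℝ) ≤ C * (B : ℝ) ^ (3 - κ + δ) := by
  classical
  have hq3 := g.q3
  have hH := g.H1
  have hδ2 : 0 < δ / 2 := half_pos hδ
  have hδ6 : 0 < δ / 6 := by positivity
  have hbox : ∀ s : Fin q × Fin q, ∃ C : ℝ, 0 < C ∧ (s.1 ≠ s.2 → ∀ n a a' : ℕ,
      ∀ T : Finset (Fin 3 → ℤ), (∀ x ∈ T, Cont 1 x ∧
      2 ^ n ≤ nm x ∧ nm x < 2 ^ (n + 1) ∧ 2 ^ a ≤ (dot x (L s.1)).natAbs ∧
      (dot x (L s.1)).natAbs < 2 ^ (a + 1) ∧ 2 ^ a' ≤ (dot x (L s.2)).natAbs ∧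
      (dot x (L s.2)).natAbs < 2 ^ (a' + 1) ∧
      (∀ l, l ≠ s.1 → l ≠ s.2 → nm x ≤ 6 * H ^ 2 * (dot x (L l)).natAbs) ∧
      (∀ l, dot x (L l) ≠ 0) ∧
      (rd (∏ l, (dot x (L l)).natAbs) : ℝ) ≤ Cc * (nm x : ℝ) ^ ((q : ℝ) - κ)) →
      (T.card : ℝ) ≤ C * ((2 : ℝ) ^ n) ^ (3 - κ + δ / 2)) := by
    intro s
    by_cases hs : s.1 = s.2
    · exact ⟨1, one_pos, fun h => absurd hs h⟩
    · obtain ⟨C, hC0, hC⟩ := boxcount g hκ0 hκ1 hCc hs hδ2
      exact ⟨C, hC0, fun _ => hC⟩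
  choose Cs hCs0 hCs using hbox
  set C₀ : ℝ := ∑ s, Cs s with hC₀
  have hCsle : ∀ s, Cs s ≤ C₀ := fun s =>
    Finset.single_le_sum (f := Cs) (fun s _ => (hCs0 s).le) (mem_univ s)
  have hC₀0 : 0 < C₀ := by
    have : (0 : ℕ) < q := by omega
    exact lt_of_lt_of_le (hCs0 (⟨0, this⟩, ⟨0, this⟩)) (hCsle _)
  obtain ⟨C₁, hC₁0, hC₁⟩ := log_le_pow hδ6
  refine ⟨q * q * (C₁ * (C₁ * ((3 * H : ℕ) : ℝ) ^ (δ / 6)) * (C₁ * ((3 * H : ℕ) : ℝ) ^ (δ / 6))) * C₀,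
    ?_, fun B hB T hT => ?_⟩
  · have : (0 : ℝ) < q := by exact_mod_cast (by omega : 0 < q)
    positivity
  have hB1 : (1 : ℝ) ≤ B := by exact_mod_cast hB
  have hB0 : (0 : ℝ) < B := by linarith
  have hFin : Nonempty (Fin q) := ⟨⟨0, by omega⟩⟩
  -- the two smallest forms
  have hex : ∀ x ∈ T, ∃ s : Fin q × Fin q, s.1 ≠ s.2 ∧
      ∀ l, l ≠ s.1 → l ≠ s.2 → nm x ≤ 6 * H ^ 2 * (dot x (L l)).natAbs := by
    intro x hx
    obtain ⟨i, -, hi⟩ := Finset.exists_min_image univ (fun l => (dot x (L l)).natAbs)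
      ⟨⟨0, by omega⟩, mem_univ _⟩
    have hne : (univ.erase i).Nonempty := by
      rw [← Finset.card_pos, Finset.card_erase_of_mem (mem_univ i), Finset.card_univ,
        Fintype.card_fin]
      omega
    obtain ⟨j, hjm, hj⟩ := Finset.exists_min_image (univ.erase i)
      (fun l => (dot x (L l)).natAbs) hne
    have hij : j ≠ i := (mem_erase.1 hjm).1
    refine ⟨(i, j), hij.symm, fun l hli hlj => ?_⟩
    exact nm_bound g hij.symm hli.symm hlj.symm (hi l (mem_univ l))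
      (hj l (mem_erase.2 ⟨hli, mem_univ l⟩)) le_rfl
  choose! s hs1 hs2 using hex
  set key : (Fin 3 → ℤ) → (Fin q × Fin q) × ℕ × ℕ × ℕ := fun x =>
    (s x, Nat.log 2 (nm x), Nat.log 2 (dot x (L (s x).1)).natAbs,
      Nat.log 2 (dot x (L (s x).2)).natAbs) with hkey
  set KS : Finset ((Fin q × Fin q) × ℕ × ℕ × ℕ) := univ ×ˢ range (Nat.log 2 B + 1) ×ˢ
    range (Nat.log 2 (3 * H * B) + 1) ×ˢ range (Nat.log 2 (3 * H * B) + 1) with hKS
  have hmaps : ∀ x ∈ T, key x ∈ KS := by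
    intro x hx
    have h1 := (hT x hx).2.1
    have h2 : ∀ l, (dot x (L l)).natAbs ≤ 3 * H * B := fun l =>
      (dot_le g (abs_le_nm x) l).trans (Nat.mul_le_mul_left _ h1)
    rw [hKS, mem_product, mem_product, mem_product, mem_range, mem_range, mem_range]
    refine ⟨mem_univ _, ?_, ?_, ?_⟩
    · have := Nat.log_mono_right (b := 2) h1
      simp only [hkey]
      omega
    · have := Nat.log_mono_right (b := 2) (h2 (s x).1)
      simp only [hkey]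
      omega
    · have := Nat.log_mono_right (b := 2) (h2 (s x).2)
      simp only [hkey]
      omega
  have hfib : ∀ k ∈ KS, ((T.filter fun x => key x = k).card : ℝ) ≤
      C₀ * (B : ℝ) ^ (3 - κ + δ / 2) := by
    rintro ⟨s0, n, a, a'⟩ -
    rcases (T.filter fun x => key x = (s0, n, a, a')).eq_empty_or_nonempty with h0 | ⟨x0, hx0⟩
    · rw [h0, Finset.card_empty, Nat.cast_zero]
      positivity
    have hmem : ∀ x ∈ T.filter (fun x => key x = (s0, n, a, a')), x ∈ T ∧ s x = s0 ∧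
        Nat.log 2 (nm x) = n ∧ Nat.log 2 (dot x (L s0.1)).natAbs = a ∧
        Nat.log 2 (dot x (L s0.2)).natAbs = a' := by
      intro x hx
      rw [mem_filter] at hx
      obtain ⟨hx1, hx2⟩ := hx
      simp only [hkey, Prod.mk.injEq] at hx2
      obtain ⟨h1, h2, h3, h4⟩ := hx2
      rw [h1] at h3 h4
      exact ⟨hx1, h1, h2, h3, h4⟩
    have hne : s0.1 ≠ s0.2 := by
      obtain ⟨h1, h2, -⟩ := hmem x0 hx0
      rw [← h2]
      exact hs1 x0 h1
    have h1 := hCs s0 hne n a a' (T.filter fun x => key x = (s0, n, a, a')) (by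
      intro x hx
      obtain ⟨h1, h2, h3, h4, h5⟩ := hmem x hx
      obtain ⟨t1, t2, t3, t4⟩ := hT x h1
      have hnm : nm x ≠ 0 := by have := nm_pos t1.1; omega
      have hd1 : (dot x (L s0.1)).natAbs ≠ 0 := by simpa using t3 s0.1
      have hd2 : (dot x (L s0.2)).natAbs ≠ 0 := by simpa using t3 s0.2
      refine ⟨t1, ?_, ?_, ?_, ?_, ?_, ?_, ?_, t3, t4⟩
      · rw [← h3]; exact Nat.pow_log_le_self 2 hnm
      · rw [← h3]; exact Nat.lt_pow_succ_log_self (by norm_num) _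
      · rw [← h4]; exact Nat.pow_log_le_self 2 hd1
      · rw [← h4]; exact Nat.lt_pow_succ_log_self (by norm_num) _
      · rw [← h5]; exact Nat.pow_log_le_self 2 hd2
      · rw [← h5]; exact Nat.lt_pow_succ_log_self (by norm_num) _
      · rw [← h2]; exact hs2 x h1)
    refine h1.trans ?_
    obtain ⟨h2, -, h3, -⟩ := hmem x0 hx0
    have hnB : ((2 : ℝ) ^ n) ≤ B := by
      have h4 : 2 ^ n ≤ nm x0 := by
        rw [← h3]
        exact Nat.pow_log_le_self 2 (by have := nm_pos (hT x0 h2).1.1; omega)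
      exact_mod_cast h4.trans (hT x0 h2).2.1
    refine mul_le_mul (hCsle s0) ?_ (by positivity) hC₀0.le
    exact Real.rpow_le_rpow (by positivity) hnB (by linarith)
  have hcard : T.card = ∑ k ∈ KS, (T.filter fun x => key x = k).card :=
    Finset.card_eq_sum_card_fiberwise hmaps
  rw [hcard, Nat.cast_sum]
  calc ∑ k ∈ KS, ((T.filter fun x => key x = k).card : ℝ) ≤
        ∑ k ∈ KS, C₀ * (B : ℝ) ^ (3 - κ + δ / 2) := Finset.sum_le_sum hfib
    _ = (KS.card : ℝ) * (C₀ * (B : ℝ) ^ (3 - κ + δ / 2)) := by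
        rw [Finset.sum_const, nsmul_eq_mul]
    _ ≤ (q * q * ((C₁ * (B : ℝ) ^ (δ / 6)) * ((C₁ * ((3 * H : ℕ) : ℝ) ^ (δ / 6) * (B : ℝ) ^ (δ / 6)) *
        (C₁ * ((3 * H : ℕ) : ℝ) ^ (δ / 6) * (B : ℝ) ^ (δ / 6))))) *
        (C₀ * (B : ℝ) ^ (3 - κ + δ / 2)) := by
        refine mul_le_mul_of_nonneg_right ?_ (by positivity)
        have e1 : (KS.card : ℝ) = (q * q) * (((Nat.log 2 B + 1 : ℕ) : ℝ) *
            (((Nat.log 2 (3 * H * B) + 1 : ℕ) : ℝ) * ((Nat.log 2 (3 * H * B) + 1 : ℕ) : ℝ))) := by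
          rw [hKS, Finset.card_product, Finset.card_product, Finset.card_product, card_range,
            card_range, Finset.card_univ, Fintype.card_prod, Fintype.card_fin]
          push_cast
          ring
        have e2 := hC₁ B hB
        have e3 := hC₁ (3 * H * B) (by
          have : 0 < 3 * H * B := by positivity
          exact this)
        have e4 : ((3 * H * B : ℕ) : ℝ) ^ (δ / 6) = ((3 * H : ℕ) : ℝ) ^ (δ / 6) * (B : ℝ) ^ (δ / 6) := by
          rw [← Real.mul_rpow (Nat.cast_nonneg _) hB0.le]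
          push_cast
          rfl
        rw [e4, ← mul_assoc] at e3
        rw [e1]
        refine mul_le_mul_of_nonneg_left ?_ (by positivity)
        refine mul_le_mul e2 (mul_le_mul e3 e3 (Nat.cast_nonneg _) (by positivity))
          (by positivity) (by positivity)
    _ = (q * q * (C₁ * (C₁ * ((3 * H : ℕ) : ℝ) ^ (δ / 6)) * (C₁ * ((3 * H : ℕ) : ℝ) ^ (δ / 6))) * C₀) *
        ((B : ℝ) ^ (δ / 6) * (B : ℝ) ^ (δ / 6) * (B : ℝ) ^ (δ / 6) * (B : ℝ) ^ (3 - κ + δ / 2)) := by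
        ring
    _ = _ := by
        rw [← Real.rpow_add hB0, ← Real.rpow_add hB0, ← Real.rpow_add hB0]
        congr 2
        ring

end Pool.Agent.K4H9.PP
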