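import Pool.Agent.K4H9.PP.Val

set_option autoImplicit false

/-!
The number of integer points in a box at which the product of the linear forms is much larger than
its radical.
-/

namespace Pool.Agent.K4H9.PP

open Finset

variable {q : ℕ} {ℓ : Fin q → Fin 3 → ℤ} {Θ H : ℕ}

lemma dot_le (g : GP ℓ Θ H) {z : Fin 3 → ℤ} {B : ℕ} (hz : ∀ k, |z k| ≤ B) (l : Fin q) :
    (dot z (ℓ l)).natAbs ≤ 3 * H * B := by
  have h1 : |dot z (ℓ l)| ≤ 3 * H * B := by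
    unfold dot
    have hb := fun k => mul_le_mul (hz k) (g.bd l k) (abs_nonneg _) (Int.natCast_nonneg B)
    calc |z 0 * ℓ l 0 + z 1 * ℓ l 1 + z 2 * ℓ l 2| ≤
          |z 0 * ℓ l 0| + |z 1 * ℓ l 1| + |z 2 * ℓ l 2| := abs_add_three _ _ _
      _ = |z 0| * |ℓ l 0| + |z 1| * |ℓ l 1| + |z 2| * |ℓ l 2| := by
          rw [abs_mul, abs_mul, abs_mul]
      _ ≤ B * H + B * H + B * H := add_le_add (add_le_add (hb 0) (hb 1)) (hb 2)
      _ = _ := by ring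
  rw [Int.abs_eq_natAbs] at h1
  exact_mod_cast h1

/-- one tuple -/
lemma fibre (g : GP ℓ Θ H) {c : ℕ} (hc : 1 ≤ c) {B : ℕ} (hB : 1 ≤ B) {b : Fin 3 → ℕ}
    (hb : ∀ j, 1 ≤ b j ∧ b j ≤ B) {K : ℝ} (hK : 1 ≤ K)
    (hKb : K * (B : ℝ) ^ 2 ≤ ((∏ j, b j : ℕ) : ℝ)) {m : Fin q → ℕ} (hm0 : ∏ l, m l ≠ 0)
    (hm1 : K * (rd (∏ l, m l) : ℝ) ≤ ((∏ l, m l : ℕ) : ℝ))
    (hm2 : (rd (∏ l, m l) : ℝ) ≤ 3 * H * (B : ℝ) ^ 2)
    (T : Finset (Fin 3 → ℤ)) (hTne : T.Nonempty)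
    (hT : ∀ z ∈ T, Cont c z ∧ (∀ k, |z k| ≤ b k) ∧ (∀ l, dot z (ℓ l) ≠ 0) ∧
      ∀ l, (m l : ℤ) ∣ dot z (ℓ l)) :
    (T.card : ℝ) ≤ ((6 * c * H + 729 + 729 * (Θ * c) ^ q : ℕ) : ℝ) *
        (((∏ j, b j : ℕ) : ℝ) / K * (1 / (rd (∏ l, m l) : ℝ))) ∨
    ∃ V : Fin 3 → ℤ, V ≠ 0 ∧ (∀ l, cr V (ℓ l) ≠ 0) ∧ (∀ l k, (m l : ℤ) ∣ cr V (ℓ l) k) ∧
      nm V < rd (∏ l, m l) ∧ T.card * nm V ≤ 729 * B ^ 2 := by
  classical
  set P := ∏ l, m l with hP
  set R := rd P with hR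
  set β : ℝ := ((∏ j, b j : ℕ) : ℝ) with hβ
  have hR0 : (0 : ℝ) < R := by exact_mod_cast rd_pos P
  have hB1 : (1 : ℝ) ≤ B := by exact_mod_cast hB
  have hH : (1 : ℝ) ≤ H := by exact_mod_cast g.H1
  have hK0 : 0 < K := by linarith
  have hBK : (B : ℝ) ^ 2 ≤ β / K := by
    rw [le_div_iff₀ hK0]
    linarith
  have hβ0 : 0 < β / K := lt_of_lt_of_le (by positivity) hBK
  have hgoal : ∀ x y : ℝ, 0 ≤ y → x ≤ y * (β / K * (1 / (R : ℝ))) →
      y ≤ ((6 * c * H + 729 + 729 * (Θ * c) ^ q : ℕ) : ℝ) →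
      x ≤ ((6 * c * H + 729 + 729 * (Θ * c) ^ q : ℕ) : ℝ) * (β / K * (1 / (R : ℝ))) := by
    intro x y _ h1 h2
    exact h1.trans (mul_le_mul_of_nonneg_right h2 (by positivity))
  rcases tri T b (fun j => (hb j).1) (fun z hz k => (hT z hz).2.1 k) with h | h | h
  · -- parallel
    left
    have h1 := par_card hc T (fun z hz => (hT z hz).1) h
    have h2 : (T.card : ℝ) ≤ 2 * c := by exact_mod_cast h1
    refine hgoal _ (6 * c * H : ℕ) (Nat.cast_nonneg _) (h2.trans ?_) (by push_cast; nlinarith [pow_nonneg (mul_nonneg (Nat.cast_nonneg (α := ℝ) Θ) (Nat.cast_nonneg (α := ℝ) c)) q])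
    have h3 : 1 ≤ 3 * H * (β / K * (1 / (R : ℝ))) := by
      rw [mul_one_div, mul_div_assoc', le_div_iff₀ hR0, one_mul]
      calc (R : ℝ) ≤ 3 * H * (B : ℝ) ^ 2 := hm2
        _ ≤ 3 * H * (β / K) := by gcongr
    have hc0 : (0 : ℝ) ≤ 2 * c := by positivity
    calc (2 * c : ℝ) = 2 * c * 1 := by ring
      _ ≤ 2 * c * (3 * H * (β / K * (1 / (R : ℝ)))) := mul_le_mul_of_nonneg_left h3 hc0
      _ = _ := by push_cast; ring
  · obtain ⟨v, w, hv, hw, hV, hperp, hcard⟩ := h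
    set V := cr v w with hVdef
    have hnm : T.card * nm V ≤ 729 * B ^ 2 := by
      obtain ⟨k, hk⟩ := exists_nm V
      have h1 := hcard k
      rw [hk] at h1
      have h2 : ∏ j, b j ≤ b k * B ^ 2 := by
        rw [Fin.prod_univ_three]
        have h0 := (hb 0).2
        have h1' := (hb 1).2
        have h2' := (hb 2).2
        fin_cases k
        · change b 0 * b 1 * b 2 ≤ b 0 * B ^ 2
          calc b 0 * b 1 * b 2 = b 0 * (b 1 * b 2) := by ring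
            _ ≤ b 0 * (B * B) := by gcongr
            _ = _ := by ring
        · change b 0 * b 1 * b 2 ≤ b 1 * B ^ 2
          calc b 0 * b 1 * b 2 = b 1 * (b 0 * b 2) := by ring
            _ ≤ b 1 * (B * B) := by gcongr
            _ = _ := by ring
        · change b 0 * b 1 * b 2 ≤ b 2 * B ^ 2
          calc b 0 * b 1 * b 2 = b 2 * (b 0 * b 1) := by ring
            _ ≤ b 2 * (B * B) := by gcongr
            _ = _ := by ring
      have h3 : T.card * nm V * b k ≤ (729 * B ^ 2) * b k := by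
        calc T.card * nm V * b k ≤ 729 * ∏ j, b j := h1
          _ ≤ 729 * (b k * B ^ 2) := by gcongr
          _ = _ := by ring
      exact Nat.le_of_mul_le_mul_right h3 (hb k).1
    rcases lt_or_ge (nm V) R with hlt | hge
    · right
      refine ⟨V, hV, ?_, ?_, hlt, hnm⟩
      · intro l hcr
        obtain ⟨z, hz⟩ := hTne
        obtain ⟨k, hk⟩ : ∃ k, V k ≠ 0 := by
          by_contra hcon
          push Not at hcon
          exact hV (funext hcon)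
        apply (hT z hz).2.2.1 l
        obtain ⟨V', hV'⟩ := cr_mod (u := ℓ l) (ℓ := V) (m := 0) (fun j => by
          have e : cr (ℓ l) V j = -cr V (ℓ l) j := by
            fin_cases j
            · change cr _ _ 0 = - cr _ _ 0
              simp only [cr_zero]; ring
            · change cr _ _ 1 = - cr _ _ 1
              simp only [cr_one]; ring
            · change cr _ _ 2 = - cr _ _ 2
              simp only [cr_two]; ring
          rw [e, hcr]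
          simp) k
        have h1 : V k * dot z (ℓ l) = ℓ l k * dot z V := by
          unfold dot
          linear_combination z 0 * hV' 0 + z 1 * hV' 1 + z 2 * hV' 2
        rw [hperp z hz, mul_zero] at h1
        exact (mul_eq_zero.1 h1).resolve_left hk
      · intro l k
        have hspan := span_dot (T := (T : Set (Fin 3 → ℤ))) (W := ℓ l) (m := (m l : ℤ))
          fun z hz => (hT z hz).2.2.2 l
        have e : cr V (ℓ l) k = w k * dot v (ℓ l) - v k * dot w (ℓ l) := by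
          rw [hVdef]
          fin_cases k
          · change cr (cr v w) (ℓ l) 0 = w 0 * _ - v 0 * _
            simp only [cr_zero, cr_one, cr_two, dot]; ring
          · change cr (cr v w) (ℓ l) 1 = w 1 * _ - v 1 * _
            simp only [cr_zero, cr_one, cr_two, dot]; ring
          · change cr (cr v w) (ℓ l) 2 = w 2 * _ - v 2 * _
            simp only [cr_zero, cr_one, cr_two, dot]; ring
        rw [e]
        exact dvd_sub (Dvd.dvd.mul_left (hspan v hv) _) (Dvd.dvd.mul_left (hspan w hw) _)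
    · left
      refine hgoal _ (729 : ℕ) (Nat.cast_nonneg _) ?_ (by push_cast; nlinarith [pow_nonneg (mul_nonneg (Nat.cast_nonneg (α := ℝ) Θ) (Nat.cast_nonneg (α := ℝ) c)) q, mul_nonneg (Nat.cast_nonneg (α := ℝ) c) (Nat.cast_nonneg (α := ℝ) H)])
      have h1 : (T.card : ℝ) * R ≤ 729 * (B : ℝ) ^ 2 := by
        have : T.card * R ≤ 729 * B ^ 2 := (Nat.mul_le_mul_left _ hge).trans hnm
        exact_mod_cast this
      have h2 : (T.card : ℝ) ≤ 729 * (β / K) / R := by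
        rw [le_div_iff₀ hR0]
        calc (T.card : ℝ) * R ≤ 729 * (B : ℝ) ^ 2 := h1
          _ ≤ 729 * (β / K) := by gcongr
      refine h2.trans (le_of_eq ?_)
      push_cast
      ring
  · obtain ⟨u, v, w, hu, hv, hw, hD, hcard⟩ := h
    left
    obtain ⟨z₀, hz₀⟩ := hTne
    have h1 := prod_dvd g hc hm0 (T := (T : Set (Fin 3 → ℤ))) (fun z hz => (hT z hz).2.2.2) hz₀
      (hT z₀ hz₀).1 hu hv hw hD
    have hD' : 0 < (dt u v w).natAbs := by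
      have : (dt u v w).natAbs ≠ 0 := by simpa using hD
      omega
    have hΘ := g.Θ1
    have h2 : P ≤ (Θ * c) ^ q * (dt u v w).natAbs := Nat.le_of_dvd (by positivity) h1
    have h3 : T.card * P ≤ (729 * (Θ * c) ^ q) * ∏ j, b j := by
      calc T.card * P ≤ T.card * ((Θ * c) ^ q * (dt u v w).natAbs) := by gcongr
        _ = (Θ * c) ^ q * (T.card * (dt u v w).natAbs) := by ring
        _ ≤ (Θ * c) ^ q * (729 * ∏ j, b j) := by gcongr
        _ = _ := by ring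
    refine hgoal _ (729 * (Θ * c) ^ q : ℕ) (Nat.cast_nonneg _) ?_ (by push_cast; nlinarith [mul_nonneg (Nat.cast_nonneg (α := ℝ) c) (Nat.cast_nonneg (α := ℝ) H)])
    have h4 : (T.card : ℝ) * P ≤ ((729 * (Θ * c) ^ q : ℕ) : ℝ) * β := by
      rw [hβ]
      exact_mod_cast h3
    have h5 : (T.card : ℝ) ≤ ((729 * (Θ * c) ^ q : ℕ) : ℝ) * β / (K * R) := by
      rw [le_div_iff₀ (by positivity)]
      calc (T.card : ℝ) * (K * R) ≤ (T.card : ℝ) * P := by gcongr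
        _ ≤ _ := h4
    refine h5.trans (le_of_eq ?_)
    field_simp

theorem zthm (g : GP ℓ Θ H) {c : ℕ} (hc : 1 ≤ c) {ε : ℝ} (hε : 0 < ε) :
    ∃ C : ℝ, 0 < C ∧ ∀ B : ℕ, 1 ≤ B → ∀ b : Fin 3 → ℕ, (∀ j, 1 ≤ b j ∧ b j ≤ B) →
      ∀ K : ℝ, 1 ≤ K → K * (B : ℝ) ^ 2 ≤ ((∏ j, b j : ℕ) : ℝ) →
      ∀ T : Finset (Fin 3 → ℤ), (∀ z ∈ T, Cont c z ∧ (∀ k, |z k| ≤ b k) ∧
        (∀ l, dot z (ℓ l) ≠ 0) ∧ K * (rd (∏ l, (dot z (ℓ l)).natAbs) : ℝ) ≤
          ((∏ l, (dot z (ℓ l)).natAbs : ℕ) : ℝ)) →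
      (T.card : ℝ) ≤ C * (B : ℝ) ^ ε * (((∏ j, b j : ℕ) : ℝ) / K) := by
  classical
  have hε2 : 0 < ε / 2 := half_pos hε
  obtain ⟨C₁, hC₁0, hC₁⟩ := sum_inv_rd q hε
  obtain ⟨C₂, hC₂0, hC₂⟩ := sumM g hε2
  have hH := g.H1
  set A : ℕ := 6 * c * H + 729 + 729 * (Θ * c) ^ q with hA
  refine ⟨A * C₁ * ((3 * H : ℕ) : ℝ) ^ ε + 729 * C₂ * 729 ^ (ε / 2), by positivity,
    fun B hB b hb K hK hKb T hT => ?_⟩
  set β : ℝ := ((∏ j, b j : ℕ) : ℝ) with hβ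
  have hB1 : (1 : ℝ) ≤ B := by exact_mod_cast hB
  have hB0 : (0 : ℝ) < B := by linarith
  have hK0 : 0 < K := by linarith
  have hBK : (B : ℝ) ^ 2 ≤ β / K := by
    rw [le_div_iff₀ hK0]
    linarith
  have hβ0 : 0 < β / K := lt_of_lt_of_le (by positivity) hBK
  have hKB : K ≤ B := by
    have h1 : ∏ j, b j ≤ B ^ 3 := by
      rw [Fin.prod_univ_three]
      calc b 0 * b 1 * b 2 ≤ B * B * B :=
            Nat.mul_le_mul (Nat.mul_le_mul (hb 0).2 (hb 1).2) (hb 2).2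
        _ = _ := by ring
    have h2 : β ≤ (B : ℝ) ^ 3 := by rw [hβ]; exact_mod_cast h1
    have h3 : K * (B : ℝ) ^ 2 ≤ B * (B : ℝ) ^ 2 := by
      calc K * (B : ℝ) ^ 2 ≤ β := hKb
        _ ≤ (B : ℝ) ^ 3 := h2
        _ = _ := by ring
    exact le_of_mul_le_mul_right h3 (by positivity)
  set X : ℕ := 3 * H * B with hX
  have hX1 : 1 ≤ X := by
    rw [hX]
    have : 0 < 3 * H * B := by positivity
    exact this
  -- the minimal tuples
  have hex : ∀ z ∈ T, ∃ m : Fin q → ℕ, (∀ l, m l ∣ (dot z (ℓ l)).natAbs) ∧ (∏ l, m l) ≠ 0 ∧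
      K * (rd (∏ l, m l) : ℝ) ≤ ((∏ l, m l : ℕ) : ℝ) ∧
      ∀ p : ℕ, p.Prime → p ∣ ∏ l, m l → p ^ 2 ∣ ∏ l, m l ∧
        ((∏ l, m l : ℕ) : ℝ) ≤ K * (rd (∏ l, m l) : ℝ) * p := by
    intro z hz
    obtain ⟨-, -, h1, h2⟩ := hT z hz
    exact exists_min (fun l => by simpa using h1 l) hK h2
  choose! m hm1 hm2 hm3 hm4 using hex
  have hmX : ∀ z ∈ T, ∀ l, 1 ≤ m z l ∧ m z l ≤ X := by
    intro z hz l
    have h1 : (dot z (ℓ l)).natAbs ≠ 0 := by simpa using (hT z hz).2.2.1 l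
    refine ⟨Nat.pos_of_ne_zero ?_, ?_⟩
    · intro h0
      exact hm2 z hz (Finset.prod_eq_zero (mem_univ l) h0)
    · refine (Nat.le_of_dvd (Nat.pos_of_ne_zero h1) (hm1 z hz l)).trans ?_
      refine dot_le g (fun k => ((hT z hz).2.1 k).trans ?_) l
      exact_mod_cast (hb k).2
  set MM := T.image m with hMM
  have hMM1 : ∀ μ ∈ MM, ∏ l, μ l ≠ 0 ∧ K * (rd (∏ l, μ l) : ℝ) ≤ ((∏ l, μ l : ℕ) : ℝ) ∧
      (rd (∏ l, μ l) : ℝ) ≤ 3 * H * (B : ℝ) ^ 2 ∧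
      (∀ p : ℕ, p.Prime → p ∣ ∏ l, μ l → p ^ 2 ∣ ∏ l, μ l) ∧
      μ ∈ Fintype.piFinset (fun _ : Fin q => Icc 1 X) := by
    intro μ hμ
    obtain ⟨z, hz, rfl⟩ := mem_image.1 hμ
    refine ⟨hm2 z hz, hm3 z hz, ?_, fun p hp hpd => (hm4 z hz p hp hpd).1, ?_⟩
    · refine (rd_le_of_min (hm2 z hz) hK (hm4 z hz) hX1 fun l => (hmX z hz l).2).trans ?_
      have hHr : (1 : ℝ) ≤ H := by exact_mod_cast hH
      refine max_le ?_ ?_
      · rw [hX]
        push_cast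
        have : (B : ℝ) ≤ (B : ℝ) ^ 2 := by nlinarith
        gcongr
      · calc K ^ 2 ≤ (B : ℝ) ^ 2 := pow_le_pow_left₀ hK0.le hKB 2
          _ = 1 * (B : ℝ) ^ 2 := by ring
          _ ≤ 3 * H * (B : ℝ) ^ 2 := by
              refine mul_le_mul_of_nonneg_right ?_ (by positivity)
              linarith
    · rw [Fintype.mem_piFinset]
      intro l
      rw [mem_Icc]
      exact hmX z hz l
  set Tf : (Fin q → ℕ) → Finset (Fin 3 → ℤ) := fun μ => T.filter fun z => m z = μ with hTf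
  have hTfne : ∀ μ ∈ MM, (Tf μ).Nonempty := by
    intro μ hμ
    obtain ⟨z, hz, rfl⟩ := mem_image.1 hμ
    exact ⟨z, mem_filter.2 ⟨hz, rfl⟩⟩
  have hcardT : T.card = ∑ μ ∈ MM, (Tf μ).card :=
    Finset.card_eq_sum_card_fiberwise fun z hz => mem_image_of_mem m hz
  have halt : ∀ μ ∈ MM, ((Tf μ).card : ℝ) ≤ (A : ℝ) * (β / K * (1 / (rd (∏ l, μ l) : ℝ))) ∨
      ∃ V : Fin 3 → ℤ, V ≠ 0 ∧ (∀ l, cr V (ℓ l) ≠ 0) ∧ (∀ l k, (μ l : ℤ) ∣ cr V (ℓ l) k) ∧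
        nm V < rd (∏ l, μ l) ∧ (Tf μ).card * nm V ≤ 729 * B ^ 2 := by
    intro μ hμ
    obtain ⟨h1, h2, h3, -, -⟩ := hMM1 μ hμ
    refine fibre g hc hB hb hK hKb h1 h2 h3 (Tf μ) (hTfne μ hμ) fun z hz => ?_
    rw [hTf, mem_filter] at hz
    obtain ⟨hz1, rfl⟩ := hz
    obtain ⟨h4, h5, h6, -⟩ := hT z hz1
    exact ⟨h4, h5, h6, fun l => Int.natCast_dvd.2 (hm1 z hz1 l)⟩
  set M1 := MM.filter fun μ => ((Tf μ).card : ℝ) ≤
    (A : ℝ) * (β / K * (1 / (rd (∏ l, μ l) : ℝ))) with hM1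
  set M2 := MM.filter fun μ => ¬ ((Tf μ).card : ℝ) ≤
    (A : ℝ) * (β / K * (1 / (rd (∏ l, μ l) : ℝ))) with hM2
  have hsplit : ∑ μ ∈ MM, ((Tf μ).card : ℝ) = ∑ μ ∈ M1, ((Tf μ).card : ℝ) +
      ∑ μ ∈ M2, ((Tf μ).card : ℝ) := (Finset.sum_filter_add_sum_filter_not _ _ _).symm
  have hs1 : ∑ μ ∈ M1, ((Tf μ).card : ℝ) ≤
      (A * C₁ * ((3 * H : ℕ) : ℝ) ^ ε) * (B : ℝ) ^ ε * (β / K) := by
    calc ∑ μ ∈ M1, ((Tf μ).card : ℝ) ≤
          ∑ μ ∈ M1, (A : ℝ) * (β / K * (1 / (rd (∏ l, μ l) : ℝ))) :=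
          Finset.sum_le_sum fun μ hμ => (mem_filter.1 hμ).2
      _ = (A : ℝ) * (β / K) * ∑ μ ∈ M1, 1 / (rd (∏ l, μ l) : ℝ) := by
          rw [Finset.mul_sum]
          exact Finset.sum_congr rfl fun _ _ => by ring
      _ ≤ (A : ℝ) * (β / K) * (C₁ * (X : ℝ) ^ ε) := by
          refine mul_le_mul_of_nonneg_left ?_ (by positivity)
          refine le_trans ?_ (hC₁ X hX1)
          refine Finset.sum_le_sum_of_subset_of_nonneg ?_ fun _ _ _ => by positivity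
          intro μ hμ
          exact (hMM1 μ (mem_filter.1 hμ).1).2.2.2.2
      _ = _ := by
          have : (X : ℝ) = ((3 * H : ℕ) : ℝ) * B := by rw [hX]; push_cast; ring
          rw [this, Real.mul_rpow (Nat.cast_nonneg _) hB0.le]
          ring
  have hs2 : ∑ μ ∈ M2, ((Tf μ).card : ℝ) ≤
      (729 * C₂ * 729 ^ (ε / 2)) * (B : ℝ) ^ ε * (β / K) := by
    have hex2 : ∀ μ ∈ M2, ∃ V : Fin 3 → ℤ, V ≠ 0 ∧ (∀ l, cr V (ℓ l) ≠ 0) ∧
        (∀ l k, (μ l : ℤ) ∣ cr V (ℓ l) k) ∧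
        nm V < rd (∏ l, μ l) ∧ (Tf μ).card * nm V ≤ 729 * B ^ 2 := by
      intro μ hμ
      rw [hM2, mem_filter] at hμ
      exact (halt μ hμ.1).resolve_left hμ.2
    choose! V hV1 hV2 hV3 hV4 hV5 using hex2
    have hW1 : 1 ≤ 729 * B ^ 2 := by
      have : 0 < 729 * B ^ 2 := by positivity
      exact this
    have h1 := hC₂ (729 * B ^ 2) hW1 M2 V (by
      intro μ hμ
      have hμ' : μ ∈ MM := (mem_filter.1 hμ).1
      obtain ⟨h2, -, -, h3, -⟩ := hMM1 μ hμ'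
      refine ⟨h2, h3, hV1 μ hμ, ?_, hV2 μ hμ, hV3 μ hμ, hV4 μ hμ⟩
      refine le_trans ?_ (hV5 μ hμ)
      exact Nat.le_mul_of_pos_left _ (Finset.card_pos.2 (hTfne μ hμ')))
    calc ∑ μ ∈ M2, ((Tf μ).card : ℝ) ≤ ∑ μ ∈ M2, 729 * (B : ℝ) ^ 2 * (1 / (nm (V μ) : ℝ)) := by
          refine Finset.sum_le_sum fun μ hμ => ?_
          have h2 : (0 : ℝ) < nm (V μ) := by exact_mod_cast nm_pos (hV1 μ hμ)
          rw [mul_one_div, le_div_iff₀ h2]
          exact_mod_cast hV5 μ hμ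
      _ = 729 * (B : ℝ) ^ 2 * ∑ μ ∈ M2, 1 / (nm (V μ) : ℝ) := by rw [Finset.mul_sum]
      _ ≤ 729 * (B : ℝ) ^ 2 * (C₂ * ((729 * B ^ 2 : ℕ) : ℝ) ^ (ε / 2)) := by gcongr
      _ = 729 * C₂ * 729 ^ (ε / 2) * (B : ℝ) ^ ε * (B : ℝ) ^ 2 := by
          push_cast
          rw [Real.mul_rpow (by norm_num) (by positivity), ← Real.rpow_natCast (B : ℝ) 2,
            ← Real.rpow_mul hB0.le]
          have : ((2 : ℕ) : ℝ) * (ε / 2) = ε := by push_cast; ring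
          rw [this]
          ring
      _ ≤ _ := by gcongr
  rw [hcardT]
  push_cast
  rw [hsplit]
  calc _ ≤ (A * C₁ * ((3 * H : ℕ) : ℝ) ^ ε) * (B : ℝ) ^ ε * (β / K) +
        (729 * C₂ * 729 ^ (ε / 2)) * (B : ℝ) ^ ε * (β / K) := add_le_add hs1 hs2
    _ = _ := by push_cast; ring

end Pool.Agent.K4H9.PP
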